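import Pool.Agent.T6.H58.RP3

/-!
# Counting polynomials with a given value, IV (for MP_be1fae_nt, RandomPolynomials)
-/

set_option autoImplicit false

namespace Pool.Agent.T6.H58.RP

open Finset

/-- the number of nonzero coordinates -/
def supp {r : ℕ} (t : Fin r → ℤ) : ℕ := #{i | t i ≠ 0}

theorem supp_update {r : ℕ} (t : Fin r → ℤ) (i : Fin r) (hi : t i ≠ 0) :
    supp (Function.update t i 0) < supp t := by
  unfold supp
  apply card_lt_card
  rw [ssubset_iff_of_subset]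
  · exact ⟨i, by simp [hi], by simp⟩
  · intro j hj
    rw [mem_filter] at hj ⊢
    refine ⟨mem_univ _, ?_⟩
    by_cases h : j = i
    · rw [h]; exact hi
    · have := hj.2
      rwa [Function.update_of_ne h] at this

theorem card_slice {r : ℕ} (i : Fin r) (x : ℝ) (hx : 1 ≤ x) :
    (#{t ∈ cbox (Fin r) ⌊x⌋₊ | t i = 0} : ℝ) ≤ 3 ^ r * x ^ ((r : ℝ) - 1) := by
  classical
  have hr : 1 ≤ r := by
    have := i.2
    omega
  have hsub : ({t ∈ cbox (Fin r) ⌊x⌋₊ | t i = 0} : Finset (Fin r → ℤ)) ⊆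
      Fintype.piFinset (fun j : Fin r => if j = i then ({0} : Finset ℤ) else
        Icc (-((⌊x⌋₊ : ℕ) : ℤ)) (⌊x⌋₊ : ℕ)) := by
    intro t ht
    have h1 := mem_filter.1 ht
    rw [Fintype.mem_piFinset]
    intro j
    by_cases h : j = i
    · rw [if_pos h, mem_singleton, h]; exact h1.2
    · rw [if_neg h, mem_Icc]; exact mem_cbox.1 h1.1 j
  have hc : #(Fintype.piFinset (fun j : Fin r => if j = i then ({0} : Finset ℤ) else
        Icc (-((⌊x⌋₊ : ℕ) : ℤ)) (⌊x⌋₊ : ℕ))) = (2 * ⌊x⌋₊ + 1) ^ (r - 1) := by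
    rw [Fintype.card_piFinset]
    have e1 : ∀ j : Fin r, #(if j = i then ({0} : Finset ℤ) else
        Icc (-((⌊x⌋₊ : ℕ) : ℤ)) (⌊x⌋₊ : ℕ)) = if j = i then 1 else (2 * ⌊x⌋₊ + 1) := by
      intro j
      by_cases h : j = i
      · simp [h]
      · rw [if_neg h, if_neg h, card_Icc]
    simp only [e1]
    rw [prod_ite, prod_const_one, one_mul, prod_const]
    congr 1
    rw [filter_ne' univ i, card_erase_of_mem (mem_univ _), card_univ, Fintype.card_fin]
  have h1 : #{t ∈ cbox (Fin r) ⌊x⌋₊ | t i = 0} ≤ (2 * ⌊x⌋₊ + 1) ^ (r - 1) :=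
    (card_le_card hsub).trans (le_of_eq hc)
  have h2 : ((2 * ⌊x⌋₊ + 1 : ℕ) : ℝ) ≤ 3 * x := by
    have := Nat.floor_le (show 0 ≤ x by linarith)
    push_cast
    linarith
  calc (#{t ∈ cbox (Fin r) ⌊x⌋₊ | t i = 0} : ℝ) ≤ ((2 * ⌊x⌋₊ + 1 : ℕ) : ℝ) ^ (r - 1) := by
        exact_mod_cast h1
    _ ≤ (3 * x) ^ (r - 1) := pow_le_pow_left₀ (Nat.cast_nonneg _) h2 _
    _ = 3 ^ (r - 1) * x ^ (r - 1) := mul_pow _ _ _
    _ ≤ 3 ^ r * x ^ (r - 1) := by
        apply mul_le_mul_of_nonneg_right _ (by positivity)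
        exact pow_le_pow_right₀ (by norm_num) (Nat.sub_le _ _)
    _ = 3 ^ r * x ^ ((r : ℝ) - 1) := by
        rw [← Real.rpow_natCast x (r - 1), Nat.cast_sub hr, Nat.cast_one]

theorem bad_div (r d' : ℕ) (K : Finset (Fin r →₀ ℕ)) (h0 : 0 ∈ K)
    (hK : ∀ i, ∀ j ≤ d' + 1, Finsupp.single i j ∈ K) (θ η ν₀ : ℝ) (hθ : 0 ≤ θ) (hη : 0 < η)
    (hν1 : ν₀ ≤ 1)
    (hν : ∀ τ : ℝ, 0 ≤ τ → τ ≤ θ → τ * ((r : ℝ) - 1) - 1 - d' * min τ 1 ≤ -ν₀) :
    ∃ C : ℝ, 0 < C ∧ ∀ H : ℕ, 2 ≤ H → ∀ M : ℕ, (M : ℝ) ≤ (H : ℝ) ^ θ →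
      ∀ (G : Finset ℤ) (tau : ℕ) (B : Finset (K → ℤ)),
      (∀ A ∈ G, ∀ c ∈ cbox K H, ∀ t ∈ cbox (Fin r) M, A - ∑ k : K, c k * mon t k.1 ≠ 0 →
        #(A - ∑ k : K, c k * mon t k.1).natAbs.divisors ≤ tau) →
      (∀ c ∈ B, c ∈ cbox K H ∧ ∃ t ∈ cbox (Fin r) M, ∑ k : K, c k * mon t k.1 ∈ G) →
      (#B : ℝ) ≤ C * #G * ((tau : ℝ) + 1) * (H : ℝ) ^ (-ν₀ + η * r) *
        (2 * (H : ℝ) + 1) ^ #K := by
  classical
  set J : ℕ := ⌊θ / η⌋₊ with hJ
  set C : ℝ := 1 + r * ((J : ℝ) + 1) * 3 ^ r * (2 * 2 ^ d') with hC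
  refine ⟨C, by positivity, ?_⟩
  intro H hH M hM G tau B hτ hB
  have hH1 : (1 : ℝ) < H := by exact_mod_cast (by omega : 1 < H)
  have hH0 : (0 : ℝ) < H := by linarith
  set L : ℝ := 2 * (H : ℝ) + 1 with hL
  have hL0 : 0 < L := by positivity
  have hLK : 0 ≤ L ^ #K := by positivity
  have hJθ : (J : ℝ) * η ≤ θ := by
    have := Nat.floor_le (show 0 ≤ θ / η by positivity)
    rw [← hJ, le_div_iff₀ hη] at this
    exact this
  have hjθ : ∀ j ∈ range (J + 1), (j : ℝ) * η ≤ θ := by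
    intro j hj
    have : j ≤ J := by rw [mem_range] at hj; omega
    have : (j : ℝ) ≤ J := by exact_mod_cast this
    nlinarith
  set T0 : ℕ → ℕ := fun j => ⌈(H : ℝ) ^ ((j : ℝ) * η)⌉₊ with hT0
  have hT01 : ∀ j, 1 ≤ T0 j := by
    intro j
    rw [hT0]
    exact Nat.one_le_ceil_iff.2 (Real.rpow_pos_of_pos hH0 _)
  set Z : Fin r → ℕ → Finset (Fin r → ℤ) := fun i j =>
    {t ∈ cbox (Fin r) ⌊(H : ℝ) ^ (((j : ℝ) + 1) * η)⌋₊ | t i = 0} with hZ
  set Sx : Fin r → (Fin r → ℤ) → ℤ → ℕ → Finset (K → ℤ) := fun i t' A T =>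
    {c ∈ cbox K H | (∃ s : ℤ, T ≤ s.natAbs ∧
        ∑ k : K, c k * mon (Function.update t' i s) k.1 = A) ∧
        v0 K i t' (fun k => c k.1) ≠ A} with hSx
  set U0 : Finset (K → ℤ) := G.biUnion (fun A =>
    {c ∈ cbox K H | ∑ k : K, c k * mon (0 : Fin r → ℤ) k.1 = A}) with hU0
  -- only those t' which are in the box of the t
  set U1 : Finset (K → ℤ) := ((univ : Finset (Fin r)) ×ˢ range (J + 1)).biUnion (fun x =>
    (({t ∈ Z x.1 x.2 | t ∈ cbox (Fin r) M}) ×ˢ G).biUnion (fun y => Sx x.1 y.1 y.2 (T0 x.2)))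
    with hU1
  have hsub : B ⊆ U0 ∪ U1 := by
    intro c hc
    obtain ⟨hcb, t1, ht1, hA1⟩ := hB c hc
    -- minimal support
    have hex : ∃ n : ℕ, ∃ t ∈ cbox (Fin r) M, ∑ k : K, c k * mon t k.1 ∈ G ∧ supp t = n :=
      ⟨_, t1, ht1, hA1, rfl⟩
    obtain ⟨t, ht, hA, hn⟩ := Nat.find_spec hex
    have hmin : ∀ t'' ∈ cbox (Fin r) M, supp t'' < supp t → ∑ k : K, c k * mon t'' k.1 ∉ G := by
      intro t'' ht'' hlt hG
      rw [hn] at hlt
      exact Nat.find_min hex hlt ⟨t'', ht'', hG, rfl⟩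
    rcases Nat.eq_zero_or_pos (nrm t) with hz | hz
    · have ht0 : t = 0 := by
        funext i
        have h1 : t ∈ cbox (Fin r) 0 := mem_tbox.2 (le_of_eq hz)
        have h2 := mem_cbox.1 h1 i
        simp only [Nat.cast_zero, neg_zero] at h2
        exact le_antisymm h2.2 h2.1
      rw [mem_union]
      left
      rw [hU0, mem_biUnion]
      refine ⟨_, hA, ?_⟩
      rw [mem_filter]
      exact ⟨hcb, by rw [ht0]⟩
    · rw [mem_union]
      right
      obtain ⟨i, hi⟩ := nrm_attained hz.ne'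
      have hti : t i ≠ 0 := by
        intro h
        rw [h] at hi
        simp at hi
        omega
      obtain ⟨T, hT⟩ : ∃ T : ℝ, T = ((nrm t : ℕ) : ℝ) := ⟨_, rfl⟩
      have hT1 : 1 ≤ T := by rw [hT]; exact_mod_cast hz
      have hTθ : T ≤ (H : ℝ) ^ θ := by
        rw [mem_tbox] at ht
        rw [hT]
        exact (by exact_mod_cast ht : ((nrm t : ℕ) : ℝ) ≤ M).trans hM
      set x : ℝ := Real.logb H T with hx
      have hxT : (H : ℝ) ^ x = T := Real.rpow_logb hH0 hH1.ne' (by linarith)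
      have hx0 : 0 ≤ x := Real.logb_nonneg hH1 hT1
      have hxθ : x ≤ θ := by
        rw [← hxT] at hTθ
        exact (Real.rpow_le_rpow_left_iff hH1).1 hTθ
      set j : ℕ := ⌊x / η⌋₊ with hj
      have hj1 : (j : ℝ) * η ≤ x := by
        have := Nat.floor_le (show 0 ≤ x / η by positivity)
        rw [← hj, le_div_iff₀ hη] at this
        exact this
      have hj2 : x < ((j : ℝ) + 1) * η := by
        have := Nat.lt_floor_add_one (x / η)
        rw [← hj, div_lt_iff₀ hη] at this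
        exact this
      have hjJ : j ∈ range (J + 1) := by
        rw [mem_range, Nat.lt_succ_iff]
        exact Nat.floor_le_floor (div_le_div_of_nonneg_right hxθ hη.le)
      set t' : Fin r → ℤ := Function.update t i 0 with ht'
      have hup : Function.update t' i (t i) = t := by
        rw [ht', Function.update_idem, Function.update_eq_self]
      have hnrm : ∀ N, t ∈ cbox (Fin r) N → t' ∈ cbox (Fin r) N := by
        intro N h
        rw [mem_cbox] at h ⊢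
        intro j'
        by_cases hj' : j' = i
        · rw [ht', hj', Function.update_self]
          constructor
          · simp
          · simp
        · rw [ht', Function.update_of_ne hj']
          exact h j'
      have htm : t' ∈ cbox (Fin r) M := hnrm M ht
      have htZ : t' ∈ Z i j := by
        rw [hZ]
        show t' ∈ ({t ∈ cbox (Fin r) ⌊(H : ℝ) ^ (((j : ℝ) + 1) * η)⌋₊ | t i = 0} :
          Finset (Fin r → ℤ))
        rw [mem_filter]
        refine ⟨hnrm _ ?_, by rw [ht', Function.update_self]⟩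
        rw [mem_tbox]
        apply Nat.le_floor
        rw [← hT, ← hxT]
        exact (Real.rpow_le_rpow_left_iff hH1).2 hj2.le
      have hv0 : v0 K i t' (fun k => c k.1) = ∑ k : K, c k * mon t' k.1 := by
        have h1 := sum_split K i t' c 0
        rw [zero_mul, add_zero] at h1
        rw [← h1, ht', Function.update_idem]
      rw [hU1, mem_biUnion]
      refine ⟨(i, j), mem_product.2 ⟨mem_univ _, hjJ⟩, ?_⟩
      rw [mem_biUnion]
      refine ⟨(t', ∑ k : K, c k * mon t k.1), mem_product.2 ⟨?_, hA⟩, ?_⟩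
      · rw [mem_filter]; exact ⟨htZ, htm⟩
      · show c ∈ Sx i t' (∑ k : K, c k * mon t k.1) (T0 j)
        rw [hSx]
        simp only [mem_filter]
        refine ⟨hcb, ⟨t i, ?_, ?_⟩, ?_⟩
        · rw [hi, hT0]
          apply Nat.ceil_le.2
          rw [← hT, ← hxT]
          exact (Real.rpow_le_rpow_left_iff hH1).2 hj1
        · rw [hup]
        · intro h
          apply hmin t' htm (supp_update t i hti)
          rw [← hv0, h]
          exact hA
  have hG0 : (0 : ℝ) ≤ #G := Nat.cast_nonneg _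
  have ht0 : (0 : ℝ) ≤ tau := Nat.cast_nonneg _
  have hpow : ∀ e : ℝ, e ≤ -ν₀ + η * r → (H : ℝ) ^ e ≤ (H : ℝ) ^ (-ν₀ + η * r) := fun e he =>
    (Real.rpow_le_rpow_left_iff hH1).2 he
  have hLinv : L⁻¹ ≤ (H : ℝ) ^ (-1 : ℝ) := by
    rw [Real.rpow_neg_one]
    exact inv_anti₀ hH0 (by rw [hL]; linarith)
  have hr0 : (0 : ℝ) ≤ r := Nat.cast_nonneg _
  have hU0c : (#U0 : ℝ) ≤ #G * ((H : ℝ) ^ (-ν₀ + η * r) * L ^ #K) := by
    have h1 : ∀ A ∈ G, (#{c ∈ cbox K H | ∑ k : K, c k * mon (0 : Fin r → ℤ) k.1 = A} : ℝ) ≤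
        (H : ℝ) ^ (-ν₀ + η * r) * L ^ #K := by
      intro A _
      have h2 := count_val r 0 K h0 (fun i j hj => hK i j (by omega)) H 0 A
      rw [pow_zero, mul_one] at h2
      refine h2.trans ?_
      rw [mul_comm]
      apply mul_le_mul_of_nonneg_right _ hLK
      refine hLinv.trans (hpow _ ?_)
      nlinarith
    calc (#U0 : ℝ) ≤ ∑ A ∈ G, (#{c ∈ cbox K H |
          ∑ k : K, c k * mon (0 : Fin r → ℤ) k.1 = A} : ℝ) := by exact_mod_cast card_biUnion_le
      _ ≤ ∑ A ∈ G, (H : ℝ) ^ (-ν₀ + η * r) * L ^ #K := sum_le_sum h1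
      _ = _ := by rw [sum_const, nsmul_eq_mul]
  have hSc : ∀ (i : Fin r) (j : ℕ) (t' : Fin r → ℤ) (A : ℤ), t' i = 0 → t' ∈ cbox (Fin r) M →
      A ∈ G → (#(Sx i t' A (T0 j)) : ℝ) ≤
      2 * tau * (2 ^ d' * (H : ℝ) ^ (-1 - d' * min ((j : ℝ) * η) 1)) * L ^ #K := by
    intro i j t' A hti ht' hA
    have h1 := card_div K i t' d' (fun j hj => hK i (j + 1) (by omega)) H A (T0 j) (hT01 j) tau (by
      intro c hc h
      have hv0 : v0 K i t' (fun k => c k.1) = ∑ k : K, c k * mon t' k.1 := by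
        have h1 := sum_split K i t' c 0
        rw [zero_mul, add_zero] at h1
        have h2 : Function.update t' i 0 = t' := by rw [← hti, Function.update_eq_self]
        rw [← h1, h2]
      rw [hv0] at h ⊢
      exact hτ A hA c hc t' ht' h)
    have h2 : (#(Sx i t' A (T0 j)) : ℝ) * L ^ (d' + 1) ≤
        2 * tau * ((2 * H / T0 j : ℕ) + 1 : ℝ) ^ d' * L ^ #K := by
      rw [hL]
      exact_mod_cast h1
    have hTr : (H : ℝ) ^ ((j : ℝ) * η) ≤ T0 j := Nat.le_ceil _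
    have hTp : (0 : ℝ) < (H : ℝ) ^ ((j : ℝ) * η) := Real.rpow_pos_of_pos hH0 _
    have hT0p : (0 : ℝ) < T0 j := lt_of_lt_of_le hTp hTr
    set m : ℝ := min ((j : ℝ) * η) 1 with hm
    have hmp : (0 : ℝ) < (H : ℝ) ^ m := Real.rpow_pos_of_pos hH0 _
    have hm1 : (H : ℝ) ^ m ≤ T0 j :=
      ((Real.rpow_le_rpow_left_iff hH1).2 (min_le_left _ _)).trans hTr
    have hm2 : (H : ℝ) ^ m ≤ L := by
      calc (H : ℝ) ^ m ≤ (H : ℝ) ^ (1 : ℝ) := (Real.rpow_le_rpow_left_iff hH1).2 (min_le_right _ _)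
        _ = H := Real.rpow_one _
        _ ≤ L := by rw [hL]; linarith
    have hq : ((2 * H / T0 j : ℕ) + 1 : ℝ) / L ≤ 2 * (H : ℝ) ^ (-m) := by
      have h3 : ((2 * H / T0 j : ℕ) : ℝ) ≤ L / (T0 j : ℝ) := by
        refine (Nat.cast_div_le).trans ?_
        apply div_le_div_of_nonneg_right _ hT0p.le
        push_cast
        rw [hL]
        linarith
      have h4 : L / (T0 j : ℝ) / L ≤ ((H : ℝ) ^ m)⁻¹ := by
        rw [div_div, mul_comm, ← div_div, div_self hL0.ne', one_div]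
        exact inv_anti₀ hmp hm1
      have h5 : 1 / L ≤ ((H : ℝ) ^ m)⁻¹ := by
        rw [one_div]
        exact inv_anti₀ hmp hm2
      rw [Real.rpow_neg hH0.le]
      calc ((2 * H / T0 j : ℕ) + 1 : ℝ) / L ≤ (L / (T0 j : ℝ) + 1) / L := by
            apply div_le_div_of_nonneg_right _ hL0.le
            linarith
        _ = L / (T0 j : ℝ) / L + 1 / L := add_div _ _ _
        _ ≤ ((H : ℝ) ^ m)⁻¹ + ((H : ℝ) ^ m)⁻¹ := add_le_add h4 h5
        _ = 2 * ((H : ℝ) ^ m)⁻¹ := by ring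
    have hqn : (0 : ℝ) ≤ ((2 * H / T0 j : ℕ) + 1 : ℝ) / L := by positivity
    calc (#(Sx i t' A (T0 j)) : ℝ)
        = ((#(Sx i t' A (T0 j)) : ℝ) * L ^ (d' + 1)) * (L ^ (d' + 1))⁻¹ := by
          rw [mul_assoc, mul_inv_cancel₀ (by positivity), mul_one]
      _ ≤ (2 * tau * ((2 * H / T0 j : ℕ) + 1 : ℝ) ^ d' * L ^ #K) * (L ^ (d' + 1))⁻¹ :=
          mul_le_mul_of_nonneg_right h2 (by positivity)
      _ = 2 * tau * (L⁻¹ * (((2 * H / T0 j : ℕ) + 1 : ℝ) / L) ^ d') * L ^ #K := by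
          rw [div_pow, pow_succ]
          field_simp
      _ ≤ 2 * tau * ((H : ℝ) ^ (-1 : ℝ) * (2 * (H : ℝ) ^ (-m)) ^ d') * L ^ #K := by
          apply mul_le_mul_of_nonneg_right _ hLK
          apply mul_le_mul_of_nonneg_left _ (by positivity)
          apply mul_le_mul hLinv (pow_le_pow_left₀ hqn hq _) (by positivity) (by positivity)
      _ = 2 * tau * (2 ^ d' * (H : ℝ) ^ (-1 - d' * m)) * L ^ #K := by
          rw [mul_pow, ← Real.rpow_natCast ((H : ℝ) ^ (-m)), ← Real.rpow_mul hH0.le,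
            show (-1 - (d' : ℝ) * m) = -1 + -m * (d' : ℝ) by ring, Real.rpow_add hH0 (-1)]
          ring
  have hU1c : (#U1 : ℝ) ≤ r * ((J : ℝ) + 1) * (3 ^ r * #G * (2 * tau * 2 ^ d') *
      (H : ℝ) ^ (-ν₀ + η * r) * L ^ #K) := by
    have h1 : ∀ x ∈ (univ : Finset (Fin r)) ×ˢ range (J + 1),
        (#((({t ∈ Z x.1 x.2 | t ∈ cbox (Fin r) M}) ×ˢ G).biUnion
          (fun y => Sx x.1 y.1 y.2 (T0 x.2))) : ℝ) ≤
        3 ^ r * #G * (2 * tau * 2 ^ d') * (H : ℝ) ^ (-ν₀ + η * r) * L ^ #K := by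
      rintro ⟨i, j⟩ hx
      have hjr := (mem_product.1 hx).2
      have hjt := hjθ j hjr
      set b : ℝ := 2 * tau * (2 ^ d' * (H : ℝ) ^ (-1 - d' * min ((j : ℝ) * η) 1)) * L ^ #K
        with hb
      have hb0 : 0 ≤ b := by positivity
      have hy1 : (1 : ℝ) ≤ (H : ℝ) ^ (((j : ℝ) + 1) * η) := Real.one_le_rpow hH1.le (by positivity)
      have hZc : (#({t ∈ Z i j | t ∈ cbox (Fin r) M}) : ℝ) ≤
          3 ^ r * (H : ℝ) ^ (((j : ℝ) + 1) * η * ((r : ℝ) - 1)) := by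
        calc (#({t ∈ Z i j | t ∈ cbox (Fin r) M}) : ℝ) ≤ #(Z i j) := by
              exact_mod_cast card_filter_le _ _
          _ ≤ 3 ^ r * ((H : ℝ) ^ (((j : ℝ) + 1) * η)) ^ ((r : ℝ) - 1) := card_slice i _ hy1
          _ = _ := by rw [← Real.rpow_mul hH0.le]
      calc (#((({t ∈ Z i j | t ∈ cbox (Fin r) M}) ×ˢ G).biUnion
            (fun y => Sx i y.1 y.2 (T0 j))) : ℝ)
          ≤ ∑ y ∈ ({t ∈ Z i j | t ∈ cbox (Fin r) M}) ×ˢ G, (#(Sx i y.1 y.2 (T0 j)) : ℝ) := by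
            exact_mod_cast card_biUnion_le
        _ ≤ ∑ y ∈ ({t ∈ Z i j | t ∈ cbox (Fin r) M}) ×ˢ G, b := by
            apply sum_le_sum
            intro y hy
            have hy' := mem_product.1 hy
            have hy2 := mem_filter.1 hy'.1
            exact hSc i j y.1 y.2 (mem_filter.1 hy2.1).2 hy2.2 hy'.2
        _ = (#({t ∈ Z i j | t ∈ cbox (Fin r) M}) : ℝ) * #G * b := by
            rw [sum_const, nsmul_eq_mul, card_product]
            push_cast
            ring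
        _ ≤ (3 ^ r * (H : ℝ) ^ (((j : ℝ) + 1) * η * ((r : ℝ) - 1))) * #G * b := by
            apply mul_le_mul_of_nonneg_right _ hb0
            exact mul_le_mul_of_nonneg_right hZc hG0
        _ = 3 ^ r * #G * (2 * tau * 2 ^ d') *
            ((H : ℝ) ^ (((j : ℝ) + 1) * η * ((r : ℝ) - 1)) *
              (H : ℝ) ^ (-1 - d' * min ((j : ℝ) * η) 1)) * L ^ #K := by
            rw [hb]; ring
        _ ≤ 3 ^ r * #G * (2 * tau * 2 ^ d') * (H : ℝ) ^ (-ν₀ + η * r) * L ^ #K := by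
            apply mul_le_mul_of_nonneg_right _ hLK
            apply mul_le_mul_of_nonneg_left _ (by positivity)
            rw [← Real.rpow_add hH0]
            apply hpow
            have h3 := hν ((j : ℝ) * η) (by positivity) hjt
            nlinarith
    calc (#U1 : ℝ) ≤ ∑ x ∈ (univ : Finset (Fin r)) ×ˢ range (J + 1),
          (#((({t ∈ Z x.1 x.2 | t ∈ cbox (Fin r) M}) ×ˢ G).biUnion
          (fun y => Sx x.1 y.1 y.2 (T0 x.2))) : ℝ) := by exact_mod_cast card_biUnion_le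
      _ ≤ ∑ x ∈ (univ : Finset (Fin r)) ×ˢ range (J + 1),
          3 ^ r * #G * (2 * tau * 2 ^ d') * (H : ℝ) ^ (-ν₀ + η * r) * L ^ #K := sum_le_sum h1
      _ = _ := by
          rw [sum_const, nsmul_eq_mul, card_product, card_univ, Fintype.card_fin, card_range]
          push_cast
          ring
  set E : ℝ := (H : ℝ) ^ (-ν₀ + η * r) with hE
  have hE0 : 0 ≤ E := Real.rpow_nonneg hH0.le _
  calc (#B : ℝ) ≤ #(U0 ∪ U1) := by exact_mod_cast card_le_card hsub
    _ ≤ #U0 + #U1 := by exact_mod_cast card_union_le _ _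
    _ ≤ #G * (E * L ^ #K) + r * ((J : ℝ) + 1) * (3 ^ r * #G * (2 * tau * 2 ^ d') * E * L ^ #K) :=
        add_le_add hU0c hU1c
    _ ≤ #G * (E * L ^ #K) * (tau + 1) +
        r * ((J : ℝ) + 1) * (3 ^ r * #G * (2 * (tau + 1) * 2 ^ d') * E * L ^ #K) := by
        apply add_le_add
        · apply le_mul_of_one_le_right (by positivity)
          linarith
        · apply mul_le_mul_of_nonneg_left _ (by positivity)
          apply mul_le_mul_of_nonneg_right _ hLK
          apply mul_le_mul_of_nonneg_right _ hE0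
          apply mul_le_mul_of_nonneg_left _ (by positivity)
          apply mul_le_mul_of_nonneg_right _ (by positivity)
          linarith
    _ = C * #G * ((tau : ℝ) + 1) * E * L ^ #K := by
        rw [hC]; ring

end Pool.Agent.T6.H58.RP
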