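import Mathlib

/-!
A bounded geometry metric space without property A: a disjoint union of finite quotients of the
free group of rank two, the `n`-th of which is injective on the ball of radius `n`.
-/

set_option autoImplicit false

namespace Pool.Agent.T6.H58.Box

open FreeGroup (of)

/-- The free group of rank two. -/
abbrev F := FreeGroup Bool

/-- The ball of radius `n`. -/
abbrev Ball (n : ℕ) := {w : F // w.norm ≤ n}

theorem finite_norm_le (n : ℕ) : {w : F | w.norm ≤ n}.Finite := by
  have h : {l : List (Bool × Bool) | l.length ≤ n}.Finite := List.finite_length_le _ n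
  refine Set.Finite.of_finite_image (f := FreeGroup.toWord) (h.subset ?_)
    FreeGroup.toWord_injective.injOn
  rintro _ ⟨w, hw, rfl⟩
  exact hw

instance (n : ℕ) : Finite (Ball n) := (finite_norm_le n).to_subtype

/-- The partial action of a generator on the ball. -/
def pe (n : ℕ) (i : Bool) : {w : Ball n // (of i * w.1).norm ≤ n} ≃
    {w : Ball n // ((of i)⁻¹ * w.1).norm ≤ n} where
  toFun w := ⟨⟨of i * w.1.1, w.2⟩, by simpa using w.1.2⟩
  invFun w := ⟨⟨(of i)⁻¹ * w.1.1, w.2⟩, by simpa using w.1.2⟩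
  left_inv w := by
    apply Subtype.ext
    apply Subtype.ext
    simp
  right_inv w := by
    apply Subtype.ext
    apply Subtype.ext
    simp

/-- The permutation attached to a generator. -/
noncomputable def gen (n : ℕ) (i : Bool) : Equiv.Perm (Ball n) :=
  (pe n i).extendSubtype

theorem gen_apply (n : ℕ) (i : Bool) (w : Ball n) (h : (of i * w.1).norm ≤ n) :
    gen n i w = ⟨of i * w.1, h⟩ := by
  unfold gen
  rw [Equiv.extendSubtype_apply_of_mem _ w h]
  rfl

/-- The homomorphism to the permutations of the ball. -/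
noncomputable def pi0 (n : ℕ) : F →* Equiv.Perm (Ball n) := FreeGroup.lift (gen n)

theorem pi0_mk (n : ℕ) (L : List (Bool × Bool)) (h : L.length ≤ n) :
    (pi0 n (FreeGroup.mk L) ⟨1, by simp⟩).1 = FreeGroup.mk L := by
  induction L with
  | nil => 
    have : (FreeGroup.mk [] : F) = 1 := rfl
    rw [this]
    simp
  | cons a L ih =>
    have hL : L.length ≤ n := by
      simp only [List.length_cons] at h; omega
    have ih' := ih hL
    have e : (FreeGroup.mk (a :: L) : F) = FreeGroup.mk [a] * FreeGroup.mk L := by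
      simp [FreeGroup.mul_mk]
    have hn1 : (FreeGroup.mk (a :: L) : F).norm ≤ n := FreeGroup.norm_mk_le.trans h
    have hn2 : (FreeGroup.mk L : F).norm ≤ n := FreeGroup.norm_mk_le.trans hL
    have e2 : pi0 n (FreeGroup.mk L) ⟨1, by simp⟩ = ⟨FreeGroup.mk L, hn2⟩ := Subtype.ext ih'
    rw [e, map_mul, Equiv.Perm.mul_apply, e2]
    obtain ⟨i, b⟩ := a
    cases b with
    | true =>
      have e3 : (FreeGroup.mk [(i, true)] : F) = of i := rfl
      rw [e3] at e ⊢
      have e4 : pi0 n (of i) = gen n i := by simp [pi0]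
      rw [e4, gen_apply n i ⟨FreeGroup.mk L, hn2⟩ (by rw [← e]; exact hn1)]
    | false =>
      have e3 : (FreeGroup.mk [(i, false)] : F) = (of i)⁻¹ := rfl
      rw [e3] at e ⊢
      have e4 : pi0 n (of i)⁻¹ = (gen n i)⁻¹ := by simp [pi0]
      rw [e4]
      have e5 : gen n i ⟨(of i)⁻¹ * FreeGroup.mk L, by rw [← e]; exact hn1⟩ =
          ⟨FreeGroup.mk L, hn2⟩ := by
        rw [gen_apply n i _ (by simpa using hn2)]
        apply Subtype.ext
        simp
      rw [← e5]
      simp

theorem pi0_apply (n : ℕ) (w : F) (h : w.norm ≤ n) : (pi0 n w ⟨1, by simp⟩).1 = w := by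
  have := pi0_mk n w.toWord h
  rwa [FreeGroup.mk_toWord] at this

/-- The homomorphism to the permutations of the free group. -/
noncomputable def rho (n : ℕ) : F →* Equiv.Perm F :=
  (Equiv.Perm.ofSubtype (p := fun w : F => w.norm ≤ n)).comp (pi0 n)

theorem rho_inj (n : ℕ) {v w : F} (hv : v.norm ≤ n) (hw : w.norm ≤ n) (h : rho n v = rho n w) :
    v = w := by
  have h1 : pi0 n v = pi0 n w := Equiv.Perm.ofSubtype_injective h
  rw [← pi0_apply n v hv, ← pi0_apply n w hw, h1]

theorem finite_range (n : ℕ) : (Set.range (rho n)).Finite := by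
  have : Set.range (rho n) ⊆ Set.range (Equiv.Perm.ofSubtype (p := fun w : F => w.norm ≤ n)) := by
    rintro _ ⟨w, rfl⟩
    exact ⟨pi0 n w, rfl⟩
  exact (Set.finite_range _).subset this

/-- The word length in the `n`-th quotient. -/
noncomputable def len (n : ℕ) (g : Equiv.Perm F) : ℕ := sInf {k | ∃ w : F, rho n w = g ∧ w.norm = k}

theorem len_le {n : ℕ} {g : Equiv.Perm F} {w : F} (h : rho n w = g) : len n g ≤ w.norm :=
  Nat.sInf_le ⟨w, h, rfl⟩

theorem exists_lift {n : ℕ} {g : Equiv.Perm F} (h : g ∈ Set.range (rho n)) :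
    ∃ w : F, rho n w = g ∧ w.norm = len n g := by
  obtain ⟨w, hw⟩ := h
  have hne : {k | ∃ w : F, rho n w = g ∧ w.norm = k}.Nonempty := ⟨w.norm, w, hw, rfl⟩
  exact Nat.sInf_mem hne

theorem len_one (n : ℕ) : len n 1 = 0 := by
  have h : len n 1 ≤ (1 : F).norm := len_le (map_one (rho n))
  rw [FreeGroup.norm_one] at h
  exact Nat.le_zero.1 h

theorem eq_one_of_len {n : ℕ} {g : Equiv.Perm F} (hg : g ∈ Set.range (rho n)) (h : len n g = 0) :
    g = 1 := by
  obtain ⟨w, h1, h2⟩ := exists_lift hg
  rw [h, FreeGroup.norm_eq_zero] at h2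
  rw [← h1, h2, map_one]

theorem len_inv {n : ℕ} {g : Equiv.Perm F} (hg : g ∈ Set.range (rho n)) : len n g⁻¹ ≤ len n g := by
  obtain ⟨w, h1, h2⟩ := exists_lift hg
  have : len n g⁻¹ ≤ (w⁻¹).norm := len_le (by rw [map_inv, h1])
  rwa [FreeGroup.norm_inv_eq, h2] at this

theorem len_mul {n : ℕ} {g h : Equiv.Perm F} (hg : g ∈ Set.range (rho n))
    (hh : h ∈ Set.range (rho n)) : len n (g * h) ≤ len n g + len n h := by
  obtain ⟨w, h1, h2⟩ := exists_lift hg
  obtain ⟨v, h3, h4⟩ := exists_lift hh
  have : len n (g * h) ≤ (w * v).norm := len_le (by rw [map_mul, h1, h3])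
  calc len n (g * h) ≤ (w * v).norm := this
    _ ≤ w.norm + v.norm := FreeGroup.norm_mul_le _ _
    _ = _ := by rw [h2, h4]

theorem exists_K (n : ℕ) : ∃ K : ℕ, n + 1 ≤ K ∧ ∀ g ∈ Set.range (rho n), len n g ≤ K := by
  obtain ⟨K, hK⟩ := ((finite_range n).image (len n)).bddAbove
  refine ⟨K + n + 1, by omega, fun g hg => ?_⟩
  have := hK (Set.mem_image_of_mem (len n) hg)
  omega

/-- A bound for the diameter. -/
noncomputable def K (n : ℕ) : ℕ := (exists_K n).choose

theorem K_ge (n : ℕ) : n + 1 ≤ K n := (exists_K n).choose_spec.1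

theorem len_le_K (n : ℕ) {g : Equiv.Perm F} (hg : g ∈ Set.range (rho n)) : len n g ≤ K n :=
  (exists_K n).choose_spec.2 g hg

/-- The box space. -/
def X : Type := {p : ℕ × Equiv.Perm F // p.2 ∈ Set.range (rho p.1)}

theorem mem_quot {n : ℕ} {g h : Equiv.Perm F} (hg : g ∈ Set.range (rho n))
    (hh : h ∈ Set.range (rho n)) : g⁻¹ * h ∈ Set.range (rho n) := by
  obtain ⟨w, rfl⟩ := hg
  obtain ⟨v, rfl⟩ := hh
  exact ⟨w⁻¹ * v, by simp⟩

open Classical in
/-- The distance, as a natural number. -/
noncomputable def dN (x y : X) : ℕ :=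
  if x.1.1 = y.1.1 then len x.1.1 (x.1.2⁻¹ * y.1.2) else K x.1.1 + K y.1.1

theorem dN_of_eq {x y : X} (h : x.1.1 = y.1.1) : dN x y = len x.1.1 (x.1.2⁻¹ * y.1.2) := by
  unfold dN
  rw [if_pos h]

theorem dN_of_ne {x y : X} (h : x.1.1 ≠ y.1.1) : dN x y = K x.1.1 + K y.1.1 := by
  unfold dN
  rw [if_neg h]

theorem dN_self (x : X) : dN x x = 0 := by
  simp [dN, len_one]

theorem dN_comm_le (x y : X) : dN x y ≤ dN y x := by
  obtain ⟨⟨n, g⟩, hg⟩ := x
  obtain ⟨⟨m, h⟩, hh⟩ := y
  simp only [dN]
  simp only at hg hh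
  by_cases e : n = m
  · subst e
    simp only [if_true]
    have := len_inv (mem_quot hh hg)
    simpa using this
  · rw [if_neg e, if_neg (fun h => e h.symm)]
    omega

theorem dN_comm (x y : X) : dN x y = dN y x := le_antisymm (dN_comm_le x y) (dN_comm_le y x)

theorem dN_triangle (x y z : X) : dN x z ≤ dN x y + dN y z := by
  obtain ⟨⟨n, g⟩, hg⟩ := x
  obtain ⟨⟨m, h⟩, hh⟩ := y
  obtain ⟨⟨l, k⟩, hk⟩ := z
  simp only [dN]
  simp only at hg hh hk
  by_cases e1 : n = m
  · subst e1
    by_cases e2 : n = l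
    · subst e2
      simp only [if_true]
      have := len_mul (mem_quot hg hh) (mem_quot hh hk)
      have e : g⁻¹ * h * (h⁻¹ * k) = g⁻¹ * k := by group
      rwa [e] at this
    · rw [if_neg e2, if_pos rfl, if_neg e2]
      omega
  · by_cases e2 : n = l
    · subst e2
      rw [if_pos rfl, if_neg e1, if_neg (fun h => e1 h.symm)]
      have := len_le_K n (mem_quot hg hk)
      omega
    · rw [if_neg e2, if_neg e1]
      by_cases e3 : m = l
      · subst e3
        rw [if_pos rfl]
        omega
      · rw [if_neg e3]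
        omega

theorem eq_of_dN {x y : X} (h : dN x y = 0) : x = y := by
  obtain ⟨⟨n, g⟩, hg⟩ := x
  obtain ⟨⟨m, k⟩, hk⟩ := y
  simp only [dN] at h
  simp only at hg hk
  by_cases e1 : n = m
  · subst e1
    simp only [if_true] at h
    have := eq_one_of_len (mem_quot hg hk) h
    have : g = k := by
      rwa [inv_mul_eq_one] at this
    subst this
    rfl
  · rw [if_neg e1] at h
    have := K_ge n
    omega

noncomputable instance instMetricX : MetricSpace X where
  dist x y := (dN x y : ℝ)
  dist_self x := by simp [dN_self]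
  dist_comm x y := by simp [dN_comm x y]
  dist_triangle x y z := by exact_mod_cast dN_triangle x y z
  eq_of_dist_eq_zero := by
    intro x y h
    exact eq_of_dN (by exact_mod_cast h)

theorem dist_def (x y : X) : dist x y = (dN x y : ℝ) := rfl

noncomputable instance instMeasX : MeasurableSpace X := borel X

instance instBorelX : BorelSpace X := ⟨rfl⟩

theorem bounded_geometry (R : ℝ) : ∃ N : ℕ, ∀ x : X,
    (Metric.ball x R).Finite ∧ (Metric.ball x R).ncard ≤ N := by
  obtain ⟨M, hM⟩ := exists_nat_ge R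
  have hfin1 : {w : F | w.norm ≤ M}.Finite := finite_norm_le M
  have hfin2 : (⋃ m ∈ Finset.range M, (fun g : Equiv.Perm F => (m, g)) '' Set.range (rho m)).Finite := by
    refine Set.Finite.biUnion (Finset.finite_toSet _) fun m _ => ?_
    exact (finite_range m).image _
  refine ⟨{w : F | w.norm ≤ M}.ncard +
    (⋃ m ∈ Finset.range M, (fun g : Equiv.Perm F => (m, g)) '' Set.range (rho m)).ncard, fun x => ?_⟩
  have hsub : (fun y : X => y.1) '' Metric.ball x R ⊆
      ((fun w : F => (x.1.1, x.1.2 * rho x.1.1 w)) '' {w : F | w.norm ≤ M}) ∪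
      (⋃ m ∈ Finset.range M, (fun g : Equiv.Perm F => (m, g)) '' Set.range (rho m)) := by
    rintro _ ⟨y, hy, rfl⟩
    rw [Metric.mem_ball, dist_comm, dist_def] at hy
    have hy2 : (dN x y : ℝ) < M := lt_of_lt_of_le hy hM
    have hy3 : dN x y < M := by exact_mod_cast hy2
    obtain ⟨⟨n, g⟩, hg⟩ := x
    obtain ⟨⟨m, k⟩, hk⟩ := y
    simp only [dN] at hy3
    simp only at hg hk
    by_cases e : n = m
    · subst e
      simp only [if_true] at hy3
      left
      obtain ⟨w, h1, h2⟩ := exists_lift (mem_quot hg hk)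
      refine ⟨w, ?_, ?_⟩
      · show w.norm ≤ M
        omega
      · simp only [h1]
        simp
    · rw [if_neg e] at hy3
      right
      rw [Set.mem_iUnion₂]
      refine ⟨m, ?_, k, hk, rfl⟩
      rw [Finset.mem_range]
      have := K_ge m
      omega
  have hinj : Set.InjOn (fun y : X => y.1) (Metric.ball x R) := Subtype.val_injective.injOn
  have hfin3 := (hfin1.image (fun w : F => (x.1.1, x.1.2 * rho x.1.1 w))).union hfin2
  constructor
  · exact Set.Finite.of_finite_image (hfin3.subset hsub) hinj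
  · rw [← hinj.ncard_image]
    refine (Set.ncard_le_ncard hsub hfin3).trans ?_
    refine (Set.ncard_union_le _ _).trans ?_
    exact Nat.add_le_add_right (Set.ncard_image_le hfin1) _

instance instCountableX : Countable X := by
  have h : (Set.univ : Set X) ⊆ ⋃ n : ℕ, {x : X | x.1.1 = n} := fun x _ => by simp
  have h2 : (Set.univ : Set X).Countable := by
    refine (Set.countable_iUnion fun n => ?_).mono h
    have : ((fun y : X => y.1) '' {x : X | x.1.1 = n}).Finite := by
      refine ((finite_range n).image (fun g => (n, g))).subset ?_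
      rintro _ ⟨⟨⟨m, g⟩, hg⟩, hm, rfl⟩
      have hm' : m = n := hm
      subst hm'
      exact ⟨g, hg, rfl⟩
    exact (Set.Finite.of_finite_image this Subtype.val_injective.injOn).countable
  exact Set.countable_univ_iff.1 h2

end Pool.Agent.T6.H58.Box
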