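import Mathlib
import Pool.Agent.T6.H58.BoxSpace

/-!
The box space of the free group does not have property A.
-/

set_option autoImplicit false

namespace Pool.Agent.T6.H58.Box

open FreeGroup (of)

/-- The words whose first letter is `a`. -/
def W (a : Bool × Bool) : Set F := {v | v.toWord.head? = some a}

theorem cover (i : Bool) (v : F) : v ∈ W (i, false) ∨ of i * v ∈ W (i, true) := by
  by_cases h : v.toWord.head? = some (i, false)
  · exact Or.inl h
  · right
    show (of i * v).toWord.head? = some (i, true)
    rw [FreeGroup.toWord_mul, FreeGroup.toWord_of]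
    have hred : FreeGroup.IsReduced ([(i, true)] ++ v.toWord) := by
      have h1 : FreeGroup.IsReduced v.toWord := FreeGroup.isReduced_toWord
      rcases hw : v.toWord with _ | ⟨b, L⟩
      · exact FreeGroup.IsReduced.singleton
      · rw [hw] at h1 h
        simp only [List.head?_cons, Option.some.injEq] at h
        simp only [FreeGroup.IsReduced, List.cons_append, List.nil_append] at h1 ⊢
        rw [List.isChain_cons_cons]
        refine ⟨?_, h1⟩
        intro h2
        simp only at h2 ⊢
        by_contra h3
        apply h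
        obtain ⟨b1, b2⟩ := b
        simp only at h2 h3
        subst h2
        simp only [Prod.mk.injEq, true_and]
        cases b2
        · rfl
        · exact absurd rfl h3
    rw [hred.reduce_eq]
    rfl

/-- A shortest lift. -/
noncomputable def lift (n : ℕ) (g : Equiv.Perm F) : F :=
  open Classical in if h : ∃ w : F, rho n w = g ∧ w.norm = len n g then h.choose else 1

theorem lift_spec {n : ℕ} {g : Equiv.Perm F} (hg : g ∈ Set.range (rho n)) :
    rho n (lift n g) = g ∧ (lift n g).norm = len n g := by
  have h := exists_lift hg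
  unfold lift
  rw [dif_pos h]
  exact h.choose_spec

theorem lift_mul {n : ℕ} {g : Equiv.Perm F} (hg : g ∈ Set.range (rho n)) (s : F)
    (h1 : len n g + s.norm ≤ n) (h2 : len n (rho n s * g) ≤ n) :
    lift n (rho n s * g) = s * lift n g := by
  have hsg : rho n s * g ∈ Set.range (rho n) := by
    obtain ⟨w, rfl⟩ := hg
    exact ⟨s * w, by simp⟩
  obtain ⟨a1, a2⟩ := lift_spec hg
  obtain ⟨b1, b2⟩ := lift_spec hsg
  apply rho_inj n
  · omega
  · have := FreeGroup.norm_mul_le s (lift n g)
    omega
  · rw [b1, map_mul, a1]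

/-- The quotient group. -/
noncomputable abbrev H (n : ℕ) : Subgroup (Equiv.Perm F) := (rho n).range

instance (n : ℕ) : Finite (H n) := by
  have := finite_range n
  exact this.to_subtype

/-- The point of the box space. -/
noncomputable def pt (n : ℕ) (h : H n) : X := ⟨(n, h.1), h.2⟩

theorem not_property_A (S : ℝ) (A : X → Set (X × ℕ)) (hfin : ∀ x, (A x).Finite)
    (h0 : ∀ x, (x, 0) ∈ A x) (hS : ∀ x, ∀ w ∈ A x, dist w.1 x ≤ S)
    (hA : ∀ x y, dist x y < 2 →
      ((symmDiff (A x) (A y)).ncard : ℝ) < 1 / 8 * ((A x ∩ A y).ncard : ℝ)) : False := by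
  classical
  obtain ⟨N, hN⟩ := exists_nat_ge S
  set n := N + 1 with hn
  have : Fintype (H n) := Fintype.ofFinite _
  -- all points of `A (pt n h)` are in the same component
  have hcomp : ∀ h : H n, ∀ w ∈ A (pt n h), w.1.1.1 = n ∧
      ∃ hm : h.1⁻¹ * w.1.1.2 ∈ Set.range (rho n), len n (h.1⁻¹ * w.1.1.2) ≤ N := by
    intro h w hw
    have h1 := hS _ w hw
    rw [dist_comm, dist_def] at h1
    have h2 : (dN (pt n h) w.1 : ℝ) ≤ N := h1.trans hN
    have h3 : dN (pt n h) w.1 ≤ N := by exact_mod_cast h2
    by_cases e : (pt n h).1.1 = w.1.1.1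
    · rw [dN_of_eq e] at h3
      have e' : w.1.1.1 = n := e.symm
      have hg : w.1.1.2 ∈ Set.range (rho n) := by
        have := w.1.2
        rwa [e'] at this
      exact ⟨e', mem_quot h.2 hg, h3⟩
    · rw [dN_of_ne e] at h3
      have h4 : (pt n h).1.1 = n := rfl
      rw [h4] at h3
      have := K_ge n
      omega
  -- the counting function
  set q : H n → Set F → ℕ := fun h E =>
    ({w ∈ (hfin (pt n h)).toFinset | lift n (h.1⁻¹ * w.1.1.2) ∈ E}).card with hq
  set a : H n → ℕ := fun h => (hfin (pt n h)).toFinset.card with ha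
  have ha1 : ∀ h, 1 ≤ a h := by
    intro h
    have : (pt n h, 0) ∈ (hfin (pt n h)).toFinset := by
      rw [Set.Finite.mem_toFinset]
      exact h0 _
    exact Finset.card_pos.2 ⟨_, this⟩
  -- comparison of neighbours
  have hdiff : ∀ h h' : H n, dist (pt n h) (pt n h') < 2 →
      (((hfin (pt n h)).toFinset \ (hfin (pt n h')).toFinset).card : ℝ) ≤ 1 / 8 * a h ∧
      (((hfin (pt n h)).toFinset \ (hfin (pt n h')).toFinset).card : ℝ) ≤ 1 / 8 * a h' := by
    intro h h' hd
    have h1 := hA _ _ hd
    have e1 : (symmDiff (A (pt n h)) (A (pt n h'))).ncard =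
        (symmDiff (hfin (pt n h)).toFinset (hfin (pt n h')).toFinset).card := by
      rw [← Set.ncard_coe_finset]
      congr 1
      simp [Finset.coe_symmDiff]
    have e2 : (A (pt n h) ∩ A (pt n h')).ncard =
        ((hfin (pt n h)).toFinset ∩ (hfin (pt n h')).toFinset).card := by
      rw [← Set.ncard_coe_finset]
      congr 1
      simp
    rw [e1, e2] at h1
    have h2 : ((hfin (pt n h)).toFinset \ (hfin (pt n h')).toFinset).card ≤
        (symmDiff (hfin (pt n h)).toFinset (hfin (pt n h')).toFinset).card := by
      apply Finset.card_le_card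
      intro x hx
      rw [Finset.mem_symmDiff]
      rw [Finset.mem_sdiff] at hx
      exact Or.inl hx
    have h3 : ((hfin (pt n h)).toFinset ∩ (hfin (pt n h')).toFinset).card ≤ a h :=
      Finset.card_le_card Finset.inter_subset_left
    have h4 : ((hfin (pt n h)).toFinset ∩ (hfin (pt n h')).toFinset).card ≤ a h' :=
      Finset.card_le_card Finset.inter_subset_right
    have h2' : (((hfin (pt n h)).toFinset \ (hfin (pt n h')).toFinset).card : ℝ) ≤
        ((symmDiff (hfin (pt n h)).toFinset (hfin (pt n h')).toFinset).card : ℝ) := by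
      exact_mod_cast h2
    have h3' : (((hfin (pt n h)).toFinset ∩ (hfin (pt n h')).toFinset).card : ℝ) ≤ a h := by
      exact_mod_cast h3
    have h4' : (((hfin (pt n h)).toFinset ∩ (hfin (pt n h')).toFinset).card : ℝ) ≤ a h' := by
      exact_mod_cast h4
    constructor <;> linarith
  -- translation by a generator
  have key : ∀ (h h' : H n) (i : Bool), h'.1 = h.1 * (rho n (of i))⁻¹ → ∀ E : Set F,
      (q h {v | of i * v ∈ E} : ℝ) ≤ q h' E + 1 / 8 * a h := by
    intro h h' i hh' E
    have hlen : dist (pt n h) (pt n h') < 2 := by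
      rw [dist_def]
      have : dN (pt n h) (pt n h') ≤ 1 := by
        rw [dN_of_eq (x := pt n h) (y := pt n h') rfl]
        show len n (h.1⁻¹ * h'.1) ≤ 1
        rw [hh']
        have e : h.1⁻¹ * (h.1 * (rho n (of i))⁻¹) = rho n (of i)⁻¹ := by
          rw [inv_mul_cancel_left, map_inv]
        rw [e]
        refine (len_le rfl).trans ?_
        rw [FreeGroup.norm_inv_eq, FreeGroup.norm_of]
      have : (dN (pt n h) (pt n h') : ℝ) ≤ 1 := by exact_mod_cast this
      linarith
    have h1 := (hdiff h h' hlen).1
    have h2 : q h {v | of i * v ∈ E} ≤ q h' E +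
        ((hfin (pt n h)).toFinset \ (hfin (pt n h')).toFinset).card := by
      rw [hq]
      simp only
      rw [← Finset.card_union_add_card_inter]
      refine le_trans ?_ (Nat.le_add_right _ _)
      apply Finset.card_le_card
      intro w hw
      rw [Finset.mem_filter] at hw
      rw [Finset.mem_union, Finset.mem_filter, Finset.mem_sdiff]
      by_cases hw' : w ∈ (hfin (pt n h')).toFinset
      · left
        refine ⟨hw', ?_⟩
        have hw1 : w ∈ A (pt n h) := by simpa using hw.1
        have hw2 : w ∈ A (pt n h') := by simpa using hw'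
        obtain ⟨-, g1, g2⟩ := hcomp h w hw1
        obtain ⟨-, g3, g4⟩ := hcomp h' w hw2
        have e : h'.1⁻¹ * w.1.1.2 = rho n (of i) * (h.1⁻¹ * w.1.1.2) := by
          rw [hh']; group
        rw [e, lift_mul g1]
        · exact hw.2
        · rw [FreeGroup.norm_of]; omega
        · rw [← e]; omega
      · right
        exact ⟨hw.1, hw'⟩
    have h2' : (q h {v | of i * v ∈ E} : ℝ) ≤ q h' E +
        (((hfin (pt n h)).toFinset \ (hfin (pt n h')).toFinset).card : ℝ) := by
      exact_mod_cast h2
    linarith
  -- comparison of sizes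
  have size : ∀ (h h' : H n) (i : Bool), h'.1 = h.1 * (rho n (of i))⁻¹ → (a h' : ℝ) ≤ 9 / 8 * a h := by
    intro h h' i hh'
    have hlen : dist (pt n h') (pt n h) < 2 := by
      rw [dist_comm, dist_def]
      have : dN (pt n h) (pt n h') ≤ 1 := by
        rw [dN_of_eq (x := pt n h) (y := pt n h') rfl]
        show len n (h.1⁻¹ * h'.1) ≤ 1
        rw [hh']
        have e : h.1⁻¹ * (h.1 * (rho n (of i))⁻¹) = rho n (of i)⁻¹ := by
          rw [inv_mul_cancel_left, map_inv]
        rw [e]
        refine (len_le rfl).trans ?_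
        rw [FreeGroup.norm_inv_eq, FreeGroup.norm_of]
      have : (dN (pt n h) (pt n h') : ℝ) ≤ 1 := by exact_mod_cast this
      linarith
    have h1 := (hdiff h' h hlen).2
    have h2 : a h' ≤ a h + ((hfin (pt n h')).toFinset \ (hfin (pt n h)).toFinset).card := by
      rw [ha]
      simp only
      rw [← Finset.card_union_add_card_inter]
      refine le_trans ?_ (Nat.le_add_right _ _)
      apply Finset.card_le_card
      intro w hw
      rw [Finset.mem_union, Finset.mem_sdiff]
      by_cases hw' : w ∈ (hfin (pt n h)).toFinset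
      · exact Or.inl hw'
      · exact Or.inr ⟨hw, hw'⟩
    have h2' : (a h' : ℝ) ≤ a h +
        (((hfin (pt n h')).toFinset \ (hfin (pt n h)).toFinset).card : ℝ) := by
      exact_mod_cast h2
    linarith
  -- the proportions
  set p : H n → Set F → ℝ := fun h E => q h E / a h with hp
  have hpos : ∀ h, (0 : ℝ) < a h := fun h => by
    have := ha1 h
    exact_mod_cast this
  have key2 : ∀ (h h' : H n) (i : Bool), h'.1 = h.1 * (rho n (of i))⁻¹ → ∀ E : Set F,
      p h {v | of i * v ∈ E} ≤ 9 / 8 * p h' E + 1 / 8 := by
    intro h h' i hh' E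
    have h1 := key h h' i hh' E
    have h2 := size h h' i hh'
    rw [hp]
    simp only
    rw [div_le_iff₀ (hpos h)]
    have h3 : (q h' E : ℝ) ≤ 9 / 8 * (q h' E / a h') * a h := by
      have h4 : (0 : ℝ) ≤ q h' E / a h' := by positivity
      have h5 : (q h' E : ℝ) = q h' E / a h' * a h' := by
        rw [div_mul_cancel₀ _ (hpos h').ne']
      calc (q h' E : ℝ) = q h' E / a h' * a h' := h5
        _ ≤ q h' E / a h' * (9 / 8 * a h) := mul_le_mul_of_nonneg_left h2 h4
        _ = _ := by ring
    nlinarith
  -- the cover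
  have hcov : ∀ (h : H n) (i : Bool), 1 ≤ p h (W (i, false)) + p h {v | of i * v ∈ W (i, true)} := by
    intro h i
    rw [hp]
    simp only
    rw [← add_div, le_div_iff₀ (hpos h), one_mul]
    have : a h ≤ q h (W (i, false)) + q h {v | of i * v ∈ W (i, true)} := by
      rw [hq, ha]
      simp only
      rw [← Finset.card_union_add_card_inter]
      refine le_trans ?_ (Nat.le_add_right _ _)
      apply Finset.card_le_card
      intro w hw
      rw [Finset.mem_union, Finset.mem_filter, Finset.mem_filter]
      rcases cover i (lift n (h.1⁻¹ * w.1.1.2)) with h1 | h1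
      · exact Or.inl ⟨hw, h1⟩
      · exact Or.inr ⟨hw, h1⟩
    exact_mod_cast this
  -- the packing
  have hpack : ∀ h : H n, p h (W (true, true)) + p h (W (true, false)) + p h (W (false, true)) +
      p h (W (false, false)) ≤ 1 := by
    intro h
    rw [hp]
    simp only
    rw [← add_div, ← add_div, ← add_div, div_le_one (hpos h)]
    have : q h (W (true, true)) + q h (W (true, false)) + q h (W (false, true)) +
        q h (W (false, false)) ≤ a h := by
      rw [hq, ha]
      simp only
      have hdis : ∀ b c : Bool × Bool, b ≠ c → Disjoint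
          ({w ∈ (hfin (pt n h)).toFinset | lift n (h.1⁻¹ * w.1.1.2) ∈ W b})
          ({w ∈ (hfin (pt n h)).toFinset | lift n (h.1⁻¹ * w.1.1.2) ∈ W c}) := by
        intro b c hbc
        rw [Finset.disjoint_left]
        intro w hw1 hw2
        rw [Finset.mem_filter] at hw1 hw2
        have h1 : (lift n (h.1⁻¹ * w.1.1.2)).toWord.head? = some b := hw1.2
        have h2 : (lift n (h.1⁻¹ * w.1.1.2)).toWord.head? = some c := hw2.2
        rw [h1] at h2
        exact hbc (Option.some.inj h2)
      rw [← Finset.card_union_of_disjoint, ← Finset.card_union_of_disjoint,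
        ← Finset.card_union_of_disjoint]
      · apply Finset.card_le_card
        intro w hw
        simp only [Finset.mem_union, Finset.mem_filter] at hw
        tauto
      · rw [Finset.disjoint_union_left, Finset.disjoint_union_left]
        exact ⟨⟨hdis _ _ (by decide), hdis _ _ (by decide)⟩, hdis _ _ (by decide)⟩
      · rw [Finset.disjoint_union_left]
        exact ⟨hdis _ _ (by decide), hdis _ _ (by decide)⟩
      · exact hdis _ _ (by decide)
    exact_mod_cast this
  -- summation
  have hsum : ∀ i : Bool, (Fintype.card (H n) : ℝ) ≤ ∑ h : H n, p h (W (i, false)) +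
      9 / 8 * ∑ h : H n, p h (W (i, true)) + 1 / 8 * Fintype.card (H n) := by
    intro i
    let s : H n := ⟨rho n (of i), ⟨of i, rfl⟩⟩
    have h1 : ∀ h : H n, 1 ≤ p h (W (i, false)) + (9 / 8 * p (h * s⁻¹) (W (i, true)) + 1 / 8) := by
      intro h
      have h2 := hcov h i
      have h3 := key2 h (h * s⁻¹) i (by rfl) (W (i, true))
      linarith
    have h2 : ∑ h : H n, (1 : ℝ) ≤
        ∑ h : H n, (p h (W (i, false)) + (9 / 8 * p (h * s⁻¹) (W (i, true)) + 1 / 8)) :=
      Finset.sum_le_sum fun h _ => h1 h
    have h3 : ∑ h : H n, p (h * s⁻¹) (W (i, true)) = ∑ h : H n, p h (W (i, true)) :=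
      Fintype.sum_equiv (Equiv.mulRight s⁻¹) _ _ fun h => rfl
    rw [Finset.sum_add_distrib, Finset.sum_add_distrib, ← Finset.mul_sum, h3] at h2
    simp only [Finset.sum_const, Finset.card_univ, nsmul_eq_mul, mul_one] at h2
    linarith
  have hpk : ∑ h : H n, p h (W (true, true)) + ∑ h : H n, p h (W (true, false)) +
      ∑ h : H n, p h (W (false, true)) + ∑ h : H n, p h (W (false, false)) ≤ Fintype.card (H n) := by
    rw [← Finset.sum_add_distrib, ← Finset.sum_add_distrib, ← Finset.sum_add_distrib]
    calc _ ≤ ∑ h : H n, (1 : ℝ) := Finset.sum_le_sum fun h _ => hpack h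
      _ = _ := by simp
  have h1 := hsum true
  have h2 := hsum false
  have hcard : (0 : ℝ) < Fintype.card (H n) := by
    have : 0 < Fintype.card (H n) := Fintype.card_pos
    exact_mod_cast this
  have hnn : ∀ b, 0 ≤ ∑ h : H n, p h (W b) := fun b =>
    Finset.sum_nonneg fun h _ => by
      rw [hp]
      simp only
      positivity
  have g1 := hnn (true, false)
  have g2 := hnn (false, false)
  linarith

end Pool.Agent.T6.H58.Box
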