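import Mathlib

/-!
`L^p` of a finite sum of weighted Dirac measures: norms, evaluations and operators given by matrices.
-/

set_option autoImplicit false

open MeasureTheory Finset
open scoped ENNReal

namespace Pool.Agent.T6.H58.LpOp

variable {X : Type*} [MetricSpace X] [MeasurableSpace X] [BorelSpace X] (F : Finset X)
  (w : F → ℝ)

/-- the weighted sum of Dirac measures -/
noncomputable def nu : Measure X := ∑ x : F, ENNReal.ofReal (w x) • Measure.dirac x.1

instance : IsFiniteMeasure (nu F w) := by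
  constructor
  unfold nu
  rw [Measure.finsetSum_apply]
  refine ENNReal.sum_lt_top.2 fun x _ => ?_
  rw [Measure.smul_apply, smul_eq_mul]
  exact ENNReal.mul_lt_top ENNReal.ofReal_lt_top (measure_lt_top _ _)

variable {F w}

theorem ae_nu (hw : ∀ x, 0 < w x) {P : X → Prop} : (∀ᵐ z ∂nu F w, P z) ↔ ∀ x : F, P x.1 := by
  classical
  rw [ae_iff]
  unfold nu
  rw [Measure.finsetSum_apply, Finset.sum_eq_zero_iff]
  constructor
  · intro h x
    have h1 := h x (Finset.mem_univ x)
    rw [Measure.smul_apply, smul_eq_mul, mul_eq_zero, ENNReal.ofReal_eq_zero,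
      Measure.dirac_apply] at h1
    rcases h1 with h1 | h1
    · exact absurd h1 (not_le.2 (hw x))
    · by_contra h2
      rw [Set.indicator_of_mem (show x.1 ∈ {a | ¬ P a} from h2)] at h1
      simp at h1
  · intro h x _
    rw [Measure.smul_apply, smul_eq_mul, Measure.dirac_apply,
      Set.indicator_of_notMem (show x.1 ∉ {a | ¬ P a} from fun h2 => h2 (h x)), mul_zero]

theorem nu_ne_zero (hw : ∀ x, 0 < w x) (hF : F.Nonempty) : nu F w ≠ 0 := by
  intro h
  obtain ⟨x, hx⟩ := hF
  have h1 : ∀ᵐ z ∂nu F w, False := by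
    rw [h]
    simp
  exact (ae_nu hw).1 h1 ⟨x, hx⟩

variable {E : Type*} [NormedAddCommGroup E] [NormedSpace ℝ E] {p : ℝ≥0∞} [Fact (1 ≤ p)]

theorem norm_nu (hw : ∀ x, 0 < w x) (hp : p ≠ ⊤) (g : Lp E p (nu F w)) :
    ‖g‖ ^ p.toReal = ∑ x : F, w x * ‖g x.1‖ ^ p.toReal := by
  have hp1 : 1 ≤ p := Fact.out
  have hp0 : p ≠ 0 := (lt_of_lt_of_le one_pos hp1).ne'
  have hpr : 0 < p.toReal := ENNReal.toReal_pos hp0 hp
  rw [Lp.norm_def, eLpNorm_eq_lintegral_rpow_enorm_toReal hp0 hp]
  rw [ENNReal.toReal_rpow, ← ENNReal.rpow_mul, one_div, inv_mul_cancel₀ hpr.ne', ENNReal.rpow_one]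
  have h1 : ∫⁻ x, ‖g x‖ₑ ^ p.toReal ∂nu F w =
      ∑ x : F, ENNReal.ofReal (w x) * ‖g x.1‖ₑ ^ p.toReal := by
    conv_lhs => unfold nu
    rw [lintegral_finsetSum_measure]
    refine Finset.sum_congr rfl fun x _ => ?_
    rw [lintegral_smul_measure, lintegral_dirac, smul_eq_mul]
    rfl
  rw [h1, ENNReal.toReal_sum]
  · refine Finset.sum_congr rfl fun x _ => ?_
    rw [ENNReal.toReal_mul, ENNReal.toReal_ofReal (hw x).le, ← ENNReal.toReal_rpow, toReal_enorm]
  · intro x _
    exact (ENNReal.mul_lt_top ENNReal.ofReal_lt_top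
      (ENNReal.rpow_lt_top_of_nonneg hpr.le enorm_lt_top.ne)).ne

/-- evaluation at an atom -/
noncomputable def ev (hw : ∀ x, 0 < w x) (hp : p ≠ ⊤) (x : F) : Lp E p (nu F w) →L[ℝ] E :=
  LinearMap.mkContinuous
    { toFun := fun g => g x.1
      map_add' := fun f g => (ae_nu hw).1 (Lp.coeFn_add f g) x
      map_smul' := fun c g => (ae_nu hw).1 (Lp.coeFn_smul c g) x }
    ((w x)⁻¹ ^ (1 / p.toReal)) (by
      intro g
      have hp1 : 1 ≤ p := Fact.out
      have hp0 : p ≠ 0 := (lt_of_lt_of_le one_pos hp1).ne'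
      have hpr : 0 < p.toReal := ENNReal.toReal_pos hp0 hp
      show ‖g x.1‖ ≤ _
      have h1 : w x * ‖g x.1‖ ^ p.toReal ≤ ‖g‖ ^ p.toReal := by
        rw [norm_nu hw hp]
        exact Finset.single_le_sum (f := fun x : F => w x * ‖g x.1‖ ^ p.toReal)
          (fun y _ => mul_nonneg (hw y).le (Real.rpow_nonneg (norm_nonneg _) _))
          (Finset.mem_univ x)
      have h2 : ‖g x.1‖ ^ p.toReal ≤ (w x)⁻¹ * ‖g‖ ^ p.toReal := by
        rw [inv_mul_eq_div, le_div_iff₀ (hw x)]
        linarith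
      have h3 : ((w x)⁻¹ ^ (1 / p.toReal) * ‖g‖) ^ p.toReal = (w x)⁻¹ * ‖g‖ ^ p.toReal := by
        rw [Real.mul_rpow (Real.rpow_nonneg (inv_nonneg.2 (hw x).le) _) (norm_nonneg _),
          ← Real.rpow_mul (inv_nonneg.2 (hw x).le), one_div, inv_mul_cancel₀ hpr.ne',
          Real.rpow_one]
      rw [← h3] at h2
      exact (Real.rpow_le_rpow_iff (norm_nonneg _)
        (mul_nonneg (Real.rpow_nonneg (inv_nonneg.2 (hw x).le) _) (norm_nonneg _)) hpr).1 h2)

theorem ev_apply (hw : ∀ x, 0 < w x) (hp : p ≠ ⊤) (x : F) (g : Lp E p (nu F w)) :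
    ev hw hp x g = g x.1 := rfl

/-- the inclusion of an atom -/
noncomputable def inc (x : F) : E →L[ℝ] Lp E p (nu F w) :=
  LinearMap.mkContinuous
    { toFun := fun c => indicatorConstLp p (measurableSet_singleton x.1)
        (measure_ne_top (nu F w) _) c
      map_add' := fun c d => indicatorConstLp_add.symm
      map_smul' := fun a c => by
        simp only [RingHom.id_apply]
        unfold indicatorConstLp
        rw [← MemLp.toLp_const_smul]
        congr 1
        funext z
        exact Set.indicator_const_smul_apply _ a (fun _ => c) z }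
    ((nu F w).real {x.1} ^ (1 / p.toReal)) (by
      intro c
      rw [mul_comm]
      show ‖indicatorConstLp p (measurableSet_singleton x.1) (measure_ne_top (nu F w) _) c‖ ≤ _
      exact norm_indicatorConstLp_le)

theorem ev_inc (hw : ∀ x, 0 < w x) (hp : p ≠ ⊤) (z x : F) [Decidable (z = x)] (c : E) :
    ev hw hp z (inc (p := p) x c) = if z = x then c else 0 := by
  rw [ev_apply]
  have h1 := (ae_nu hw).1 (indicatorConstLp_coeFn (p := p) (μ := nu F w)
    (hs := measurableSet_singleton x.1) (hμs := measure_ne_top (nu F w) _) (c := c)) z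
  have h2 : (inc (p := p) x c : Lp E p (nu F w)) = indicatorConstLp p
    (measurableSet_singleton x.1) (measure_ne_top (nu F w) _) c := rfl
  rw [h2, h1]
  split_ifs with h
  · rw [h, Set.indicator_of_mem (Set.mem_singleton _)]
  · rw [Set.indicator_of_notMem]
    intro h3
    exact h (Subtype.ext h3)

/-- the operator of a matrix -/
noncomputable def op (hw : ∀ x, 0 < w x) (hp : p ≠ ⊤) (a : F → F → ℝ) :
    Lp E p (nu F w) →L[ℝ] Lp E p (nu F w) :=
  ∑ x : F, ∑ y : F, a x y • (inc x).comp (ev hw hp y)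

theorem ev_op (hw : ∀ x, 0 < w x) (hp : p ≠ ⊤) (a : F → F → ℝ) (g : Lp E p (nu F w)) (z : F) :
    (op hw hp a g) z.1 = ∑ y : F, a z y • g y.1 := by
  classical
  rw [← ev_apply hw hp z]
  unfold op
  simp only [_root_.sum_apply, _root_.smul_apply,
    ContinuousLinearMap.comp_apply, map_sum, map_smul, ev_inc]
  rw [Finset.sum_eq_single z]
  · refine Finset.sum_congr rfl fun y _ => ?_
    rw [if_pos rfl, ev_apply]
  · intro x _ hx
    refine Finset.sum_eq_zero fun y _ => ?_
    rw [if_neg (fun h => hx h.symm), smul_zero]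
  · intro h
    exact absurd (Finset.mem_univ z) h

/-- the constant function -/
noncomputable def cst (e : E) : Lp E p (nu F w) := ∑ x : F, inc x e

theorem ev_cst (hw : ∀ x, 0 < w x) (hp : p ≠ ⊤) (e : E) (z : F) :
    (cst e : Lp E p (nu F w)) z.1 = e := by
  classical
  rw [← ev_apply hw hp z]
  unfold cst
  simp only [map_sum, ev_inc]
  rw [Finset.sum_eq_single z]
  · rw [if_pos rfl]
  · intro x _ hx
    rw [if_neg (fun h => hx h.symm)]
  · intro h
    exact absurd (Finset.mem_univ z) h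

end Pool.Agent.T6.H58.LpOp
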