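import Mathlib

/-!
A weak form of the Farkas lemma.
-/

set_option autoImplicit false

open Finset Topology

namespace Pool.Agent.T6.H58.Fark

/-- If the system `b ≤ a l`, `l ≥ 0` has no solution then there is a nonzero `y ≥ 0` with
`yᵀ a ≤ 0` and `yᵀ b ≥ 0`. -/
theorem farkas {I J : Type*} [Fintype I] [Fintype J] (a : J → I → ℝ) (b : J → ℝ)
    (h : ¬ ∃ l : I → ℝ, (∀ i, 0 ≤ l i) ∧ ∀ j, b j ≤ ∑ i, a j i * l i) :
    ∃ y : J → ℝ, (∀ j, 0 ≤ y j) ∧ y ≠ 0 ∧ (∀ i, ∑ j, y j * a j i ≤ 0) ∧ 0 ≤ ∑ j, y j * b j := by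
  classical
  set K : Set (J → ℝ) := {v | ∃ l : I → ℝ, (∀ i, 0 ≤ l i) ∧ ∀ j, v j ≤ ∑ i, a j i * l i} with hK
  set K' : Set (J → ℝ) := {v | ∃ l : I → ℝ, (∀ i, 0 ≤ l i) ∧ ∀ j, v j < ∑ i, a j i * l i} with hK'
  have hconv : Convex ℝ K' := by
    rintro v ⟨l, hl, hv⟩ v' ⟨l', hl', hv'⟩ s t hs ht hst
    refine ⟨fun i => s * l i + t * l' i, fun i => add_nonneg (mul_nonneg hs (hl i)) (mul_nonneg ht (hl' i)), ?_⟩
    intro j
    have e : ∑ i, a j i * (s * l i + t * l' i) = s * ∑ i, a j i * l i + t * ∑ i, a j i * l' i := by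
      rw [Finset.mul_sum, Finset.mul_sum, ← Finset.sum_add_distrib]
      exact Finset.sum_congr rfl fun i _ => by ring
    rw [e]
    simp only [Pi.add_apply, Pi.smul_apply, smul_eq_mul]
    rcases eq_or_lt_of_le hs with h0 | h0
    · have ht1 : t = 1 := by linarith
      subst ht1
      rw [← h0]
      have := hv' j
      linarith
    · have h1 := mul_lt_mul_of_pos_left (hv j) h0
      have h2 := mul_le_mul_of_nonneg_left (hv' j).le ht
      linarith
  have hopen : IsOpen K' := by
    have : K' = ⋃ l ∈ {l : I → ℝ | ∀ i, 0 ≤ l i}, {v | ∀ j, v j < ∑ i, a j i * l i} := by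
      ext v
      simp [hK']
    rw [this]
    refine isOpen_biUnion fun l _ => ?_
    have e : {v : J → ℝ | ∀ j, v j < ∑ i, a j i * l i} = ⋂ j, {v | v j < ∑ i, a j i * l i} := by
      ext v; simp
    rw [e]
    exact isOpen_iInter_of_finite fun j => isOpen_lt (continuous_apply j) continuous_const
  have hb : b ∉ K' := by
    rintro ⟨l, hl, hv⟩
    exact h ⟨l, hl, fun j => (hv j).le⟩
  obtain ⟨f, hf⟩ := geometric_hahn_banach_open_point hconv hopen hb
  have hfK : ∀ v ∈ K, f v ≤ f b := by
    rintro v ⟨l, hl, hv⟩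
    have h1 : ∀ t : ℝ, 0 < t → f v - t * f (fun _ => 1) ≤ f b := by
      intro t ht
      have hmem : v - t • (fun _ : J => (1 : ℝ)) ∈ K' := by
        refine ⟨l, hl, fun j => ?_⟩
        simp only [Pi.sub_apply, Pi.smul_apply, smul_eq_mul, mul_one]
        have := hv j
        linarith
      have := hf _ hmem
      rw [map_sub, map_smul, smul_eq_mul] at this
      exact this.le
    refine le_of_forall_pos_le_add fun e he => ?_
    by_cases h0 : f (fun _ => 1) ≤ 0
    · have := h1 1 one_pos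
      linarith
    · push Not at h0
      have := h1 (e / f (fun _ => 1)) (by positivity)
      rw [div_mul_cancel₀ _ h0.ne'] at this
      linarith
  have hscale : ∀ v ∈ K, ∀ t : ℝ, 0 ≤ t → t • v ∈ K := by
    rintro v ⟨l, hl, hv⟩ t ht
    refine ⟨t • l, fun i => mul_nonneg ht (hl i), fun j => ?_⟩
    simp only [Pi.smul_apply, smul_eq_mul]
    have e : ∑ i, a j i * (t * l i) = t * ∑ i, a j i * l i := by
      rw [Finset.mul_sum]
      exact Finset.sum_congr rfl fun i _ => by ring
    rw [e]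
    exact mul_le_mul_of_nonneg_left (hv j) ht
  have hf0 : ∀ v ∈ K, f v ≤ 0 := by
    intro v hv
    by_contra hcon
    push Not at hcon
    have h1 := hfK _ (hscale v hv ((|f b| + 1) / f v) (by positivity))
    rw [map_smul, smul_eq_mul, div_mul_cancel₀ _ hcon.ne'] at h1
    have := le_abs_self (f b)
    linarith
  have hform : ∀ v : J → ℝ, f v = ∑ j, f (Pi.single j 1) * v j := by
    intro v
    have h1 : v = ∑ j, v j • (Pi.single j 1 : J → ℝ) := by
      ext k
      simp [Finset.sum_apply, Pi.single_apply]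
    conv_lhs => rw [h1]
    rw [map_sum]
    exact Finset.sum_congr rfl fun j _ => by rw [map_smul, smul_eq_mul, mul_comm]
  refine ⟨fun j => f (Pi.single j 1), ?_, ?_, ?_, ?_⟩
  · intro j
    have h1 : (-(Pi.single j 1 : J → ℝ)) ∈ K := by
      refine ⟨0, fun i => le_rfl, fun k => ?_⟩
      simp only [Pi.neg_apply, Pi.zero_apply, mul_zero, Finset.sum_const_zero, Pi.single_apply]
      split_ifs <;> norm_num
    have := hf0 _ h1
    rw [map_neg] at this
    linarith
  · intro h0
    have hz : ∀ v, f v = 0 := by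
      intro v
      rw [hform]
      refine Finset.sum_eq_zero fun j _ => ?_
      have := congrFun h0 j
      simp only [Pi.zero_apply] at this
      rw [this, zero_mul]
    have hmem : (fun _ : J => (-1 : ℝ)) ∈ K' := ⟨0, fun i => le_rfl, fun j => by simp⟩
    have := hf _ hmem
    rw [hz, hz] at this
    exact lt_irrefl _ this
  · intro i
    have h1 : (fun j => a j i) ∈ K := by
      refine ⟨Pi.single i 1, fun k => ?_, fun j => ?_⟩
      · rw [Pi.single_apply]; split_ifs <;> norm_num
      · simp [Pi.single_apply]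
    have := hf0 _ h1
    rwa [hform] at this
  · rw [← hform]
    have h1 : (0 : J → ℝ) ∈ K := ⟨0, fun i => le_rfl, fun j => by simp⟩
    have := hfK _ h1
    rwa [map_zero] at this

end Pool.Agent.T6.H58.Fark
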