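import Mathlib
import Pool.Agent.T6.H58.Farkas

/-!
Isoperimetric data from the infeasibility of a covering problem.
-/

set_option autoImplicit false

open Finset

namespace Pool.Agent.T6.H58.PA

variable {X : Type*} [MetricSpace X]

open Classical in
/-- indicator -/
noncomputable def ind (E : Finset X) (x : X) : ℝ := if x ∈ E then 1 else 0

open Classical in
/-- the subsets of `F` of diameter at most `S` -/
noncomputable def Sm (F : Finset X) (S : ℝ) : Finset (Finset X) :=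
  F.powerset.filter (fun E => ∀ a ∈ E, ∀ b ∈ E, dist a b ≤ S)

theorem mem_Sm {F E : Finset X} {S : ℝ} : E ∈ Sm F S ↔ E ⊆ F ∧ ∀ a ∈ E, ∀ b ∈ E, dist a b ≤ S := by
  unfold Sm
  rw [Finset.mem_filter, Finset.mem_powerset]

/-- feasibility of the covering problem -/
def Feas (F : Finset X) (S R δ : ℝ) : Prop :=
  ∃ l : Finset X → ℝ, (∀ E, 0 ≤ l E) ∧ (∀ x ∈ F, 1 ≤ ∑ E ∈ Sm F S, ind E x * l E) ∧
    ∀ x ∈ F, ∀ y ∈ F, dist x y < R → ∑ E ∈ Sm F S, |ind E x - ind E y| * l E ≤ δ

theorem iso_of_not_feas {F : Finset X} {S R δ : ℝ} (hδ : 0 < δ) (h : ¬ Feas F S R δ) :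
    ∃ (μ : X → ℝ) (s : X → X → ℝ), (∀ x, 0 ≤ μ x) ∧ (∀ x y, 0 ≤ s x y) ∧
      (∀ x y, s x y = s y x) ∧ (∀ x y, s x y ≠ 0 → dist x y < R) ∧ 0 < ∑ x ∈ F, μ x ∧
      δ / 2 * ∑ x ∈ F, ∑ y ∈ F, s x y ≤ ∑ x ∈ F, μ x ∧
      ∀ E ∈ Sm F S, ∑ x ∈ E, μ x ≤ 1 / 2 * ∑ x ∈ F, ∑ y ∈ F, s x y * |ind E x - ind E y| := by
  classical
  set Pr : Finset (X × X) := (F ×ˢ F).filter (fun p => dist p.1 p.2 < R) with hPr
  set a : (F ⊕ Pr) → (Sm F S) → ℝ := fun j E => match j with
    | Sum.inl x => ind E.1 x.1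
    | Sum.inr p => -|ind E.1 p.1.1 - ind E.1 p.1.2| with ha
  set b : (F ⊕ Pr) → ℝ := fun j => match j with
    | Sum.inl _ => 1
    | Sum.inr _ => -δ with hb
  have hno : ¬ ∃ l : (Sm F S) → ℝ, (∀ i, 0 ≤ l i) ∧ ∀ j, b j ≤ ∑ i, a j i * l i := by
    rintro ⟨l, hl, hj⟩
    apply h
    set l' : Finset X → ℝ := fun E => if hE : E ∈ Sm F S then l ⟨E, hE⟩ else 0 with hl'
    have hsum : ∀ g : Finset X → ℝ, ∑ E ∈ Sm F S, g E * l' E = ∑ E : Sm F S, g E.1 * l E := by
      intro g
      rw [← Finset.sum_coe_sort (Sm F S) (fun E => g E * l' E)]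
      refine Finset.sum_congr rfl fun E _ => ?_
      rw [hl']
      simp only [E.2, dif_pos]
    refine ⟨l', fun E => ?_, fun x hx => ?_, fun x hx y hy hxy => ?_⟩
    · rw [hl']
      simp only
      split_ifs with hE
      · exact hl _
      · exact le_rfl
    · rw [hsum]
      exact hj (Sum.inl ⟨x, hx⟩)
    · rw [hsum (fun E => |ind E x - ind E y|)]
      have hmem : (x, y) ∈ Pr := by
        rw [hPr, Finset.mem_filter, Finset.mem_product]
        exact ⟨⟨hx, hy⟩, hxy⟩
      have h1 := hj (Sum.inr ⟨(x, y), hmem⟩)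
      simp only [hb, ha, neg_mul, Finset.sum_neg_distrib] at h1
      linarith
  obtain ⟨y, hy0, hyne, hy1, hy2⟩ := Pool.Agent.T6.H58.Fark.farkas a b hno
  set μ : X → ℝ := fun x => if hx : x ∈ F then y (Sum.inl ⟨x, hx⟩) else 0 with hμ
  set m : X → X → ℝ := fun x z => if hp : (x, z) ∈ Pr then y (Sum.inr ⟨(x, z), hp⟩) else 0 with hm
  have hμ0 : ∀ x, 0 ≤ μ x := by
    intro x
    rw [hμ]
    simp only
    split_ifs
    · exact hy0 _
    · exact le_rfl
  have hm0 : ∀ x z, 0 ≤ m x z := by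
    intro x z
    rw [hm]
    simp only
    split_ifs
    · exact hy0 _
    · exact le_rfl
  have hmR : ∀ x z, m x z ≠ 0 → dist x z < R := by
    intro x z hxz
    rw [hm] at hxz
    simp only at hxz
    split_ifs at hxz with hp
    · rw [hPr, Finset.mem_filter] at hp
      exact hp.2
    · exact absurd rfl hxz
  have hsumF : ∀ g : X → ℝ, ∑ x : F, y (Sum.inl x) * g x.1 = ∑ x ∈ F, μ x * g x := by
    intro g
    rw [← Finset.sum_coe_sort F (fun x => μ x * g x)]
    refine Finset.sum_congr rfl fun x _ => ?_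
    rw [hμ]
    simp only [x.2, dif_pos]
  have hsumP : ∀ g : X → X → ℝ, ∑ p : Pr, y (Sum.inr p) * g p.1.1 p.1.2 =
      ∑ x ∈ F, ∑ z ∈ F, m x z * g x z := by
    intro g
    rw [← Finset.sum_product' F F (fun x z => m x z * g x z)]
    have h1 : ∑ p ∈ F ×ˢ F, m p.1 p.2 * g p.1 p.2 = ∑ p ∈ Pr, m p.1 p.2 * g p.1 p.2 := by
      symm
      apply Finset.sum_subset (Finset.filter_subset _ _)
      intro p _ hp
      have : m p.1 p.2 = 0 := by
        rw [hm]
        simp only
        rw [dif_neg hp]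
      rw [this, zero_mul]
    rw [h1, ← Finset.sum_coe_sort Pr (fun p => m p.1 p.2 * g p.1 p.2)]
    refine Finset.sum_congr rfl fun p _ => ?_
    rw [hm]
    simp only [p.2, dif_pos]
  have hE : ∀ E ∈ Sm F S, ∑ x ∈ E, μ x ≤ ∑ x ∈ F, ∑ z ∈ F, m x z * |ind E x - ind E z| := by
    intro E hE
    have h1 := hy1 ⟨E, hE⟩
    rw [Fintype.sum_sum_type] at h1
    simp only [ha] at h1
    rw [hsumF (fun x => ind E x)] at h1
    have h2 : ∑ x : Pr, y (Sum.inr x) * -|ind E x.1.1 - ind E x.1.2| =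
        -∑ x ∈ F, ∑ z ∈ F, m x z * |ind E x - ind E z| := by
      rw [← hsumP (fun x z => |ind E x - ind E z|), ← Finset.sum_neg_distrib]
      exact Finset.sum_congr rfl fun p _ => by ring
    rw [h2] at h1
    have h3 : ∑ x ∈ F, μ x * ind E x = ∑ x ∈ E, μ x := by
      simp only [ind, mul_ite, mul_one, mul_zero]
      rw [← Finset.sum_filter]
      apply Finset.sum_congr _ fun _ _ => rfl
      ext x
      rw [Finset.mem_filter]
      exact ⟨fun h => h.2, fun h => ⟨(mem_Sm.1 hE).1 h, h⟩⟩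
    rw [h3] at h1
    linarith
  have htot : δ * ∑ x ∈ F, ∑ z ∈ F, m x z ≤ ∑ x ∈ F, μ x := by
    rw [Fintype.sum_sum_type] at hy2
    simp only [hb] at hy2
    have h1 := hsumF (fun _ => 1)
    have h2 := hsumP (fun _ _ => -δ)
    simp only [mul_one] at h1
    simp only [mul_one] at hy2
    rw [h1, h2] at hy2
    have h3 : ∑ x ∈ F, ∑ z ∈ F, m x z * -δ = -(δ * ∑ x ∈ F, ∑ z ∈ F, m x z) := by
      rw [Finset.mul_sum, ← Finset.sum_neg_distrib]
      refine Finset.sum_congr rfl fun x _ => ?_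
      rw [Finset.mul_sum, ← Finset.sum_neg_distrib]
      exact Finset.sum_congr rfl fun z _ => by ring
    rw [h3] at hy2
    linarith
  have hpos : 0 < ∑ x ∈ F, μ x := by
    by_contra hcon
    push Not at hcon
    apply hyne
    have h0 : ∑ x ∈ F, μ x = 0 := le_antisymm hcon (Finset.sum_nonneg fun x _ => hμ0 x)
    have h1 : ∑ x ∈ F, ∑ z ∈ F, m x z ≤ 0 := by
      rw [h0] at htot
      by_contra h2
      push Not at h2
      have := mul_pos hδ h2
      linarith
    have h2 : ∀ x ∈ F, ∑ z ∈ F, m x z = 0 := by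
      intro x hx
      have h3 : ∑ x ∈ F, ∑ z ∈ F, m x z = 0 :=
        le_antisymm h1 (Finset.sum_nonneg fun x _ => Finset.sum_nonneg fun z _ => hm0 x z)
      exact (Finset.sum_eq_zero_iff_of_nonneg
        (fun x _ => Finset.sum_nonneg fun z _ => hm0 x z)).1 h3 x hx
    funext j
    rcases j with x | p
    · have h3 := (Finset.sum_eq_zero_iff_of_nonneg (fun x _ => hμ0 x)).1 h0 x.1 x.2
      rw [hμ] at h3
      simp only [x.2, dif_pos] at h3
      exact h3
    · have hp : p.1 ∈ (F ×ˢ F).filter (fun p => dist p.1 p.2 < R) := p.2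
      rw [Finset.mem_filter, Finset.mem_product] at hp
      have h3 := (Finset.sum_eq_zero_iff_of_nonneg (fun z _ => hm0 p.1.1 z)).1
        (h2 p.1.1 hp.1.1) p.1.2 hp.1.2
      rw [hm] at h3
      simp only [p.2, dif_pos] at h3
      exact h3
  have hsym : ∀ g : X → X → ℝ, (∀ x z, g x z = g z x) →
      ∑ x ∈ F, ∑ z ∈ F, (m x z + m z x) * g x z = 2 * ∑ x ∈ F, ∑ z ∈ F, m x z * g x z := by
    intro g hg
    simp only [add_mul, Finset.sum_add_distrib]
    have : ∑ x ∈ F, ∑ z ∈ F, m z x * g x z = ∑ x ∈ F, ∑ z ∈ F, m x z * g x z := by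
      rw [Finset.sum_comm]
      refine Finset.sum_congr rfl fun x _ => Finset.sum_congr rfl fun z _ => ?_
      rw [hg]
    rw [this]
    ring
  refine ⟨μ, fun x z => m x z + m z x, hμ0, fun x z => add_nonneg (hm0 _ _) (hm0 _ _),
    fun x z => add_comm _ _, ?_, hpos, ?_, ?_⟩
  · intro x z hxz
    by_contra hcon
    apply hxz
    have h1 : m x z = 0 := by
      by_contra h; exact hcon (hmR _ _ h)
    have h2 : m z x = 0 := by
      by_contra h
      have := hmR _ _ h
      rw [dist_comm] at this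
      exact hcon this
    show m x z + m z x = 0
    rw [h1, h2, add_zero]
  · have := hsym (fun _ _ => 1) (fun _ _ => rfl)
    simp only [mul_one] at this
    rw [this]
    linarith
  · intro E hE'
    have h1 := hE E hE'
    have h2 := hsym (fun x z => |ind E x - ind E z|) (fun x z => abs_sub_comm _ _)
    rw [h2]
    linarith

end Pool.Agent.T6.H58.PA
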