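import Mathlib
import Pool.Agent.T6.H58.IsoData

/-!
From solutions of the covering problem on all finite subsets to property A.
-/

set_option autoImplicit false
set_option linter.unusedSectionVars false

open Finset

namespace Pool.Agent.T6.H58.PA

variable {X : Type*} [MetricSpace X]

theorem ncard_band (B : Finset X) (a b : X → ℕ) :
    ({w : X × ℕ | w.1 ∈ B ∧ a w.1 ≤ w.2 ∧ w.2 < b w.1}).Finite ∧
    ({w : X × ℕ | w.1 ∈ B ∧ a w.1 ≤ w.2 ∧ w.2 < b w.1}).ncard = ∑ z ∈ B, (b z - a z) := by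
  classical
  set T : Finset (Sigma fun _ : X => ℕ) := B.sigma (fun z => Finset.Ico (a z) (b z)) with hT
  have e : {w : X × ℕ | w.1 ∈ B ∧ a w.1 ≤ w.2 ∧ w.2 < b w.1} =
      ((T.map (Equiv.sigmaEquivProd X ℕ).toEmbedding : Finset (X × ℕ)) : Set (X × ℕ)) := by
    ext w
    simp only [Set.mem_ofPred_eq, Finset.coe_map, Set.mem_image, Finset.mem_coe, hT,
      Finset.mem_sigma, Finset.mem_Ico]
    constructor
    · intro h
      exact ⟨⟨w.1, w.2⟩, h, rfl⟩
    · rintro ⟨⟨z, j⟩, h, rfl⟩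
      exact h
  rw [e]
  refine ⟨Finset.finite_toSet _, ?_⟩
  rw [Set.ncard_coe_finset, Finset.card_map, hT, Finset.card_sigma]
  exact Finset.sum_congr rfl fun z _ => Nat.card_Ico _ _

/-- The combinatorial estimate. -/
theorem band_estimate {B : Finset X} {a b : X → ℕ} {ξ ζ : X → ℝ} {M N : ℕ} {δ ε : ℝ}
    (ha : ∀ z ∈ B, (M : ℝ) * ξ z ≤ a z)
    (hab : ∀ z ∈ B, |(a z : ℝ) - b z| ≤ M * |ξ z - ζ z| + 1)
    (hB : B.card ≤ 2 * N) (hξ : 1 ≤ ∑ z ∈ B, ξ z) (hξζ : ∑ z ∈ B, |ξ z - ζ z| ≤ 2 * δ)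
    (hε : 0 < ε) (hδ : 16 * δ ≤ min ε 1) (hM0 : 0 < M) (hM : 16 * (2 * (N : ℝ)) ≤ min ε 1 * M) :
    ((symmDiff {w : X × ℕ | w.1 ∈ B ∧ w.2 < a w.1} {w : X × ℕ | w.1 ∈ B ∧ w.2 < b w.1}).ncard : ℝ) <
      ε * (({w : X × ℕ | w.1 ∈ B ∧ w.2 < a w.1} ∩ {w : X × ℕ | w.1 ∈ B ∧ w.2 < b w.1}).ncard : ℝ) := by
  classical
  have e1 : symmDiff {w : X × ℕ | w.1 ∈ B ∧ w.2 < a w.1} {w : X × ℕ | w.1 ∈ B ∧ w.2 < b w.1} =
      {w : X × ℕ | w.1 ∈ B ∧ b w.1 ≤ w.2 ∧ w.2 < a w.1} ∪
      {w : X × ℕ | w.1 ∈ B ∧ a w.1 ≤ w.2 ∧ w.2 < b w.1} := by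
    ext w
    simp only [Set.mem_symmDiff, Set.mem_ofPred_eq, Set.mem_union]
    constructor
    · rintro (⟨⟨h1, h2⟩, h3⟩ | ⟨⟨h1, h2⟩, h3⟩)
      · left
        exact ⟨h1, by by_contra h4; exact h3 ⟨h1, by omega⟩, h2⟩
      · right
        exact ⟨h1, by by_contra h4; exact h3 ⟨h1, by omega⟩, h2⟩
    · rintro (⟨h1, h2, h3⟩ | ⟨h1, h2, h3⟩)
      · left
        exact ⟨⟨h1, h3⟩, fun h4 => by omega⟩
      · right
        exact ⟨⟨h1, h3⟩, fun h4 => by omega⟩
  have e2 : {w : X × ℕ | w.1 ∈ B ∧ w.2 < a w.1} ∩ {w : X × ℕ | w.1 ∈ B ∧ w.2 < b w.1} =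
      {w : X × ℕ | w.1 ∈ B ∧ (fun _ => 0) w.1 ≤ w.2 ∧ w.2 < (fun z => min (a z) (b z)) w.1} := by
    ext w
    simp only [Set.mem_inter_iff, Set.mem_ofPred_eq, zero_le, true_and, lt_min_iff]
    tauto
  rw [e1, e2, (ncard_band B (fun _ => 0) (fun z => min (a z) (b z))).2]
  have h1 := Set.ncard_union_le {w : X × ℕ | w.1 ∈ B ∧ b w.1 ≤ w.2 ∧ w.2 < a w.1}
    {w : X × ℕ | w.1 ∈ B ∧ a w.1 ≤ w.2 ∧ w.2 < b w.1}
  rw [(ncard_band B b a).2, (ncard_band B a b).2] at h1
  have h2 : ((∑ z ∈ B, (a z - b z) + ∑ z ∈ B, (b z - a z) : ℕ) : ℝ) = ∑ z ∈ B, |(a z : ℝ) - b z| := by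
    rw [← Finset.sum_add_distrib]
    push_cast
    refine Finset.sum_congr rfl fun z _ => ?_
    rcases le_total (a z) (b z) with h | h
    · have h' : (a z : ℝ) ≤ b z := by exact_mod_cast h
      rw [Nat.sub_eq_zero_of_le h, Nat.cast_sub h, abs_of_nonpos (by linarith)]
      simp
    · have h' : (b z : ℝ) ≤ a z := by exact_mod_cast h
      rw [Nat.sub_eq_zero_of_le h, Nat.cast_sub h, abs_of_nonneg (by linarith)]
      simp
  have h3 : ∑ z ∈ B, |(a z : ℝ) - b z| ≤ M * (2 * δ) + 2 * N := by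
    calc ∑ z ∈ B, |(a z : ℝ) - b z| ≤ ∑ z ∈ B, (M * |ξ z - ζ z| + 1) := Finset.sum_le_sum hab
      _ = M * ∑ z ∈ B, |ξ z - ζ z| + B.card := by
        rw [Finset.sum_add_distrib, Finset.mul_sum]
        simp
      _ ≤ M * (2 * δ) + 2 * N := by
        have : (B.card : ℝ) ≤ 2 * N := by exact_mod_cast hB
        have := mul_le_mul_of_nonneg_left hξζ (Nat.cast_nonneg (α := ℝ) M)
        linarith
  have h4 : (M : ℝ) ≤ ∑ z ∈ B, (a z : ℝ) := by
    calc (M : ℝ) = M * 1 := (mul_one _).symm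
      _ ≤ M * ∑ z ∈ B, ξ z := mul_le_mul_of_nonneg_left hξ (Nat.cast_nonneg _)
      _ = ∑ z ∈ B, M * ξ z := Finset.mul_sum _ _ _
      _ ≤ _ := Finset.sum_le_sum ha
  have h5 : ∑ z ∈ B, (a z : ℝ) - ∑ z ∈ B, |(a z : ℝ) - b z| ≤
      ((∑ z ∈ B, (min (a z) (b z) - 0) : ℕ) : ℝ) := by
    push_cast
    rw [← Finset.sum_sub_distrib]
    refine Finset.sum_le_sum fun z _ => ?_
    rcases le_total (a z) (b z) with h | h
    · have h' : (a z : ℝ) ≤ b z := by exact_mod_cast h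
      rw [Nat.sub_zero, min_eq_left h, abs_of_nonpos (by linarith)]
      linarith
    · have h' : (b z : ℝ) ≤ a z := by exact_mod_cast h
      rw [Nat.sub_zero, min_eq_right h, abs_of_nonneg (by linarith)]
      linarith
  have h6 : (((({w : X × ℕ | w.1 ∈ B ∧ b w.1 ≤ w.2 ∧ w.2 < a w.1} ∪
      {w : X × ℕ | w.1 ∈ B ∧ a w.1 ≤ w.2 ∧ w.2 < b w.1}).ncard : ℕ)) : ℝ) ≤
      ∑ z ∈ B, |(a z : ℝ) - b z| := by
    rw [← h2]
    exact_mod_cast h1
  have hMpos : (0 : ℝ) < M := by exact_mod_cast hM0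
  have hθ : 0 < min ε 1 := lt_min hε one_pos
  have hθ1 : min ε 1 ≤ 1 := min_le_right _ _
  have hθε : min ε 1 ≤ ε := min_le_left _ _
  have h7 : (M : ℝ) * (2 * δ) + 2 * N ≤ min ε 1 * M / 4 := by
    have : (M : ℝ) * (16 * δ) ≤ M * min ε 1 := mul_le_mul_of_nonneg_left hδ hMpos.le
    nlinarith
  have h8 : min ε 1 * M / 4 ≤ M / 4 := by
    have := mul_le_mul_of_nonneg_right hθ1 hMpos.le
    linarith
  have h9 : 3 / 4 * (M : ℝ) ≤ ((∑ z ∈ B, (min (a z) (b z) - 0) : ℕ) : ℝ) := by linarith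
  have h10 : ε * (3 / 4 * (M : ℝ)) ≤ ε * ((∑ z ∈ B, (min (a z) (b z) - 0) : ℕ) : ℝ) :=
    mul_le_mul_of_nonneg_left h9 hε.le
  have h11 : min ε 1 * M / 4 < ε * (3 / 4 * (M : ℝ)) := by
    have h12 := mul_le_mul_of_nonneg_right hθε hMpos.le
    have h13 := mul_pos hθ hMpos
    nlinarith
  linarith

/-- Probability vectors from a solution of the covering problem. -/
theorem exists_prob {F : Finset X} {S R δ : ℝ} (h : Feas F S R δ) :
    ∃ ξ : X → X → ℝ, (∀ x ∈ F, ∀ z, 0 ≤ ξ x z) ∧ (∀ x ∈ F, ∀ z, ξ x z ≠ 0 → z ∈ F ∧ dist z x ≤ S) ∧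
      (∀ x ∈ F, ∑ z ∈ F, ξ x z = 1) ∧
      ∀ x ∈ F, ∀ y ∈ F, dist x y < R → ∑ z ∈ F, |ξ x z - ξ y z| ≤ 2 * δ := by
  classical
  obtain ⟨l, hl, h1, h2⟩ := h
  rcases isEmpty_or_nonempty X with hX | hX
  · exact ⟨fun _ _ => 0, fun x => (hX.false x).elim, fun x => (hX.false x).elim,
      fun x => (hX.false x).elim, fun x => (hX.false x).elim⟩
  -- a chosen point in each set
  have hz : ∃ zz : Finset X → X, ∀ E, E.Nonempty → zz E ∈ E := by
    refine ⟨fun E => if hE : E.Nonempty then hE.choose else Classical.arbitrary X, fun E hE => ?_⟩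
    simp only [hE, dif_pos]
    exact hE.choose_spec
  obtain ⟨zz, hzz⟩ := hz
  set η : X → X → ℝ := fun x z => ∑ E ∈ Sm F S, if zz E = z then ind E x * l E else 0 with hη
  set Λ : X → ℝ := fun x => ∑ E ∈ Sm F S, ind E x * l E with hΛ
  have hind0 : ∀ (E : Finset X) (x : X), 0 ≤ ind E x := by
    intro E x
    unfold ind
    split_ifs <;> norm_num
  have hη0 : ∀ x z, 0 ≤ η x z := by
    intro x z
    refine Finset.sum_nonneg fun E _ => ?_
    split_ifs
    · exact mul_nonneg (hind0 _ _) (hl E)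
    · exact le_rfl
  have hηs : ∀ x z, η x z ≠ 0 → z ∈ F ∧ dist z x ≤ S := by
    intro x z hxz
    obtain ⟨E, hE, hne⟩ := Finset.exists_ne_zero_of_sum_ne_zero hxz
    have h3 : zz E = z := by
      by_contra h4
      rw [if_neg h4] at hne
      exact hne rfl
    rw [if_pos h3] at hne
    have h5 : x ∈ E := by
      by_contra h6
      have : ind E x = 0 := by unfold ind; rw [if_neg h6]
      rw [this, zero_mul] at hne
      exact hne rfl
    have h6 := mem_Sm.1 hE
    have h7 : z ∈ E := by rw [← h3]; exact hzz E ⟨x, h5⟩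
    exact ⟨h6.1 h7, h6.2 z h7 x h5⟩
  have hηsum : ∀ x, ∑ z ∈ F, η x z = Λ x := by
    intro x
    rw [hη, hΛ]
    simp only
    rw [Finset.sum_comm]
    refine Finset.sum_congr rfl fun E hE => ?_
    by_cases hx : x ∈ E
    · have h3 : zz E ∈ F := (mem_Sm.1 hE).1 (hzz E ⟨x, hx⟩)
      rw [Finset.sum_ite_eq, if_pos h3]
    · have : ind E x = 0 := by unfold ind; rw [if_neg hx]
      simp [this]
  have hηd : ∀ x ∈ F, ∀ y ∈ F, dist x y < R → ∑ z ∈ F, |η x z - η y z| ≤ δ := by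
    intro x hx y hy hxy
    refine le_trans ?_ (h2 x hx y hy hxy)
    have h3 : ∀ z, |η x z - η y z| ≤
        ∑ E ∈ Sm F S, if zz E = z then |ind E x - ind E y| * l E else 0 := by
      intro z
      rw [hη]
      simp only
      rw [← Finset.sum_sub_distrib]
      refine (Finset.abs_sum_le_sum_abs _ _).trans (Finset.sum_le_sum fun E _ => ?_)
      split_ifs
      · rw [← sub_mul, abs_mul, abs_of_nonneg (hl E)]
      · simp
    refine (Finset.sum_le_sum fun z _ => h3 z).trans ?_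
    rw [Finset.sum_comm]
    refine Finset.sum_le_sum fun E hE => ?_
    rw [Finset.sum_ite_eq]
    split_ifs
    · exact le_rfl
    · exact mul_nonneg (abs_nonneg _) (hl E)
  have hΛ1 : ∀ x ∈ F, 1 ≤ Λ x := h1
  refine ⟨fun x z => η x z / Λ x, ?_, ?_, ?_, ?_⟩
  · intro x hx z
    exact div_nonneg (hη0 x z) (by linarith [hΛ1 x hx])
  · intro x hx z hxz
    exact hηs x z (fun h0 => hxz (by simp only; rw [h0, zero_div]))
  · intro x hx
    rw [← Finset.sum_div, hηsum]
    exact div_self (by linarith [hΛ1 x hx])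
  · intro x hx y hy hxy
    have hΛx := hΛ1 x hx
    have hΛy := hΛ1 y hy
    have h3 := hηd x hx y hy hxy
    have h4 : |Λ x - Λ y| ≤ δ := by
      rw [← hηsum x, ← hηsum y, ← Finset.sum_sub_distrib]
      exact (Finset.abs_sum_le_sum_abs _ _).trans h3
    have h5 : ∀ z, |η x z / Λ x - η y z / Λ y| ≤
        (|η x z - η y z| + η y z / Λ y * |Λ x - Λ y|) / Λ x := by
      intro z
      have e : η x z / Λ x - η y z / Λ y = ((η x z - η y z) - η y z / Λ y * (Λ x - Λ y)) / Λ x := by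
        have : Λ x ≠ 0 := by linarith
        have : Λ y ≠ 0 := by linarith
        field_simp
        ring
      rw [e, abs_div, abs_of_pos (by linarith : 0 < Λ x)]
      apply div_le_div_of_nonneg_right _ (by linarith)
      refine (abs_sub _ _).trans ?_
      rw [abs_mul, abs_of_nonneg (div_nonneg (hη0 y z) (by linarith : 0 ≤ Λ y))]
    calc ∑ z ∈ F, |η x z / Λ x - η y z / Λ y| ≤
        ∑ z ∈ F, (|η x z - η y z| + η y z / Λ y * |Λ x - Λ y|) / Λ x :=
          Finset.sum_le_sum fun z _ => h5 z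
      _ = (∑ z ∈ F, |η x z - η y z| + (∑ z ∈ F, η y z) / Λ y * |Λ x - Λ y|) / Λ x := by
        rw [← Finset.sum_div, Finset.sum_add_distrib, ← Finset.sum_mul, Finset.sum_div]
      _ = (∑ z ∈ F, |η x z - η y z| + |Λ x - Λ y|) / Λ x := by
        rw [hηsum, div_self (by linarith), one_mul]
      _ ≤ (δ + δ) / 1 := by
        apply div_le_div₀
        · have := abs_nonneg (Λ x - Λ y)
          linarith
        · linarith
        · norm_num
        · exact hΛx
      _ = 2 * δ := by ring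

theorem propA_of_feas (hbg : ∀ R : ℝ, 0 < R → ∃ N : ℕ, ∀ x : X,
      (Metric.ball x R).Finite ∧ (Metric.ball x R).ncard ≤ N)
    {R ε S δ : ℝ} (hε : 0 < ε) (hS : 0 ≤ S) (hδ : 16 * δ ≤ min ε 1)
    (h : ∀ F : Finset X, Feas F S R δ) :
    ∃ A : X → Set (X × ℕ), (∀ x, (A x).Finite) ∧ (∀ x, (x, 0) ∈ A x) ∧
      (∀ x, ∀ w ∈ A x, dist w.1 x ≤ S) ∧
      ∀ x y, dist x y < R →
        ((symmDiff (A x) (A y)).ncard : ℝ) < ε * ((A x ∩ A y).ncard : ℝ) := by
  classical
  obtain ⟨N, hN⟩ := hbg (S + 1) (by linarith)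
  have hθ : 0 < min ε 1 := lt_min hε one_pos
  obtain ⟨M, hM⟩ := exists_nat_ge ((16 * (2 * (N : ℝ))) / min ε 1 + 1)
  have hM1 : 16 * (2 * (N : ℝ)) ≤ min ε 1 * M := by
    have : (16 * (2 * (N : ℝ))) / min ε 1 ≤ M := by linarith
    rw [div_le_iff₀ hθ] at this
    linarith
  have hM0 : 0 < M := by
    have h0 : 0 ≤ (16 * (2 * (N : ℝ))) / min ε 1 := by positivity
    have : (0 : ℝ) < M := by linarith
    exact_mod_cast this
  -- closed balls
  have hcb : ∀ x : X, (Metric.closedBall x S).Finite := fun x =>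
    (hN x).1.subset (Metric.closedBall_subset_ball (by linarith))
  set B : X → Finset X := fun x => (hcb x).toFinset with hB
  have hBmem : ∀ x z, z ∈ B x ↔ dist z x ≤ S := by
    intro x z
    rw [hB]
    simp [Metric.mem_closedBall]
  have hBcard : ∀ x, (B x).card ≤ N := by
    intro x
    rw [hB, ← Set.ncard_eq_toFinset_card _ (hcb x)]
    exact (Set.ncard_le_ncard (Metric.closedBall_subset_ball (by linarith)) (hN x).1).trans (hN x).2
  choose ξ hξ0 hξs hξ1 hξd using fun F => exists_prob (h F)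
  -- integer versions
  let nF : Finset X → X → X → Fin (M + 1) := fun F x z =>
    ⟨min ⌊(M : ℝ) * ξ F x z⌋₊ M, by have := min_le_right ⌊(M : ℝ) * ξ F x z⌋₊ M; omega⟩
  let U : Ultrafilter (Finset X) := Ultrafilter.of Filter.atTop
  have hU : (U : Filter (Finset X)) ≤ Filter.atTop := Ultrafilter.of_le _
  have hlim : ∀ x z, ∃ v : Fin (M + 1), ∀ᶠ F in (U : Filter (Finset X)), nF F x z = v := by
    intro x z
    obtain ⟨v, hv⟩ := (Ultrafilter.map (fun F => nF F x z) U).eq_pure_of_finite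
    refine ⟨v, ?_⟩
    have : {v} ∈ Ultrafilter.map (fun F => nF F x z) U := by
      rw [hv]
      exact Ultrafilter.mem_pure.2 rfl
    exact this
  choose n hn using hlim
  set A : X → Set (X × ℕ) := fun x => {w | w.1 ∈ B x ∧ w.2 < (n x w.1 : ℕ) + 1} with hA
  refine ⟨A, ?_, ?_, ?_, ?_⟩
  · intro x
    refine ((ncard_band (B x) (fun _ => 0) (fun z => (n x z : ℕ) + 1)).1).subset ?_
    rintro w ⟨h1, h2⟩
    exact ⟨h1, Nat.zero_le _, h2⟩
  · intro x
    refine ⟨(hBmem x x).2 (by rw [dist_self]; exact hS), Nat.succ_pos _⟩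
  · rintro x w ⟨h1, -⟩
    exact (hBmem x w.1).1 h1
  · intro x y hxy
    -- a good finite set
    have hx1 : ∀ᶠ F in (U : Filter (Finset X)), x ∈ F ∧ y ∈ F := by
      have h1 : ∀ᶠ F in (Filter.atTop : Filter (Finset X)), x ∈ F ∧ y ∈ F := by
        filter_upwards [Filter.eventually_ge_atTop ({x, y} : Finset X)] with F hF
        exact ⟨hF (by simp), hF (by simp)⟩
      exact hU h1
    have hx2 : ∀ᶠ F in (U : Filter (Finset X)), ∀ z ∈ B x, nF F x z = n x z :=
      (Filter.eventually_all_finset _).2 fun z _ => hn x z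
    have hx3 : ∀ᶠ F in (U : Filter (Finset X)), ∀ z ∈ B y, nF F y z = n y z :=
      (Filter.eventually_all_finset _).2 fun z _ => hn y z
    obtain ⟨F, ⟨hxF, hyF⟩, h2, h3⟩ := (hx1.and (hx2.and hx3)).exists
    -- values of the integer functions
    have hval : ∀ u ∈ F, ∀ z, ((nF F u z : Fin (M + 1)) : ℕ) = ⌊(M : ℝ) * ξ F u z⌋₊ := by
      intro u hu z
      show min ⌊(M : ℝ) * ξ F u z⌋₊ M = _
      apply min_eq_left
      apply Nat.floor_le_of_le
      have h4 : ξ F u z ≤ 1 := by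
        by_cases hz : z ∈ F
        · rw [← hξ1 F u hu]
          exact Finset.single_le_sum (fun z _ => hξ0 F u hu z) hz
        · have : ξ F u z = 0 := by
            by_contra h5
            exact hz (hξs F u hu z h5).1
          rw [this]; norm_num
      have hMr : (0 : ℝ) ≤ M := Nat.cast_nonneg _
      nlinarith
    let a : X → ℕ := fun z => if z ∈ B x then ⌊(M : ℝ) * ξ F x z⌋₊ + 1 else 0
    let b : X → ℕ := fun z => if z ∈ B y then ⌊(M : ℝ) * ξ F y z⌋₊ + 1 else 0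
    have eA : A x = {w : X × ℕ | w.1 ∈ B x ∪ B y ∧ w.2 < a w.1} := by
      ext w
      simp only [hA, a, Set.mem_ofPred_eq, Finset.mem_union]
      by_cases hw : w.1 ∈ B x
      · rw [if_pos hw, ← hval x hxF, h2 _ hw]
        simp [hw]
      · simp [hw]
    have eB : A y = {w : X × ℕ | w.1 ∈ B x ∪ B y ∧ w.2 < b w.1} := by
      ext w
      simp only [hA, b, Set.mem_ofPred_eq, Finset.mem_union]
      by_cases hw : w.1 ∈ B y
      · rw [if_pos hw, ← hval y hyF, h3 _ hw]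
        simp [hw]
      · simp [hw]
    rw [eA, eB]
    have hz0 : ∀ u ∈ F, ∀ z, z ∉ B u → ξ F u z = 0 := by
      intro u hu z hz
      by_contra h5
      exact hz ((hBmem u z).2 (hξs F u hu z h5).2)
    refine band_estimate (ξ := ξ F x) (ζ := ξ F y) (M := M) (N := N) (δ := δ) ?_ ?_ ?_ ?_ ?_ hε hδ
      hM0 hM1
    · intro z _
      simp only [a]
      split_ifs with hz
      · push_cast
        exact (Nat.lt_floor_add_one _).le
      · rw [hz0 x hxF z hz]; simp
    · intro z hz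
      rw [Finset.mem_union] at hz
      have hfl : ∀ t : ℝ, 0 ≤ t → (⌊t⌋₊ : ℝ) ≤ t := fun t ht => Nat.floor_le ht
      have hfl2 : ∀ t : ℝ, t < (⌊t⌋₊ : ℝ) + 1 := fun t => Nat.lt_floor_add_one t
      have hx0 : 0 ≤ (M : ℝ) * ξ F x z := mul_nonneg (Nat.cast_nonneg _) (hξ0 F x hxF z)
      have hy0 : 0 ≤ (M : ℝ) * ξ F y z := mul_nonneg (Nat.cast_nonneg _) (hξ0 F y hyF z)
      have hd : (M : ℝ) * |ξ F x z - ξ F y z| = |(M : ℝ) * ξ F x z - M * ξ F y z| := by
        rw [← mul_sub, abs_mul, abs_of_nonneg (Nat.cast_nonneg (α := ℝ) M)]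
      rw [hd]
      simp only [a, b]
      have g1 := hfl _ hx0
      have g2 := hfl _ hy0
      have g3 := hfl2 ((M : ℝ) * ξ F x z)
      have g4 := hfl2 ((M : ℝ) * ξ F y z)
      have g5 := le_abs_self ((M : ℝ) * ξ F x z - M * ξ F y z)
      have g6 := neg_abs_le ((M : ℝ) * ξ F x z - M * ξ F y z)
      by_cases hzx : z ∈ B x
      · by_cases hzy : z ∈ B y
        · rw [if_pos hzx, if_pos hzy]
          push_cast
          rw [abs_le]
          constructor <;> linarith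
        · have g7 := hz0 y hyF z hzy
          rw [if_pos hzx, if_neg hzy]
          have g8 : (0 : ℝ) ≤ ⌊(M : ℝ) * ξ F x z⌋₊ := Nat.cast_nonneg _
          have g9 : (M : ℝ) * ξ F y z = 0 := by rw [g7, mul_zero]
          push_cast
          rw [abs_le]
          constructor <;> linarith
      · have hzy : z ∈ B y := hz.resolve_left hzx
        have g7 := hz0 x hxF z hzx
        rw [if_neg hzx, if_pos hzy]
        have g8 : (0 : ℝ) ≤ ⌊(M : ℝ) * ξ F y z⌋₊ := Nat.cast_nonneg _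
        have g9 : (M : ℝ) * ξ F x z = 0 := by rw [g7, mul_zero]
        push_cast
        rw [abs_le]
        constructor <;> linarith
    · refine (Finset.card_union_le _ _).trans ?_
      have := hBcard x
      have := hBcard y
      omega
    · rw [← hξ1 F x hxF]
      have h4 : ∑ z ∈ F, ξ F x z = ∑ z ∈ F ∩ (B x ∪ B y), ξ F x z := by
        symm
        apply Finset.sum_subset Finset.inter_subset_left
        intro z hz hz'
        apply hz0 x hxF
        intro h5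
        exact hz' (Finset.mem_inter.2 ⟨hz, Finset.mem_union_left _ h5⟩)
      rw [h4]
      exact Finset.sum_le_sum_of_subset_of_nonneg Finset.inter_subset_right
        (fun z _ _ => hξ0 F x hxF z)
    · refine le_trans ?_ (hξd F x hxF y hyF hxy)
      have h4 : ∑ z ∈ B x ∪ B y, |ξ F x z - ξ F y z| =
          ∑ z ∈ F ∩ (B x ∪ B y), |ξ F x z - ξ F y z| := by
        symm
        apply Finset.sum_subset Finset.inter_subset_right
        intro z hz hz'
        have h5 : z ∉ F := fun h6 => hz' (Finset.mem_inter.2 ⟨h6, hz⟩)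
        have h6 : ξ F x z = 0 := by
          by_contra h7; exact h5 (hξs F x hxF z h7).1
        have h7 : ξ F y z = 0 := by
          by_contra h7; exact h5 (hξs F y hyF z h7).1
        rw [h6, h7]; simp
      rw [h4]
      exact Finset.sum_le_sum_of_subset_of_nonneg Finset.inter_subset_left
        (fun z _ _ => abs_nonneg _)

end Pool.Agent.T6.H58.PA
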