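import Mathlib

/-!
Local spectral gap from a local isoperimetric inequality: a reversible lazy random walk on a finite
metric space, with a measure `μ` which is small on boundaries.
-/

set_option autoImplicit false
set_option linter.unusedSectionVars false

open Finset

namespace Pool.Agent.T6.H58.Gap

variable {V : Type*} [Fintype V] [MetricSpace V]

open Classical in
/-- indicator -/
noncomputable def ind (E : Finset V) (x : V) : ℝ := if x ∈ E then 1 else 0

/-- the standing hypotheses -/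
structure Data (w μ : V → ℝ) (s : V → V → ℝ) (R S : ℝ) : Prop where
  hw : ∀ x, 0 < w x
  hμ : ∀ x, 0 ≤ μ x
  hμw : ∀ x, μ x ≤ w x
  hs : ∀ x y, 0 ≤ s x y
  symm : ∀ x y, s x y = s y x
  deg : ∀ x, 2 * ∑ y, s x y ≤ w x
  R0 : 0 ≤ R
  hR : ∀ x y, s x y ≠ 0 → dist x y ≤ R
  iso : ∀ E : Finset V, (∀ a ∈ E, ∀ b ∈ E, dist a b ≤ S) →
    ∑ x ∈ E, μ x ≤ 1 / 2 * ∑ x, ∑ y, s x y * |ind E x - ind E y|

/-- the functions supported in a set of diameter at most `ρ` -/
def Loc (g : V → ℝ) (ρ : ℝ) : Prop := ∀ a b, g a ≠ 0 → g b ≠ 0 → dist a b ≤ ρ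

/-- the energy -/
noncomputable def En (s : V → V → ℝ) (g : V → ℝ) : ℝ := 1 / 2 * ∑ x, ∑ y, s x y * (g x - g y) ^ 2

/-- the `L`-operator -/
noncomputable def L (w : V → ℝ) (s : V → V → ℝ) (g : V → ℝ) (x : V) : ℝ :=
  (w x)⁻¹ * ∑ y, s x y * (g x - g y)

open Classical in
/-- the transition matrix -/
noncomputable def K (w : V → ℝ) (s : V → V → ℝ) : Matrix V V ℝ :=
  fun x y => (if x = y then 1 - (w x)⁻¹ * ∑ z, s x z else 0) + (w x)⁻¹ * s x y

section

variable {w μ : V → ℝ} {s : V → V → ℝ} {R S : ℝ}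

theorem layer (h : Data w μ s R S) : ∀ (n : ℕ) (g : V → ℝ), (∀ x, 0 ≤ g x) → Loc g S →
    (∃ E : Finset V, (∀ x, x ∈ E ↔ g x ≠ 0) ∧ E.card = n) →
    ∑ x, μ x * g x ≤ 1 / 2 * ∑ x, ∑ y, s x y * |g x - g y| := by
  classical
  intro n
  induction n using Nat.strong_induction_on with
  | _ n ih =>
    rintro g hg hloc ⟨E, hE, hcard⟩
    rcases E.eq_empty_or_nonempty with rfl | hne
    · have : ∀ x, g x = 0 := by
        intro x
        by_contra hx
        exact absurd ((hE x).2 hx) (Finset.notMem_empty x)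
      simp [this]
    · obtain ⟨x0, hx0, hmin⟩ := E.exists_min_image g hne
      set c := g x0 with hc
      have hc0 : 0 < c := lt_of_le_of_ne (hg x0) (Ne.symm ((hE x0).1 hx0))
      set g' : V → ℝ := fun x => g x - c * ind E x with hg'
      have hin : ∀ x, x ∈ E → g' x = g x - c := by
        intro x hx
        simp [hg', ind, hx]
      have hout : ∀ x, x ∉ E → g' x = 0 := by
        intro x hx
        have : g x = 0 := by
          by_contra h1; exact hx ((hE x).2 h1)
        simp [hg', ind, hx, this]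
      have hg'0 : ∀ x, 0 ≤ g' x := by
        intro x
        by_cases hx : x ∈ E
        · rw [hin x hx]; linarith [hmin x hx]
        · rw [hout x hx]
      have hsupp : ∀ x, g' x ≠ 0 → x ∈ E := by
        intro x hx
        by_contra h1
        exact hx (hout x h1)
      set E' := E.filter (fun x => g' x ≠ 0) with hE'
      have hlt : E'.card < n := by
        rw [← hcard]
        apply Finset.card_lt_card
        rw [Finset.ssubset_iff_of_subset (Finset.filter_subset _ _)]
        refine ⟨x0, hx0, ?_⟩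
        rw [Finset.mem_filter]
        rintro ⟨-, h1⟩
        apply h1
        rw [hin x0 hx0, hc, sub_self]
      have h1 := ih E'.card hlt g' hg'0
        (fun a b ha hb => hloc a b ((hE a).1 (hsupp a ha)) ((hE b).1 (hsupp b hb)))
        ⟨E', fun x => by
          rw [hE', Finset.mem_filter]
          exact ⟨fun h => h.2, fun h => ⟨hsupp x h, h⟩⟩, rfl⟩
      have h2 := h.iso E (fun a ha b hb => hloc a b ((hE a).1 ha) ((hE b).1 hb))
      have e1 : ∑ x, μ x * g x = ∑ x, μ x * g' x + c * ∑ x ∈ E, μ x := by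
        have : ∑ x ∈ E, μ x = ∑ x, μ x * ind E x := by
          simp only [ind, mul_ite, mul_one, mul_zero]
          rw [← Finset.sum_filter]
          simp
        rw [this, Finset.mul_sum, ← Finset.sum_add_distrib]
        refine Finset.sum_congr rfl fun x _ => ?_
        rw [hg']
        ring
      have e2 : ∀ x y, |g x - g y| = |g' x - g' y| + c * |ind E x - ind E y| := by
        intro x y
        by_cases hx : x ∈ E
        · by_cases hy : y ∈ E
          · rw [hin x hx, hin y hy]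
            simp [ind, hx, hy]
          · have hgy : g y = 0 := by
              by_contra h1; exact hy ((hE y).2 h1)
            rw [hin x hx, hout y hy, hgy]
            simp only [ind, hx, hy, if_true, if_false, sub_zero, abs_one, mul_one]
            rw [abs_of_nonneg (hg x), abs_of_nonneg (by linarith [hmin x hx])]
            ring
        · have hgx : g x = 0 := by
            by_contra h1; exact hx ((hE x).2 h1)
          by_cases hy : y ∈ E
          · rw [hin y hy, hout x hx, hgx]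
            simp only [ind, hx, hy, if_true, if_false, zero_sub, abs_neg, abs_one, mul_one]
            rw [abs_of_nonneg (hg y), abs_of_nonneg (by linarith [hmin y hy])]
            ring
          · have hgy : g y = 0 := by
              by_contra h1; exact hy ((hE y).2 h1)
            rw [hout x hx, hout y hy, hgx, hgy]
            simp [ind, hx, hy]
      have e3 : ∑ x, ∑ y, s x y * |g x - g y| = ∑ x, ∑ y, s x y * |g' x - g' y| +
          c * ∑ x, ∑ y, s x y * |ind E x - ind E y| := by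
        rw [Finset.mul_sum, ← Finset.sum_add_distrib]
        refine Finset.sum_congr rfl fun x _ => ?_
        rw [Finset.mul_sum, ← Finset.sum_add_distrib]
        refine Finset.sum_congr rfl fun y _ => ?_
        rw [e2]
        ring
      rw [e1, e3]
      have h3 := mul_le_mul_of_nonneg_left h2 hc0.le
      nlinarith

theorem coarea (h : Data w μ s R S) (g : V → ℝ) (hg : ∀ x, 0 ≤ g x) (hloc : Loc g S) :
    ∑ x, μ x * g x ≤ 1 / 2 * ∑ x, ∑ y, s x y * |g x - g y| := by
  classical
  exact layer h _ g hg hloc ⟨Finset.univ.filter (fun x => g x ≠ 0), fun x => by simp, rfl⟩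

theorem En_nonneg (h : Data w μ s R S) (g : V → ℝ) : 0 ≤ En s g := by
  unfold En
  have : 0 ≤ ∑ x, ∑ y, s x y * (g x - g y) ^ 2 :=
    Finset.sum_nonneg fun x _ => Finset.sum_nonneg fun y _ => mul_nonneg (h.hs x y) (sq_nonneg _)
  linarith

theorem cheeger (h : Data w μ s R S) (g : V → ℝ) (hg : ∀ x, 0 ≤ g x) (hloc : Loc g S) :
    ∑ x, μ x * g x ^ 2 ≤ Real.sqrt (En s g * ∑ x, w x * g x ^ 2) := by
  have h1 := coarea h (fun x => g x ^ 2) (fun x => sq_nonneg _) (fun a b ha hb =>
    hloc a b (fun h0 => ha (by simp [h0])) (fun h0 => hb (by simp [h0])))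
  refine h1.trans ?_
  apply Real.le_sqrt_of_sq_le
  have e1 : ∑ x, ∑ y, s x y * |g x ^ 2 - g y ^ 2| =
      ∑ p : V × V, (Real.sqrt (s p.1 p.2) * |g p.1 - g p.2|) *
        (Real.sqrt (s p.1 p.2) * (g p.1 + g p.2)) := by
    rw [Fintype.sum_prod_type]
    refine Finset.sum_congr rfl fun x _ => Finset.sum_congr rfl fun y _ => ?_
    have : |g x ^ 2 - g y ^ 2| = |g x - g y| * (g x + g y) := by
      rw [← abs_of_nonneg (add_nonneg (hg x) (hg y)), ← abs_mul]
      congr 1
      ring
    rw [this]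
    have h2 := Real.mul_self_sqrt (h.hs x y)
    calc s x y * (|g x - g y| * (g x + g y)) =
        (Real.sqrt (s x y) * Real.sqrt (s x y)) * (|g x - g y| * (g x + g y)) := by rw [h2]
      _ = _ := by ring
  have h2 := Finset.sum_mul_sq_le_sq_mul_sq (Finset.univ : Finset (V × V))
    (fun p => Real.sqrt (s p.1 p.2) * |g p.1 - g p.2|)
    (fun p => Real.sqrt (s p.1 p.2) * (g p.1 + g p.2))
  rw [← e1] at h2
  have e2 : ∑ p : V × V, (Real.sqrt (s p.1 p.2) * |g p.1 - g p.2|) ^ 2 = 2 * En s g := by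
    rw [Fintype.sum_prod_type, En]
    have : ∑ x, ∑ y, (Real.sqrt (s x y) * |g x - g y|) ^ 2 = ∑ x, ∑ y, s x y * (g x - g y) ^ 2 := by
      refine Finset.sum_congr rfl fun x _ => Finset.sum_congr rfl fun y _ => ?_
      rw [mul_pow, Real.sq_sqrt (h.hs x y), sq_abs]
    simp only at this ⊢
    rw [this]
    ring
  have e3 : ∑ p : V × V, (Real.sqrt (s p.1 p.2) * (g p.1 + g p.2)) ^ 2 ≤
      2 * ∑ x, w x * g x ^ 2 := by
    rw [Fintype.sum_prod_type]
    have h3 : ∑ x, ∑ y, (Real.sqrt (s x y) * (g x + g y)) ^ 2 ≤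
        ∑ x, ∑ y, (2 * (s x y * g x ^ 2) + 2 * (s x y * g y ^ 2)) := by
      refine Finset.sum_le_sum fun x _ => Finset.sum_le_sum fun y _ => ?_
      rw [mul_pow, Real.sq_sqrt (h.hs x y)]
      have := mul_nonneg (h.hs x y) (sq_nonneg (g x - g y))
      nlinarith
    refine h3.trans ?_
    have h4 : ∑ x, ∑ y, (2 * (s x y * g x ^ 2) + 2 * (s x y * g y ^ 2)) =
        4 * ∑ x, (∑ y, s x y) * g x ^ 2 := by
      have h5 : ∑ x, ∑ y, 2 * (s x y * g y ^ 2) = ∑ x, ∑ y, 2 * (s x y * g x ^ 2) := by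
        rw [Finset.sum_comm]
        refine Finset.sum_congr rfl fun x _ => Finset.sum_congr rfl fun y _ => ?_
        rw [h.symm]
      simp only [Finset.sum_add_distrib]
      rw [h5, Finset.mul_sum, ← Finset.sum_add_distrib]
      refine Finset.sum_congr rfl fun x _ => ?_
      rw [← Finset.mul_sum, ← Finset.sum_mul]
      ring
    rw [h4, Finset.mul_sum, Finset.mul_sum]
    refine Finset.sum_le_sum fun x _ => ?_
    have := mul_le_mul_of_nonneg_right (h.deg x) (sq_nonneg (g x))
    nlinarith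
  have h3 : 0 ≤ En s g := En_nonneg h g
  have h4 : 0 ≤ ∑ p : V × V, (Real.sqrt (s p.1 p.2) * (g p.1 + g p.2)) ^ 2 :=
    Finset.sum_nonneg fun p _ => sq_nonneg _
  rw [e2] at h2
  calc (1 / 2 * ∑ x, ∑ y, s x y * |g x ^ 2 - g y ^ 2|) ^ 2 =
      1 / 4 * (∑ x, ∑ y, s x y * |g x ^ 2 - g y ^ 2|) ^ 2 := by ring
    _ ≤ 1 / 4 * (2 * En s g * ∑ p : V × V, (Real.sqrt (s p.1 p.2) * (g p.1 + g p.2)) ^ 2) := by
        linarith
    _ ≤ 1 / 4 * (2 * En s g * (2 * ∑ x, w x * g x ^ 2)) := by
        have := mul_le_mul_of_nonneg_left e3 (by linarith : 0 ≤ 2 * En s g)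
        linarith
    _ = _ := by ring

theorem K_apply (g : V → ℝ) (x : V) : (K w s).mulVec g x = g x - L w s g x := by
  classical
  unfold K L Matrix.mulVec dotProduct
  simp only [add_mul, ite_mul, zero_mul, Finset.sum_add_distrib, Finset.sum_ite_eq,
    Finset.mem_univ, if_true]
  have : ∑ y, s x y * (g x - g y) = (∑ y, s x y) * g x - ∑ y, s x y * g y := by
    simp only [mul_sub, Finset.sum_sub_distrib, Finset.sum_mul]
  rw [this]
  have h2 : ∑ y, (w x)⁻¹ * s x y * g y = (w x)⁻¹ * ∑ y, s x y * g y := by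
    rw [Finset.mul_sum]
    exact Finset.sum_congr rfl fun y _ => by ring
  rw [h2]
  ring

theorem K_nonneg (h : Data w μ s R S) (x y : V) : 0 ≤ K w s x y := by
  unfold K
  have h1 : 0 ≤ (w x)⁻¹ * s x y := mul_nonneg (inv_nonneg.2 (h.hw x).le) (h.hs x y)
  have h2 : (w x)⁻¹ * ∑ z, s x z ≤ 1 / 2 := by
    rw [inv_mul_le_iff₀ (h.hw x)]
    linarith [h.deg x]
  split_ifs <;> linarith

theorem K_one (x : V) : ∑ y, K w s x y = 1 := by
  have := K_apply (w := w) (s := s) (fun _ => 1) x
  simp only [L, Matrix.mulVec, dotProduct, mul_one, sub_self, mul_zero, Finset.sum_const_zero,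
    sub_zero] at this
  exact this

theorem K_supp (h : Data w μ s R S) {x y : V} (hK : K w s x y ≠ 0) : dist x y ≤ R := by
  by_contra hcon
  apply hK
  have h1 : s x y = 0 := by
    by_contra h2
    exact hcon (h.hR x y h2)
  have h2 : x ≠ y := by
    rintro rfl
    rw [dist_self] at hcon
    exact hcon h.R0
  unfold K
  rw [if_neg h2, h1]
  simp

theorem dir (h : Data w μ s R S) (g : V → ℝ) : ∑ x, w x * (g x * L w s g x) = En s g := by
  unfold L En
  have h1 : ∑ x, w x * (g x * ((w x)⁻¹ * ∑ y, s x y * (g x - g y))) =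
      ∑ x, ∑ y, s x y * (g x * (g x - g y)) := by
    refine Finset.sum_congr rfl fun x _ => ?_
    have hx := (h.hw x).ne'
    calc w x * (g x * ((w x)⁻¹ * ∑ y, s x y * (g x - g y))) =
        (w x * (w x)⁻¹) * (g x * ∑ y, s x y * (g x - g y)) := by ring
      _ = g x * ∑ y, s x y * (g x - g y) := by rw [mul_inv_cancel₀ hx, one_mul]
      _ = _ := by
        rw [Finset.mul_sum]
        exact Finset.sum_congr rfl fun y _ => by ring
  have h2 : ∑ x, ∑ y, s x y * (g x * (g x - g y)) = ∑ x, ∑ y, s x y * (g y * (g y - g x)) := by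
    rw [Finset.sum_comm]
    refine Finset.sum_congr rfl fun x _ => Finset.sum_congr rfl fun y _ => ?_
    rw [h.symm]
  rw [h1]
  have h3 : ∑ x, ∑ y, s x y * (g x - g y) ^ 2 = ∑ x, ∑ y, s x y * (g x * (g x - g y)) +
      ∑ x, ∑ y, s x y * (g y * (g y - g x)) := by
    rw [← Finset.sum_add_distrib]
    refine Finset.sum_congr rfl fun x _ => ?_
    rw [← Finset.sum_add_distrib]
    exact Finset.sum_congr rfl fun y _ => by ring
  rw [h3, ← h2]
  ring

theorem normL (h : Data w μ s R S) (g : V → ℝ) : ∑ x, w x * (L w s g x) ^ 2 ≤ En s g := by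
  unfold L En
  rw [Finset.mul_sum]
  refine Finset.sum_le_sum fun x _ => ?_
  have hx := h.hw x
  have h1 : (∑ y, s x y * (g x - g y)) ^ 2 ≤ (∑ y, s x y) * ∑ y, s x y * (g x - g y) ^ 2 := by
    have := Finset.sum_mul_sq_le_sq_mul_sq (Finset.univ : Finset V)
      (fun y => Real.sqrt (s x y)) (fun y => Real.sqrt (s x y) * (g x - g y))
    have e1 : ∑ y, Real.sqrt (s x y) * (Real.sqrt (s x y) * (g x - g y)) =
        ∑ y, s x y * (g x - g y) := by
      refine Finset.sum_congr rfl fun y _ => ?_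
      rw [← mul_assoc, Real.mul_self_sqrt (h.hs x y)]
    have e2 : ∑ y, Real.sqrt (s x y) ^ 2 = ∑ y, s x y :=
      Finset.sum_congr rfl fun y _ => Real.sq_sqrt (h.hs x y)
    have e3 : ∑ y, (Real.sqrt (s x y) * (g x - g y)) ^ 2 = ∑ y, s x y * (g x - g y) ^ 2 := by
      refine Finset.sum_congr rfl fun y _ => ?_
      rw [mul_pow, Real.sq_sqrt (h.hs x y)]
    rw [e1, e2, e3] at this
    exact this
  have h2 : 0 ≤ ∑ y, s x y * (g x - g y) ^ 2 :=
    Finset.sum_nonneg fun y _ => mul_nonneg (h.hs x y) (sq_nonneg _)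
  calc w x * ((w x)⁻¹ * ∑ y, s x y * (g x - g y)) ^ 2 =
      (w x * (w x)⁻¹) * ((w x)⁻¹ * (∑ y, s x y * (g x - g y)) ^ 2) := by ring
    _ = (w x)⁻¹ * (∑ y, s x y * (g x - g y)) ^ 2 := by rw [mul_inv_cancel₀ hx.ne', one_mul]
    _ ≤ (w x)⁻¹ * ((∑ y, s x y) * ∑ y, s x y * (g x - g y) ^ 2) :=
        mul_le_mul_of_nonneg_left h1 (inv_nonneg.2 hx.le)
    _ = ((w x)⁻¹ * ∑ y, s x y) * ∑ y, s x y * (g x - g y) ^ 2 := by ring
    _ ≤ 1 / 2 * ∑ y, s x y * (g x - g y) ^ 2 := by
        apply mul_le_mul_of_nonneg_right _ h2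
        rw [inv_mul_le_iff₀ hx]
        linarith [h.deg x]

theorem step (h : Data w μ s R S) (g : V → ℝ) :
    ∑ x, w x * ((K w s).mulVec g x) ^ 2 ≤ ∑ x, w x * g x ^ 2 - En s g := by
  have h1 : ∑ x, w x * ((K w s).mulVec g x) ^ 2 = ∑ x, w x * g x ^ 2 -
      2 * ∑ x, w x * (g x * L w s g x) + ∑ x, w x * (L w s g x) ^ 2 := by
    rw [Finset.mul_sum, ← Finset.sum_sub_distrib, ← Finset.sum_add_distrib]
    refine Finset.sum_congr rfl fun x _ => ?_
    rw [K_apply]
    ring
  rw [h1, dir h]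
  linarith [normL h g]

theorem massK (h : Data w μ s R S) (g : V → ℝ) :
    ∑ x, w x * (K w s).mulVec g x = ∑ x, w x * g x := by
  have h1 : ∑ x, w x * L w s g x = 0 := by
    unfold L
    have h2 : ∑ x, w x * ((w x)⁻¹ * ∑ y, s x y * (g x - g y)) =
        ∑ x, ∑ y, s x y * (g x - g y) := by
      refine Finset.sum_congr rfl fun x _ => ?_
      rw [← mul_assoc, mul_inv_cancel₀ (h.hw x).ne', one_mul]
    have h3 : ∑ x, ∑ y, s x y * (g x - g y) = ∑ x, ∑ y, s x y * (g y - g x) := by
      rw [Finset.sum_comm]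
      refine Finset.sum_congr rfl fun x _ => Finset.sum_congr rfl fun y _ => ?_
      rw [h.symm]
    have h4 : ∑ x, ∑ y, s x y * (g y - g x) = -∑ x, ∑ y, s x y * (g x - g y) := by
      rw [← Finset.sum_neg_distrib]
      refine Finset.sum_congr rfl fun x _ => ?_
      rw [← Finset.sum_neg_distrib]
      exact Finset.sum_congr rfl fun y _ => by ring
    rw [h2]
    linarith
  simp only [K_apply, mul_sub, Finset.sum_sub_distrib, h1, sub_zero]

end

end Pool.Agent.T6.H58.Gap
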