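import Mathlib
import Pool.Agent.T6.H58.Gap

/-!
Powers and averages of the random walk, `L^p` bounds for functions with small support.
-/

set_option autoImplicit false
set_option linter.unusedSectionVars false

open Finset

namespace Pool.Agent.T6.H58.Gap

variable {V : Type*} [Fintype V] [DecidableEq V] [MetricSpace V] {w μ : V → ℝ} {s : V → V → ℝ} {R S : ℝ}

theorem pow_nonneg' (h : Data w μ s R S) (n : ℕ) (x y : V) : 0 ≤ (K w s ^ n) x y := by
  induction n generalizing x y with
  | zero =>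
    rw [pow_zero, Matrix.one_apply]
    split_ifs <;> norm_num
  | succ n ih =>
    rw [pow_succ, Matrix.mul_apply]
    exact Finset.sum_nonneg fun z _ => mul_nonneg (ih x z) (K_nonneg h z y)

theorem pow_one' (n : ℕ) (x : V) : ∑ y, (K w s ^ n) x y = 1 := by
  induction n generalizing x with
  | zero => simp [Matrix.one_apply]
  | succ n ih =>
    simp only [pow_succ', Matrix.mul_apply]
    rw [Finset.sum_comm]
    simp only [← Finset.mul_sum, ih, mul_one]
    exact K_one x

theorem pow_supp (h : Data w μ s R S) (n : ℕ) {x y : V} (hK : (K w s ^ n) x y ≠ 0) :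
    dist x y ≤ n * R := by
  induction n generalizing x y with
  | zero =>
    rw [pow_zero, Matrix.one_apply] at hK
    have : x = y := by
      by_contra h0
      rw [if_neg h0] at hK
      exact hK rfl
    rw [this, dist_self]
    simp
  | succ n ih =>
    rw [pow_succ, Matrix.mul_apply] at hK
    obtain ⟨z, -, hz⟩ := Finset.exists_ne_zero_of_sum_ne_zero hK
    have h1 := ih (left_ne_zero_of_mul hz)
    have h2 := K_supp h (right_ne_zero_of_mul hz)
    calc dist x y ≤ dist x z + dist z y := dist_triangle _ _ _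
      _ ≤ n * R + R := add_le_add h1 h2
      _ = _ := by push_cast; ring

/-- the average of the powers -/
noncomputable def A (w : V → ℝ) (s : V → V → ℝ) (n : ℕ) (x y : V) : ℝ :=
  (n : ℝ)⁻¹ * ∑ k ∈ Finset.range n, (K w s ^ k) x y

theorem A_nonneg (h : Data w μ s R S) (n : ℕ) (x y : V) : 0 ≤ A w s n x y :=
  mul_nonneg (by positivity) (Finset.sum_nonneg fun k _ => pow_nonneg' h k x y)

theorem A_one {n : ℕ} (hn : 0 < n) (x : V) : ∑ y, A w s n x y = 1 := by
  unfold A
  rw [← Finset.mul_sum, Finset.sum_comm]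
  simp only [pow_one', Finset.sum_const, Finset.card_range, nsmul_eq_mul, mul_one]
  have : (n : ℝ) ≠ 0 := by positivity
  field_simp

theorem A_supp (h : Data w μ s R S) (n : ℕ) {x y : V} (hA : A w s n x y ≠ 0) :
    dist x y ≤ n * R := by
  unfold A at hA
  obtain ⟨k, hk, hz⟩ := Finset.exists_ne_zero_of_sum_ne_zero (right_ne_zero_of_mul hA)
  have h1 := pow_supp h k hz
  rw [Finset.mem_range] at hk
  have h2 : (k : ℝ) ≤ n := by exact_mod_cast hk.le
  exact h1.trans (mul_le_mul_of_nonneg_right h2 h.R0)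

/-- the walk applied to a function -/
noncomputable def it (w : V → ℝ) (s : V → V → ℝ) (k : ℕ) (g : V → ℝ) : V → ℝ :=
  (K w s ^ k).mulVec g

theorem it_zero (g : V → ℝ) : it w s 0 g = g := by
  unfold it
  rw [pow_zero, Matrix.one_mulVec]

theorem it_succ (k : ℕ) (g : V → ℝ) : it w s (k + 1) g = (K w s).mulVec (it w s k g) := by
  unfold it
  rw [pow_succ', Matrix.mulVec_mulVec]

theorem it_nonneg (h : Data w μ s R S) (k : ℕ) {g : V → ℝ} (hg : ∀ x, 0 ≤ g x) (x : V) :
    0 ≤ it w s k g x :=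
  Finset.sum_nonneg fun y _ => mul_nonneg (pow_nonneg' h k x y) (hg y)

theorem it_loc (h : Data w μ s R S) (k : ℕ) {g : V → ℝ} {D : ℝ} (hg : Loc g D) :
    Loc (it w s k g) (D + 2 * (k * R)) := by
  intro a b ha hb
  unfold it Matrix.mulVec dotProduct at ha hb
  obtain ⟨x, -, hx⟩ := Finset.exists_ne_zero_of_sum_ne_zero ha
  obtain ⟨y, -, hy⟩ := Finset.exists_ne_zero_of_sum_ne_zero hb
  have h1 := pow_supp h k (left_ne_zero_of_mul hx)
  have h2 := pow_supp h k (left_ne_zero_of_mul hy)
  have h3 := hg x y (right_ne_zero_of_mul hx) (right_ne_zero_of_mul hy)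
  have h4 := dist_triangle4 a x y b
  rw [dist_comm y b] at h4
  linarith

theorem it_norm (h : Data w μ s R S) (k : ℕ) (g : V → ℝ) :
    ∑ x, w x * it w s k g x ^ 2 + ∑ j ∈ Finset.range k, En s (it w s j g) ≤ ∑ x, w x * g x ^ 2 := by
  induction k with
  | zero => simp [it_zero]
  | succ k ih =>
    rw [Finset.sum_range_succ]
    have h1 := step h (it w s k g)
    rw [← it_succ] at h1
    linarith

theorem it_mass (h : Data w μ s R S) (k : ℕ) (g : V → ℝ) :
    ∑ x, w x * it w s k g x = ∑ x, w x * g x := by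
  induction k with
  | zero => simp [it_zero]
  | succ k ih =>
    rw [it_succ, massK h, ih]

/-- the averaged walk applied to a function -/
noncomputable def Q (w : V → ℝ) (s : V → V → ℝ) (n : ℕ) (g : V → ℝ) (x : V) : ℝ :=
  ∑ y, A w s n x y * g y

theorem Q_eq (n : ℕ) (g : V → ℝ) (x : V) :
    Q w s n g x = (n : ℝ)⁻¹ * ∑ k ∈ Finset.range n, it w s k g x := by
  unfold Q A it Matrix.mulVec dotProduct
  rw [Finset.sum_comm, Finset.mul_sum]
  refine Finset.sum_congr rfl fun y _ => ?_
  rw [← Finset.sum_mul]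
  ring

theorem Q_mass (h : Data w μ s R S) {n : ℕ} (hn : 0 < n) (g : V → ℝ) :
    ∑ x, w x * Q w s n g x = ∑ x, w x * g x := by
  have h1 : ∑ x, w x * Q w s n g x =
      (n : ℝ)⁻¹ * ∑ k ∈ Finset.range n, ∑ x, w x * it w s k g x := by
    rw [Finset.sum_comm, Finset.mul_sum]
    refine Finset.sum_congr rfl fun x _ => ?_
    rw [Q_eq, ← Finset.mul_sum]
    ring
  rw [h1]
  simp only [it_mass h, Finset.sum_const, Finset.card_range, nsmul_eq_mul]
  have : (n : ℝ) ≠ 0 := by positivity
  field_simp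

theorem Q_nonneg (h : Data w μ s R S) (n : ℕ) {g : V → ℝ} (hg : ∀ x, 0 ≤ g x) (x : V) :
    0 ≤ Q w s n g x :=
  Finset.sum_nonneg fun y _ => mul_nonneg (A_nonneg h n x y) (hg y)

theorem Q_two (h : Data w μ s R S) {n : ℕ} (hn : 0 < n) {g : V → ℝ} (hg : ∀ x, 0 ≤ g x) {D : ℝ}
    (hloc : Loc g D) (hS : D + 2 * (n * R) ≤ S) :
    ∑ x, μ x * Q w s n g x ^ 2 ≤ (Real.sqrt n)⁻¹ * ∑ x, w x * g x ^ 2 := by
  set W := ∑ x, w x * g x ^ 2 with hW
  have hW0 : 0 ≤ W := Finset.sum_nonneg fun x _ => mul_nonneg (h.hw x).le (sq_nonneg _)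
  have hnpos : (0 : ℝ) < n := by exact_mod_cast hn
  -- Jensen
  have h1 : ∀ x, Q w s n g x ^ 2 ≤ (n : ℝ)⁻¹ * ∑ k ∈ Finset.range n, it w s k g x ^ 2 := by
    intro x
    rw [Q_eq, mul_pow]
    have h2 := sq_sum_le_card_mul_sum_sq (s := Finset.range n) (f := fun k => it w s k g x)
    rw [Finset.card_range] at h2
    calc (n : ℝ)⁻¹ ^ 2 * (∑ k ∈ Finset.range n, it w s k g x) ^ 2 ≤
        (n : ℝ)⁻¹ ^ 2 * (n * ∑ k ∈ Finset.range n, it w s k g x ^ 2) :=
          mul_le_mul_of_nonneg_left h2 (by positivity)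
      _ = _ := by field_simp
  have h2 : ∑ x, μ x * Q w s n g x ^ 2 ≤
      (n : ℝ)⁻¹ * ∑ k ∈ Finset.range n, ∑ x, μ x * it w s k g x ^ 2 := by
    calc ∑ x, μ x * Q w s n g x ^ 2 ≤
        ∑ x, μ x * ((n : ℝ)⁻¹ * ∑ k ∈ Finset.range n, it w s k g x ^ 2) :=
          Finset.sum_le_sum fun x _ => mul_le_mul_of_nonneg_left (h1 x) (h.hμ x)
      _ = _ := by
        rw [Finset.sum_comm, Finset.mul_sum]
        refine Finset.sum_congr rfl fun x _ => ?_
        rw [← Finset.mul_sum]
        ring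
  have h3 : ∀ k ∈ Finset.range n, ∑ x, μ x * it w s k g x ^ 2 ≤
      Real.sqrt (En s (it w s k g)) * Real.sqrt W := by
    intro k hk
    rw [Finset.mem_range] at hk
    have hkn : (k : ℝ) ≤ n := by exact_mod_cast hk.le
    have hl := it_loc h k hloc
    have hl' : Loc (it w s k g) S := by
      intro a b ha hb
      refine (hl a b ha hb).trans (le_trans ?_ hS)
      have := mul_le_mul_of_nonneg_right hkn h.R0
      linarith
    refine (cheeger h _ (it_nonneg h k hg) hl').trans ?_
    rw [← Real.sqrt_mul (En_nonneg h _)]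
    apply Real.sqrt_le_sqrt
    apply mul_le_mul_of_nonneg_left _ (En_nonneg h _)
    have h4 := it_norm h k g
    have h5 : 0 ≤ ∑ j ∈ Finset.range k, En s (it w s j g) :=
      Finset.sum_nonneg fun j _ => En_nonneg h _
    linarith
  have h4 : ∑ k ∈ Finset.range n, Real.sqrt (En s (it w s k g)) ≤ Real.sqrt n * Real.sqrt W := by
    rw [← Real.sqrt_mul hnpos.le]
    apply Real.le_sqrt_of_sq_le
    have h5 := sq_sum_le_card_mul_sum_sq (s := Finset.range n)
      (f := fun k => Real.sqrt (En s (it w s k g)))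
    rw [Finset.card_range] at h5
    refine h5.trans ?_
    apply mul_le_mul_of_nonneg_left _ hnpos.le
    simp only [Real.sq_sqrt (En_nonneg h _)]
    have h6 := it_norm h n g
    have h7 : 0 ≤ ∑ x, w x * it w s n g x ^ 2 :=
      Finset.sum_nonneg fun x _ => mul_nonneg (h.hw x).le (sq_nonneg _)
    linarith
  calc ∑ x, μ x * Q w s n g x ^ 2 ≤
      (n : ℝ)⁻¹ * ∑ k ∈ Finset.range n, ∑ x, μ x * it w s k g x ^ 2 := h2
    _ ≤ (n : ℝ)⁻¹ * ∑ k ∈ Finset.range n, Real.sqrt (En s (it w s k g)) * Real.sqrt W :=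
        mul_le_mul_of_nonneg_left (Finset.sum_le_sum h3) (by positivity)
    _ = (n : ℝ)⁻¹ * ((∑ k ∈ Finset.range n, Real.sqrt (En s (it w s k g))) * Real.sqrt W) := by
        rw [Finset.sum_mul]
    _ ≤ (n : ℝ)⁻¹ * ((Real.sqrt n * Real.sqrt W) * Real.sqrt W) := by
        apply mul_le_mul_of_nonneg_left _ (by positivity)
        exact mul_le_mul_of_nonneg_right h4 (Real.sqrt_nonneg _)
    _ = ((n : ℝ)⁻¹ * Real.sqrt n) * (Real.sqrt W * Real.sqrt W) := by ring
    _ = (Real.sqrt n)⁻¹ * W := by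
        rw [Real.mul_self_sqrt hW0]
        congr 1
        have h8 : Real.sqrt n * Real.sqrt n = n := Real.mul_self_sqrt hnpos.le
        have h9 : Real.sqrt (n : ℝ) ≠ 0 := (Real.sqrt_pos.2 hnpos).ne'
        field_simp
        linarith

/-- the gain -/
noncomputable def gain (p : ℝ) (n : ℕ) : ℝ := ((Real.sqrt n)⁻¹) ^ (min 1 (p - 1))

theorem Loc.rpow {g : V → ℝ} {D : ℝ} (hloc : Loc g D) {t : ℝ} (ht : t ≠ 0) :
    Loc (fun x => g x ^ t) D := by
  intro a b ha hb
  exact hloc a b (fun h0 => ha (by simp [h0, Real.zero_rpow ht]))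
    (fun h0 => hb (by simp [h0, Real.zero_rpow ht]))

theorem Q_p (h : Data w μ s R S) {n : ℕ} (hn : 0 < n) {g : V → ℝ} (hg : ∀ x, 0 ≤ g x) {D : ℝ}
    (hloc : Loc g D) (hS : D + 2 * (n * R) ≤ S) {p : ℝ} (hp : 1 < p) :
    ∑ x, μ x * Q w s n g x ^ p ≤ gain p n * ∑ x, w x * g x ^ p := by
  have hnpos : (0 : ℝ) < n := by exact_mod_cast hn
  have hsq : (0 : ℝ) < (Real.sqrt n)⁻¹ := inv_pos.2 (Real.sqrt_pos.2 hnpos)
  have hhalf : ∀ x, (g x ^ (p / 2)) ^ 2 = g x ^ p := by
    intro x
    rw [← Real.rpow_natCast, ← Real.rpow_mul (hg x)]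
    congr 1
    push_cast
    ring
  have hQ2 := Q_two h hn (g := fun x => g x ^ (p / 2)) (fun x => Real.rpow_nonneg (hg x) _)
    (hloc.rpow (by linarith)) hS
  simp only [hhalf] at hQ2
  by_cases hp2 : 2 ≤ p
  · have hgain : gain p n = (Real.sqrt n)⁻¹ := by
      unfold gain
      rw [min_eq_left (by linarith), Real.rpow_one]
    rw [hgain]
    refine le_trans ?_ hQ2
    refine Finset.sum_le_sum fun x _ => mul_le_mul_of_nonneg_left ?_ (h.hμ x)
    -- Jensen
    have h1 : Q w s n g x ^ (p / 2) ≤ Q w s n (fun x => g x ^ (p / 2)) x :=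
      Real.rpow_arith_mean_le_arith_mean_rpow Finset.univ (fun y => A w s n x y) g
        (fun y _ => A_nonneg h n x y) (A_one hn x) (fun y _ => hg y) (by linarith)
    calc Q w s n g x ^ p = (Q w s n g x ^ (p / 2)) ^ 2 := by
          rw [← Real.rpow_natCast, ← Real.rpow_mul (Q_nonneg h n hg x)]
          congr 1
          push_cast
          ring
      _ ≤ _ := pow_le_pow_left₀ (Real.rpow_nonneg (Q_nonneg h n hg x) _) h1 2
  · push Not at hp2
    have hgain : gain p n = ((Real.sqrt n)⁻¹) ^ (p - 1) := by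
      unfold gain
      rw [min_eq_right (by linarith)]
    rw [hgain]
    -- Lyapunov
    have hyp : (2 - p)⁻¹.HolderConjugate (p - 1)⁻¹ := by
      rw [Real.holderConjugate_iff]
      constructor
      · rw [one_lt_inv₀ (by linarith)]
        linarith
      · rw [inv_inv, inv_inv]
        ring
    have hyp2 : (2 / p - 1)⁻¹.HolderConjugate (2 - 2 / p)⁻¹ := by
      have h1 : 1 < 2 / p := by rw [lt_div_iff₀ (by linarith)]; linarith
      have h2 : 2 / p < 2 := by rw [div_lt_iff₀ (by linarith)]; linarith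
      rw [Real.holderConjugate_iff]
      constructor
      · rw [one_lt_inv₀ (by linarith)]
        linarith
      · rw [inv_inv, inv_inv]
        ring
    have h1 : ∀ x, Q w s n g x ^ p ≤ Q w s n (fun x => g x ^ p) x ^ (2 - p) *
        (Q w s n (fun x => g x ^ (p / 2)) x ^ 2) ^ (p - 1) := by
      intro x
      have hA := fun y => A_nonneg h n x y
      have hQp : 0 ≤ Q w s n (fun x => g x ^ p) x := Q_nonneg h n (fun x => Real.rpow_nonneg (hg x) _) x
      have hQh : 0 ≤ Q w s n (fun x => g x ^ (p / 2)) x :=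
        Q_nonneg h n (fun x => Real.rpow_nonneg (hg x) _) x
      have h2 : Q w s n g x ≤ (Q w s n (fun x => g x ^ p) x) ^ (2 / p - 1) *
          (Q w s n (fun x => g x ^ (p / 2)) x) ^ (2 - 2 / p) := by
        have h3 := Real.inner_le_Lp_mul_Lq Finset.univ
          (fun y => (A w s n x y * g y ^ p) ^ (2 / p - 1))
          (fun y => (A w s n x y * g y ^ (p / 2)) ^ (2 - 2 / p)) hyp2
        have e1 : ∀ y, (A w s n x y * g y ^ p) ^ (2 / p - 1) *
            (A w s n x y * g y ^ (p / 2)) ^ (2 - 2 / p) = A w s n x y * g y := by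
          intro y
          rcases eq_or_lt_of_le (hA y) with h0 | h0
          · rw [← h0]
            simp only [zero_mul]
            have : 2 / p - 1 ≠ 0 := by
              have : 1 < 2 / p := by rw [lt_div_iff₀ (by linarith)]; linarith
              linarith
            rw [Real.zero_rpow this, zero_mul]
          rcases eq_or_lt_of_le (hg y) with h4 | h4
          · rw [← h4, Real.zero_rpow (by linarith), mul_zero]
            have : 2 / p - 1 ≠ 0 := by
              have : 1 < 2 / p := by rw [lt_div_iff₀ (by linarith)]; linarith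
              linarith
            rw [Real.zero_rpow this, zero_mul]
          · rw [Real.mul_rpow h0.le (Real.rpow_nonneg h4.le _),
              Real.mul_rpow h0.le (Real.rpow_nonneg h4.le _), ← Real.rpow_mul h4.le,
              ← Real.rpow_mul h4.le]
            have e2 : A w s n x y ^ (2 / p - 1) * g y ^ (p * (2 / p - 1)) *
                (A w s n x y ^ (2 - 2 / p) * g y ^ (p / 2 * (2 - 2 / p))) =
                (A w s n x y ^ (2 / p - 1) * A w s n x y ^ (2 - 2 / p)) *
                (g y ^ (p * (2 / p - 1)) * g y ^ (p / 2 * (2 - 2 / p))) := by ring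
            rw [e2, ← Real.rpow_add h0, ← Real.rpow_add h4]
            have e3 : 2 / p - 1 + (2 - 2 / p) = 1 := by ring
            have e4 : p * (2 / p - 1) + p / 2 * (2 - 2 / p) = 1 := by
              have : p ≠ 0 := by linarith
              field_simp
              ring
            rw [e3, e4, Real.rpow_one, Real.rpow_one]
        simp only [e1] at h3
        have e5 : ∀ y, |(A w s n x y * g y ^ p) ^ (2 / p - 1)| ^ (2 / p - 1)⁻¹ =
            A w s n x y * g y ^ p := by
          intro y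
          have h5 : 0 ≤ A w s n x y * g y ^ p := mul_nonneg (hA y) (Real.rpow_nonneg (hg y) _)
          have h6 : 2 / p - 1 ≠ 0 := by
            have : 1 < 2 / p := by rw [lt_div_iff₀ (by linarith)]; linarith
            linarith
          rw [abs_of_nonneg (Real.rpow_nonneg h5 _), ← Real.rpow_mul h5, mul_inv_cancel₀ h6,
            Real.rpow_one]
        have e6 : ∀ y, |(A w s n x y * g y ^ (p / 2)) ^ (2 - 2 / p)| ^ (2 - 2 / p)⁻¹ =
            A w s n x y * g y ^ (p / 2) := by
          intro y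
          have h5 : 0 ≤ A w s n x y * g y ^ (p / 2) := mul_nonneg (hA y) (Real.rpow_nonneg (hg y) _)
          have h6 : 2 - 2 / p ≠ 0 := by
            have : 2 / p < 2 := by rw [div_lt_iff₀ (by linarith)]; linarith
            linarith
          rw [abs_of_nonneg (Real.rpow_nonneg h5 _), ← Real.rpow_mul h5, mul_inv_cancel₀ h6,
            Real.rpow_one]
        simp only [e5, e6, one_div, inv_inv] at h3
        exact h3
      have h3 : Q w s n g x ^ p ≤ ((Q w s n (fun x => g x ^ p) x) ^ (2 / p - 1) *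
          (Q w s n (fun x => g x ^ (p / 2)) x) ^ (2 - 2 / p)) ^ p :=
        Real.rpow_le_rpow (Q_nonneg h n hg x) h2 (by linarith)
      refine h3.trans (le_of_eq ?_)
      rw [Real.mul_rpow (Real.rpow_nonneg hQp _) (Real.rpow_nonneg hQh _), ← Real.rpow_mul hQp,
        ← Real.rpow_mul hQh, ← Real.rpow_natCast, ← Real.rpow_mul hQh]
      have : p ≠ 0 := by linarith
      congr 2
      · field_simp
      · push_cast
        field_simp
    have hQpn : ∀ x, 0 ≤ Q w s n (fun x => g x ^ p) x := fun x =>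
      Q_nonneg h n (fun x => Real.rpow_nonneg (hg x) _) x
    have h2 : ∑ x, μ x * Q w s n g x ^ p ≤
        (∑ x, μ x * Q w s n (fun x => g x ^ p) x) ^ (2 - p) *
        (∑ x, μ x * Q w s n (fun x => g x ^ (p / 2)) x ^ 2) ^ (p - 1) := by
      have h3 := Real.inner_le_Lp_mul_Lq Finset.univ
        (fun x => (μ x * Q w s n (fun x => g x ^ p) x) ^ (2 - p))
        (fun x => (μ x * Q w s n (fun x => g x ^ (p / 2)) x ^ 2) ^ (p - 1)) hyp
      have e5 : ∀ x, |(μ x * Q w s n (fun x => g x ^ p) x) ^ (2 - p)| ^ (2 - p)⁻¹ =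
          μ x * Q w s n (fun x => g x ^ p) x := by
        intro x
        have h5 : 0 ≤ μ x * Q w s n (fun x => g x ^ p) x := mul_nonneg (h.hμ x) (hQpn x)
        rw [abs_of_nonneg (Real.rpow_nonneg h5 _), ← Real.rpow_mul h5,
          mul_inv_cancel₀ (by linarith), Real.rpow_one]
      have e6 : ∀ x, |(μ x * Q w s n (fun x => g x ^ (p / 2)) x ^ 2) ^ (p - 1)| ^ (p - 1)⁻¹ =
          μ x * Q w s n (fun x => g x ^ (p / 2)) x ^ 2 := by
        intro x
        have h5 : 0 ≤ μ x * Q w s n (fun x => g x ^ (p / 2)) x ^ 2 :=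
          mul_nonneg (h.hμ x) (sq_nonneg _)
        rw [abs_of_nonneg (Real.rpow_nonneg h5 _), ← Real.rpow_mul h5,
          mul_inv_cancel₀ (by linarith), Real.rpow_one]
      simp only [e5, e6, one_div, inv_inv] at h3
      refine le_trans ?_ h3
      refine Finset.sum_le_sum fun x _ => ?_
      rw [Real.mul_rpow (h.hμ x) (hQpn x), Real.mul_rpow (h.hμ x) (sq_nonneg _)]
      rcases eq_or_lt_of_le (h.hμ x) with h0 | h0
      · rw [← h0, zero_mul, Real.zero_rpow (by linarith), zero_mul, zero_mul]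
      · have e7 : μ x ^ (2 - p) * Q w s n (fun x => g x ^ p) x ^ (2 - p) *
            (μ x ^ (p - 1) * (Q w s n (fun x => g x ^ (p / 2)) x ^ 2) ^ (p - 1)) =
            (μ x ^ (2 - p) * μ x ^ (p - 1)) * (Q w s n (fun x => g x ^ p) x ^ (2 - p) *
            (Q w s n (fun x => g x ^ (p / 2)) x ^ 2) ^ (p - 1)) := by ring
        rw [e7, ← Real.rpow_add h0]
        have e8 : 2 - p + (p - 1) = 1 := by ring
        rw [e8, Real.rpow_one]
        exact mul_le_mul_of_nonneg_left (h1 x) h0.le
    set W := ∑ x, w x * g x ^ p with hW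
    have hW0 : 0 ≤ W := Finset.sum_nonneg fun x _ =>
      mul_nonneg (h.hw x).le (Real.rpow_nonneg (hg x) _)
    have h3 : ∑ x, μ x * Q w s n (fun x => g x ^ p) x ≤ W := by
      rw [hW, ← Q_mass h hn (fun x => g x ^ p)]
      exact Finset.sum_le_sum fun x _ => mul_le_mul_of_nonneg_right (h.hμw x) (hQpn x)
    have h4 : 0 ≤ ∑ x, μ x * Q w s n (fun x => g x ^ p) x :=
      Finset.sum_nonneg fun x _ => mul_nonneg (h.hμ x) (hQpn x)
    have h5 : 0 ≤ ∑ x, μ x * Q w s n (fun x => g x ^ (p / 2)) x ^ 2 :=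
      Finset.sum_nonneg fun x _ => mul_nonneg (h.hμ x) (sq_nonneg _)
    calc ∑ x, μ x * Q w s n g x ^ p ≤ _ := h2
      _ ≤ W ^ (2 - p) * ((Real.sqrt n)⁻¹ * W) ^ (p - 1) :=
          mul_le_mul (Real.rpow_le_rpow h4 h3 (by linarith))
            (Real.rpow_le_rpow h5 hQ2 (by linarith)) (Real.rpow_nonneg h5 _)
            (Real.rpow_nonneg hW0 _)
      _ = _ := by
          rw [Real.mul_rpow hsq.le hW0]
          rcases eq_or_lt_of_le hW0 with h0 | h0
          · rw [← h0, Real.zero_rpow (by linarith), zero_mul, mul_zero]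
          · have e9 : W ^ (2 - p) * ((Real.sqrt n)⁻¹ ^ (p - 1) * W ^ (p - 1)) =
                (Real.sqrt n)⁻¹ ^ (p - 1) * (W ^ (2 - p) * W ^ (p - 1)) := by ring
            rw [e9, ← Real.rpow_add h0]
            have e8 : 2 - p + (p - 1) = 1 := by ring
            rw [e8, Real.rpow_one]

theorem gain_tendsto {p : ℝ} (hp : 1 < p) : Filter.Tendsto (gain p) Filter.atTop (nhds 0) := by
  unfold gain
  have h1 : Filter.Tendsto (fun n : ℕ => (Real.sqrt n)⁻¹) Filter.atTop (nhds 0) := by
    apply Filter.Tendsto.inv_tendsto_atTop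
    exact Real.tendsto_sqrt_atTop.comp tendsto_natCast_atTop_atTop
  have h2 : 0 < min 1 (p - 1) := lt_min one_pos (by linarith)
  have h3 := h1.rpow_const (p := min 1 (p - 1)) (Or.inr h2.le)
  rwa [Real.zero_rpow h2.ne'] at h3

end Pool.Agent.T6.H58.Gap
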