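import Mathlib
import Pool.Agent.T6.H58.IsoData
import Pool.Agent.T6.H58.Gap2

/-!
Passing from isoperimetric data on a finite set to the standing hypotheses of the local spectral gap.
-/

set_option autoImplicit false

open Finset

namespace Pool.Agent.T6.H58.Tr

variable {X : Type*} [MetricSpace X]

theorem data_of_not_feas {F : Finset X} {S R δ : ℝ} (hδ : 0 < δ) (hR : 0 ≤ R)
    (h : ¬ PA.Feas F S R δ) :
    ∃ (F' : Finset X) (w μ : F' → ℝ) (s : F' → F' → ℝ), Gap.Data w μ s R S ∧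
      0 < ∑ x, μ x ∧ ∑ x, w x ≤ (1 + 4 / δ) * ∑ x, μ x := by
  classical
  obtain ⟨μ, s, hμ, hs, hsymm, hsR, hpos, htot, hiso⟩ := PA.iso_of_not_feas hδ h
  set w : X → ℝ := fun x => μ x + 2 * ∑ y ∈ F, s x y with hw
  have hdeg0 : ∀ x, 0 ≤ ∑ y ∈ F, s x y := fun x => Finset.sum_nonneg fun y _ => hs x y
  have hw0 : ∀ x, 0 ≤ w x := fun x => by
    have := hμ x
    have := hdeg0 x
    rw [hw]
    positivity
  set F' := F.filter (fun x => 0 < w x) with hF'
  have hsub : F' ⊆ F := Finset.filter_subset _ _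
  have hout : ∀ x ∈ F, x ∉ F' → μ x = 0 ∧ ∀ y ∈ F, s x y = 0 := by
    intro x hx hx'
    have h1 : ¬ 0 < w x := fun h => hx' (Finset.mem_filter.2 ⟨hx, h⟩)
    have h2 : w x = 0 := le_antisymm (not_lt.1 h1) (hw0 x)
    have h3 := hμ x
    have h4 := hdeg0 x
    have h5 : μ x + 2 * ∑ y ∈ F, s x y = 0 := h2
    refine ⟨by linarith, ?_⟩
    exact (Finset.sum_eq_zero_iff_of_nonneg fun y _ => hs x y).1 (by linarith)
  have hsum1 : ∀ g : X → ℝ, (∀ x ∈ F, x ∉ F' → g x = 0) → ∑ x : F', g x.1 = ∑ x ∈ F, g x := by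
    intro g hg
    rw [Finset.sum_coe_sort F' g]
    exact Finset.sum_subset hsub fun x hx hx' => hg x hx hx'
  refine ⟨F', fun x => w x.1, fun x => μ x.1, fun x y => s x.1 y.1, ?_, ?_, ?_⟩
  · refine ⟨fun x => (Finset.mem_filter.1 x.2).2, fun x => hμ _, fun x => ?_, fun x y => hs _ _,
      fun x y => hsymm _ _, fun x => ?_, hR, fun x y hxy => (hsR _ _ hxy).le, ?_⟩
    · have := hdeg0 x.1
      show μ x.1 ≤ μ x.1 + 2 * ∑ y ∈ F, s x.1 y
      linarith
    · have h1 : ∑ y : F', s x.1 y.1 = ∑ y ∈ F, s x.1 y := by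
        apply hsum1
        intro y hy hy'
        rw [hsymm]
        exact (hout y hy hy').2 x.1 (hsub x.2)
      rw [h1]
      have := hμ x.1
      show 2 * ∑ y ∈ F, s x.1 y ≤ μ x.1 + 2 * ∑ y ∈ F, s x.1 y
      linarith
    · intro E hE
      set E0 : Finset X := E.map (Function.Embedding.subtype _) with hE0
      have hmem : ∀ x : F', x.1 ∈ E0 ↔ x ∈ E := by
        intro x
        rw [hE0, Finset.mem_map]
        constructor
        · rintro ⟨a, ha, hax⟩
          have : a = x := Subtype.ext hax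
          rwa [← this]
        · intro hx
          exact ⟨x, hx, rfl⟩
      have hE0S : E0 ∈ PA.Sm F S := by
        rw [PA.mem_Sm]
        constructor
        · intro x hx
          rw [hE0, Finset.mem_map] at hx
          obtain ⟨a, _, rfl⟩ := hx
          exact hsub a.2
        · intro a ha b hb
          rw [hE0, Finset.mem_map] at ha hb
          obtain ⟨a, ha', rfl⟩ := ha
          obtain ⟨b, hb', rfl⟩ := hb
          exact hE a ha' b hb'
      have h1 := hiso E0 hE0S
      have h2 : ∑ x ∈ E0, μ x = ∑ x ∈ E, μ x.1 := by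
        rw [hE0, Finset.sum_map]
        rfl
      have hind : ∀ x : F', Gap.ind E x = PA.ind E0 x.1 := by
        intro x
        unfold Gap.ind PA.ind
        by_cases hx : x ∈ E
        · rw [if_pos hx, if_pos ((hmem x).2 hx)]
        · rw [if_neg hx, if_neg (fun h => hx ((hmem x).1 h))]
      have h3 : ∑ x : F', ∑ y : F', s x.1 y.1 * |Gap.ind E x - Gap.ind E y| =
          ∑ x ∈ F, ∑ y ∈ F, s x y * |PA.ind E0 x - PA.ind E0 y| := by
        simp only [hind]
        rw [← hsum1 (fun x => ∑ y ∈ F, s x y * |PA.ind E0 x - PA.ind E0 y|)]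
        · refine Finset.sum_congr rfl fun x _ => ?_
          apply hsum1 (fun y => s x.1 y * |PA.ind E0 x.1 - PA.ind E0 y|)
          intro y hy hy'
          show s x.1 y * _ = 0
          rw [hsymm, (hout y hy hy').2 x.1 (hsub x.2), zero_mul]
        · intro x hx hx'
          refine Finset.sum_eq_zero fun y hy => ?_
          rw [(hout x hx hx').2 y hy, zero_mul]
      rw [h3, ← h2]
      exact h1
  · rw [hsum1 μ (fun x hx hx' => (hout x hx hx').1)]
    exact hpos
  · rw [hsum1 μ (fun x hx hx' => (hout x hx hx').1)]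
    rw [hsum1 w]
    · have h1 : ∑ x ∈ F, w x = ∑ x ∈ F, μ x + 2 * ∑ x ∈ F, ∑ y ∈ F, s x y := by
        rw [hw, Finset.sum_add_distrib, Finset.mul_sum]
      rw [h1]
      have h2 : ∑ x ∈ F, ∑ y ∈ F, s x y ≤ 2 / δ * ∑ x ∈ F, μ x := by
        rw [div_mul_eq_mul_div, le_div_iff₀ hδ]
        linarith
      have h3 : (1 + 4 / δ) * ∑ x ∈ F, μ x = ∑ x ∈ F, μ x + 2 * (2 / δ * ∑ x ∈ F, μ x) := by ring
      rw [h3]
      linarith
    · intro x hx hx'
      have h1 := hout x hx hx'
      show μ x + 2 * ∑ y ∈ F, s x y = 0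
      rw [h1.1, Finset.sum_eq_zero h1.2]
      simp

end Pool.Agent.T6.H58.Tr
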