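import Mathlib
import Pool.Agent.T6.H58.Transfer
import Pool.Agent.T6.H58.LpOp
import Pool.Agent.T6.H58.PropA

/-!
The `p`-operator norm localization property implies property A for `1 < p < ∞`.
-/

set_option autoImplicit false

open MeasureTheory Finset
open scoped ENNReal

namespace Pool.Agent.T6.H58.NoLoc

open LpOp

variable {X : Type*} [MetricSpace X] [MeasurableSpace X] [BorelSpace X]
  {E : Type*} [NormedAddCommGroup E] [NormedSpace ℝ E] {p : ℝ≥0∞} [Fact (1 ≤ p)]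

theorem bad_op {F : Finset X} {w μ : F → ℝ} {s : F → F → ℝ} {R S : ℝ}
    (h : Gap.Data w μ s R S) {n : ℕ} (hn : 0 < n) {D : ℝ} (hD : D + 2 * (n * R) ≤ S)
    (hp : p ≠ ⊤) (hp1 : 1 < p.toReal) {e : E} (he : e ≠ 0) :
    ∃ T : Lp E p (nu F w) →L[ℝ] Lp E p (nu F w),
      (∀ x y : X, n * R < dist x y → ∀ g : Lp E p (nu F w),
        (∀ᵐ z ∂nu F w, z ∉ ({x} : Set X) → g z = 0) →
          ∀ᵐ z ∂nu F w, z ∈ ({y} : Set X) → (T g) z = 0) ∧
      (∑ x, μ x ≤ ‖T‖ ^ p.toReal * ∑ x, w x) ∧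
      ∀ ξ : Lp E p (nu F w), (∃ B : Set X, (∀ a ∈ B, ∀ b ∈ B, dist a b ≤ D) ∧
        ∀ᵐ z ∂nu F w, z ∉ B → ξ z = 0) →
        ‖T ξ‖ ^ p.toReal ≤ Gap.gain p.toReal n * ‖ξ‖ ^ p.toReal := by
  classical
  have hpr : 0 < p.toReal := by linarith
  set r : F → ℝ := fun x => (μ x / w x) ^ (1 / p.toReal) with hr
  have hr0 : ∀ x, 0 ≤ r x := fun x => Real.rpow_nonneg (div_nonneg (h.hμ x) (h.hw x).le) _
  have hrp : ∀ x, w x * r x ^ p.toReal = μ x := by
    intro x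
    rw [hr]
    simp only
    rw [← Real.rpow_mul (div_nonneg (h.hμ x) (h.hw x).le), one_div, inv_mul_cancel₀ hpr.ne',
      Real.rpow_one]
    have := (h.hw x).ne'
    field_simp
  set T := op (E := E) (p := p) h.hw hp (fun x y => r x * Gap.A w s n x y) with hT
  refine ⟨T, ?_, ?_, ?_⟩
  · intro x y hxy g hg
    rw [ae_nu h.hw] at hg ⊢
    intro z hz
    rw [hT, ev_op]
    refine Finset.sum_eq_zero fun y' _ => ?_
    by_cases hy' : y'.1 ∈ ({x} : Set X)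
    · have h1 : Gap.A w s n z y' = 0 := by
        by_contra hA
        have h2 := Gap.A_supp h n hA
        have h3 : dist z y' = dist x y := by
          show dist z.1 y'.1 = dist x y
          rw [Set.mem_singleton_iff] at hz hy'
          rw [hz, hy', dist_comm]
        rw [h3] at h2
        exact absurd h2 (not_le.2 hxy)
      rw [h1, mul_zero, zero_smul]
    · rw [hg y' hy', smul_zero]
  · have h1 := T.le_opNorm (cst e)
    have h2 := Real.rpow_le_rpow (norm_nonneg _) h1 hpr.le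
    rw [Real.mul_rpow (norm_nonneg _) (norm_nonneg _), norm_nu h.hw hp, norm_nu h.hw hp] at h2
    have h3 : ∑ x : F, w x * ‖(T (cst e)) x.1‖ ^ p.toReal = (∑ x, μ x) * ‖e‖ ^ p.toReal := by
      rw [Finset.sum_mul]
      refine Finset.sum_congr rfl fun x _ => ?_
      rw [hT, ev_op]
      simp only [ev_cst h.hw hp]
      rw [← Finset.sum_smul, ← Finset.mul_sum, Gap.A_one hn, mul_one, norm_smul,
        Real.norm_of_nonneg (hr0 x), Real.mul_rpow (hr0 x) (norm_nonneg _), ← mul_assoc, hrp]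
    have h4 : ∑ x : F, w x * ‖(cst e : Lp E p (nu F w)) x.1‖ ^ p.toReal =
        (∑ x, w x) * ‖e‖ ^ p.toReal := by
      rw [Finset.sum_mul]
      refine Finset.sum_congr rfl fun x _ => ?_
      rw [ev_cst h.hw hp]
    rw [h3, h4, ← mul_assoc] at h2
    have h5 : 0 < ‖e‖ ^ p.toReal := Real.rpow_pos_of_pos (norm_pos_iff.2 he) _
    exact le_of_mul_le_mul_right h2 h5
  · rintro ξ ⟨B, hB, hξ⟩
    rw [ae_nu h.hw] at hξ
    rw [norm_nu h.hw hp, norm_nu h.hw hp]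
    have hloc : Gap.Loc (fun x : F => ‖ξ x.1‖) D := by
      intro a b ha hb
      have h1 : a.1 ∈ B := by
        by_contra h2
        exact ha (by simp [hξ a h2])
      have h3 : b.1 ∈ B := by
        by_contra h2
        exact hb (by simp [hξ b h2])
      exact hB _ h1 _ h3
    have h1 := Gap.Q_p h hn (g := fun x : F => ‖ξ x.1‖) (fun x => norm_nonneg _) hloc hD hp1
    refine le_trans (Finset.sum_le_sum fun x _ => ?_) h1
    have h2 : ‖(T ξ) x.1‖ ≤ r x * Gap.Q w s n (fun x : F => ‖ξ x.1‖) x := by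
      rw [hT, ev_op]
      refine (norm_sum_le _ _).trans ?_
      unfold Gap.Q
      rw [Finset.mul_sum]
      refine Finset.sum_le_sum fun y _ => ?_
      rw [norm_smul, Real.norm_of_nonneg (mul_nonneg (hr0 x) (Gap.A_nonneg h n x y)), mul_assoc]
    have h3 := Real.rpow_le_rpow (norm_nonneg _) h2 hpr.le
    rw [Real.mul_rpow (hr0 x) (Gap.Q_nonneg h n (fun x => norm_nonneg _) x)] at h3
    calc w x * ‖(T ξ) x.1‖ ^ p.toReal ≤
        w x * (r x ^ p.toReal * Gap.Q w s n (fun x : F => ‖ξ x.1‖) x ^ p.toReal) :=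
          mul_le_mul_of_nonneg_left h3 (h.hw x).le
      _ = μ x * Gap.Q w s n (fun x : F => ‖ξ x.1‖) x ^ p.toReal := by
          rw [← mul_assoc, hrp]

theorem isOpen_sing (hbg : ∀ R : ℝ, 0 < R → ∃ N : ℕ, ∀ x : X,
      (Metric.ball x R).Finite ∧ (Metric.ball x R).ncard ≤ N) (x : X) : IsOpen ({x} : Set X) := by
  obtain ⟨N, hN⟩ := hbg 1 one_pos
  have h1 : IsOpen (Metric.ball x 1 \ (Metric.ball x 1 \ {x})) := by
    apply Metric.isOpen_ball.sdiff
    exact ((hN x).1.subset Set.sdiff_subset).isClosed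
  have h2 : Metric.ball x 1 \ (Metric.ball x 1 \ {x}) = {x} := by
    ext y
    simp only [Set.mem_sdiff, Set.mem_singleton_iff, not_and, not_not]
    constructor
    · rintro ⟨h3, h4⟩
      exact h4 h3
    · rintro rfl
      exact ⟨Metric.mem_ball_self one_pos, fun _ => rfl⟩
  rwa [h2] at h1

theorem onl_imp_A [Nontrivial E]
    (hbg : ∀ R : ℝ, 0 < R → ∃ N : ℕ, ∀ x : X,
      (Metric.ball x R).Finite ∧ (Metric.ball x R).ncard ≤ N)
    (hp : p ≠ ⊤) (hp1 : p ≠ 1)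
    (honl : ∃ c : ℝ, 0 < c ∧ c ≤ 1 ∧ ∃ f : ℕ → ℕ, Monotone f ∧
        ∀ (ν : Measure X) [IsLocallyFiniteMeasure ν], ν ≠ 0 → ∀ r : ℕ,
          ∀ T : Lp E p ν →L[ℝ] Lp E p ν,
            (∀ x y : X, (r : ℝ) < dist x y →
              ∃ U V : Set X, IsOpen U ∧ IsOpen V ∧ x ∈ U ∧ y ∈ V ∧
                ∀ g : Lp E p ν,
                  (∀ᵐ z ∂ν, z ∉ U → ⇑g z = 0) → ∀ᵐ z ∂ν, z ∈ V → ⇑(T g) z = 0) →
            ∃ ξ : Lp E p ν, ξ ≠ 0 ∧
              (∃ S : Set X, (∀ a ∈ S, ∀ b ∈ S, dist a b ≤ (f r : ℝ)) ∧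
                ∀ᵐ z ∂ν, z ∉ S → ⇑ξ z = 0) ∧
              c * ‖T‖ * ‖ξ‖ ≤ ‖T ξ‖) :
    (∀ R : ℝ, 0 < R → ∀ ε : ℝ, 0 < ε →
        ∃ S : ℝ, ∃ A : X → Set (X × ℕ),
          (∀ x, (A x).Finite) ∧ (∀ x, (x, 0) ∈ A x) ∧
          (∀ x, ∀ w ∈ A x, dist w.1 x ≤ S) ∧
          ∀ x y, dist x y < R →
            ((symmDiff (A x) (A y)).ncard : ℝ) < ε * ((A x ∩ A y).ncard : ℝ)) := by
  classical
  intro R hR ε hε
  obtain ⟨c, hc0, hc1, f, -, honl⟩ := honl
  have hp1' : 1 ≤ p := Fact.out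
  have hpr : 1 < p.toReal := by
    have h1 : 1 < p := lt_of_le_of_ne hp1' (Ne.symm hp1)
    have h2 := (ENNReal.toReal_lt_toReal ENNReal.one_ne_top hp).2 h1
    simpa using h2
  have hpr0 : 0 < p.toReal := by linarith
  set δ := min ε 1 / 16 with hδ
  have hδ0 : 0 < δ := by
    have := lt_min hε (one_pos (α := ℝ))
    positivity
  -- choice of `n`
  have hθ : 0 < c ^ p.toReal / (1 + 4 / δ) := by positivity
  obtain ⟨n, hn0, hn⟩ : ∃ n : ℕ, 0 < n ∧ Gap.gain p.toReal n < c ^ p.toReal / (1 + 4 / δ) := by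
    have h1 := (Gap.gain_tendsto hpr).eventually (gt_mem_nhds hθ)
    obtain ⟨n, h2, h3⟩ := (h1.and (Filter.eventually_gt_atTop 0)).exists
    exact ⟨n, h3, h2⟩
  obtain ⟨r, hr⟩ := exists_nat_ge (n * R)
  set S : ℝ := f r + 2 * (n * R) with hS
  have hS0 : 0 ≤ S := by positivity
  refine ⟨S, ?_⟩
  apply PA.propA_of_feas hbg hε hS0 (δ := δ) (by rw [hδ]; linarith)
  intro F
  by_contra hF
  obtain ⟨F', w, μ, s, hdata, hpos, hmass⟩ := Tr.data_of_not_feas hδ0 hR.le hF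
  obtain ⟨e, he⟩ := exists_ne (0 : E)
  obtain ⟨T, hT1, hT2, hT3⟩ := bad_op (E := E) (p := p) hdata hn0 (D := f r) le_rfl hp hpr he
  have hne : F'.Nonempty := by
    by_contra h0
    rw [Finset.not_nonempty_iff_eq_empty] at h0
    subst h0
    simp at hpos
  obtain ⟨ξ, hξ0, hξ1, hξ2⟩ := honl (nu F' w) (nu_ne_zero hdata.hw hne) r T (by
    intro x y hxy
    refine ⟨{x}, {y}, isOpen_sing hbg x, isOpen_sing hbg y, rfl, rfl, ?_⟩
    exact hT1 x y (lt_of_le_of_lt hr hxy))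
  have h1 := hT3 ξ hξ1
  have h2 := Real.rpow_le_rpow (by positivity) hξ2 hpr0.le
  rw [Real.mul_rpow (by positivity) (norm_nonneg _), Real.mul_rpow hc0.le (norm_nonneg _)] at h2
  have h3 : 0 < ‖ξ‖ ^ p.toReal := Real.rpow_pos_of_pos (norm_pos_iff.2 hξ0) _
  have h4 : c ^ p.toReal * ‖T‖ ^ p.toReal ≤ Gap.gain p.toReal n :=
    le_of_mul_le_mul_right (h2.trans h1) h3
  have h5 : 0 < 1 + 4 / δ := by positivity
  have h6 : 1 ≤ ‖T‖ ^ p.toReal * (1 + 4 / δ) := by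
    have h7 : ∑ x, μ x ≤ (‖T‖ ^ p.toReal * (1 + 4 / δ)) * ∑ x, μ x := by
      refine hT2.trans ?_
      rw [mul_assoc]
      exact mul_le_mul_of_nonneg_left hmass (Real.rpow_nonneg (norm_nonneg _) _)
    by_contra h8
    push Not at h8
    have := mul_lt_mul_of_pos_right h8 hpos
    linarith
  have h7 : c ^ p.toReal / (1 + 4 / δ) ≤ c ^ p.toReal * ‖T‖ ^ p.toReal := by
    rw [div_le_iff₀ h5, mul_assoc]
    have h8 : 0 ≤ c ^ p.toReal := Real.rpow_nonneg hc0.le _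
    nlinarith
  linarith

end Pool.Agent.T6.H58.NoLoc
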