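import Mathlib

/-!
The operator norm localization property for `p = 1`: every bounded operator on `L¹` of a countable
space with locally finite measure almost attains its norm on functions supported at one point.
-/

set_option autoImplicit false

open MeasureTheory Filter Topology Set
open scoped ENNReal symmDiff

namespace Pool.Agent.T6.H58.OnlOne

variable {X : Type*} [MetricSpace X] [MeasurableSpace X] [BorelSpace X] [Countable X]
  {E : Type*} [NormedAddCommGroup E] [NormedSpace ℝ E]

theorem sing_ne_top (ν : Measure X) [IsLocallyFiniteMeasure ν] (x : X) : ν {x} ≠ ∞ :=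
  (isCompact_singleton.measure_lt_top).ne

theorem norm_add_disjoint {ν : Measure X} {f g : X → E} (hf : MemLp f 1 ν) (hg : MemLp g 1 ν)
    (h : Disjoint (Function.support f) (Function.support g)) :
    ‖hf.toLp f + hg.toLp g‖ = ‖hf.toLp f‖ + ‖hg.toLp g‖ := by
  rw [← MemLp.toLp_add, Lp.norm_toLp, Lp.norm_toLp, Lp.norm_toLp,
    ← ENNReal.toReal_add hf.eLpNorm_ne_top hg.eLpNorm_ne_top]
  congr 1
  rw [eLpNorm_one_eq_lintegral_enorm, eLpNorm_one_eq_lintegral_enorm,
    eLpNorm_one_eq_lintegral_enorm, ← lintegral_add_left' hf.1.enorm]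
  apply lintegral_congr
  intro x
  simp only [Pi.add_apply]
  by_cases hx : f x = 0
  · simp [hx]
  · have : g x = 0 := by
      by_contra hgx
      exact Set.disjoint_left.1 h hx hgx
    simp [this]

theorem bound {ν : Measure X} [IsLocallyFiniteMeasure ν] (T : Lp E 1 ν →L[ℝ] Lp E 1 ν) (C : ℝ)
    (hC : ∀ (x : X) (c : E), ‖T (indicatorConstLp 1 (measurableSet_singleton x) (sing_ne_top ν x) c)‖ ≤
      C * ‖indicatorConstLp 1 (measurableSet_singleton x) (sing_ne_top ν x) c‖) (g : Lp E 1 ν) :
    ‖T g‖ ≤ C * ‖g‖ := by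
  have hfinset : ∀ (t : Finset X), ν (t : Set X) ≠ ∞ := fun t => (t.finite_toSet.isCompact.measure_lt_top).ne
  have hfs : ∀ (c : E) (t : Finset X),
      ‖T (indicatorConstLp 1 t.measurableSet (hfinset t) c)‖ ≤
        C * ‖indicatorConstLp 1 t.measurableSet (hfinset t) c‖ := by
    classical
    intro c t
    induction t using Finset.induction_on with
    | empty =>
      have : (indicatorConstLp 1 (∅ : Finset X).measurableSet (hfinset ∅) c : Lp E 1 ν) = 0 := by
        have e : ((∅ : Finset X) : Set X) = ∅ := Finset.coe_empty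
        rw [← indicatorConstLp_empty (p := 1) (μ := ν) (c := c)]
        congr 1
      rw [this]
      simp
    | insert a s ha ih =>
      have hd : Disjoint ({a} : Set X) (s : Set X) := by
        rw [Set.disjoint_singleton_left]
        simpa using ha
      have e : (indicatorConstLp 1 (insert a s).measurableSet (hfinset (insert a s)) c : Lp E 1 ν) =
          indicatorConstLp 1 (measurableSet_singleton a) (sing_ne_top ν a) c +
          indicatorConstLp 1 s.measurableSet (hfinset s) c := by
        rw [← indicatorConstLp_disjoint_union (measurableSet_singleton a) s.measurableSet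
          (sing_ne_top ν a) (hfinset s) hd c]
        congr 1
        rw [Finset.coe_insert, Set.insert_eq]
      have e2 : ‖indicatorConstLp 1 (measurableSet_singleton a) (sing_ne_top ν a) c +
          indicatorConstLp 1 s.measurableSet (hfinset s) c‖ =
          ‖indicatorConstLp 1 (measurableSet_singleton a) (sing_ne_top ν a) c‖ +
          ‖indicatorConstLp 1 s.measurableSet (hfinset s) c‖ := by
        refine norm_add_disjoint (memLp_indicator_const 1 (measurableSet_singleton a) c (Or.inr (sing_ne_top ν a)))
          (memLp_indicator_const 1 s.measurableSet c (Or.inr (hfinset s))) ?_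
        exact hd.mono Set.support_indicator_subset Set.support_indicator_subset
      rw [e, map_add, e2]
      calc _ ≤ _ := norm_add_le _ _
        _ ≤ _ := add_le_add (hC a c) ih
        _ = _ := by ring
  refine Lp.induction (by simp) (motive := fun g : Lp E 1 ν => ‖T g‖ ≤ C * ‖g‖) ?_ ?_ ?_ g
  · intro c s hs hμs
    rw [Lp.simpleFunc.coe_indicatorConst]
    -- exhaust s by finite sets
    obtain ⟨f, hf⟩ := exists_injective_nat X
    have hfin : ∀ n : ℕ, (s ∩ {x | f x < n}).Finite := fun n =>
      Set.Finite.inter_of_right (Set.Finite.of_finite_image ((Set.finite_lt_nat n).subset (by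
        rintro _ ⟨x, hx, rfl⟩; exact hx)) hf.injOn) s
    let t : ℕ → Finset X := fun n => (hfin n).toFinset
    have ht : ∀ n, (t n : Set X) = s ∩ {x | f x < n} := fun n => (hfin n).coe_toFinset
    have hlim : Tendsto (fun n => indicatorConstLp 1 (t n).measurableSet (hfinset (t n)) c) atTop
        (𝓝 (indicatorConstLp 1 hs hμs.ne c : Lp E 1 ν)) := by
      apply tendsto_indicatorConstLp_set (by simp)
      have e : ∀ n, (t n : Set X) ∆ s = s ∩ {x | n ≤ f x} := by
        intro n
        rw [ht]
        ext x
        simp only [Set.mem_symmDiff, Set.mem_inter_iff, Set.mem_setOf_eq]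
        constructor
        · rintro (⟨⟨h1, -⟩, h2⟩ | ⟨h1, h2⟩)
          · exact absurd h1 h2
          · refine ⟨h1, ?_⟩
            by_contra h3
            exact h2 ⟨h1, not_le.1 h3⟩
        · rintro ⟨h1, h2⟩
          right
          exact ⟨h1, fun h3 => absurd h3.2 (not_lt.2 h2)⟩
      simp only [e]
      have h1 : Tendsto (fun n : ℕ => ν (s ∩ {x | n ≤ f x})) atTop
          (𝓝 (ν (⋂ n : ℕ, s ∩ {x | n ≤ f x}))) := by
        apply tendsto_measure_iInter_atTop
        · intro n
          exact (Set.to_countable _).measurableSet.nullMeasurableSet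
        · intro m n hmn x hx
          exact ⟨hx.1, le_trans hmn hx.2⟩
        · exact ⟨0, (lt_of_le_of_lt (measure_mono Set.inter_subset_left) hμs).ne⟩
      have h2 : (⋂ n : ℕ, s ∩ {x | n ≤ f x}) = ∅ := by
        ext x
        simp only [Set.mem_iInter, Set.mem_inter_iff, Set.mem_setOf_eq, Set.mem_empty_iff_false,
          iff_false, not_forall]
        exact ⟨f x + 1, fun h => by have := h.2; omega⟩
      rwa [h2, measure_empty] at h1
    refine le_of_tendsto_of_tendsto' ((T.continuous.tendsto _).comp hlim).norm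
      (hlim.norm.const_mul C) fun n => hfs c (t n)
  · intro f g hf hg hd h1 h2
    rw [map_add, norm_add_disjoint hf hg hd]
    calc _ ≤ _ := norm_add_le _ _
      _ ≤ _ := add_le_add h1 h2
      _ = _ := by ring
  · exact isClosed_le (T.continuous.norm) (continuous_const.mul continuous_norm)

/-- The operator norm localization property for `p = 1`. -/
theorem onl_one [Nontrivial E] (ν : Measure X) [IsLocallyFiniteMeasure ν] (hν : ν ≠ 0)
    (T : Lp E 1 ν →L[ℝ] Lp E 1 ν) :
    ∃ ξ : Lp E 1 ν, ξ ≠ 0 ∧ (∃ x : X, ∀ᵐ z ∂ν, z ∉ ({x} : Set X) → ξ z = 0) ∧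
      1 / 2 * ‖T‖ * ‖ξ‖ ≤ ‖T ξ‖ := by
  by_contra hcon
  push Not at hcon
  have hsupp : ∀ (x : X) (c : E), ∀ᵐ z ∂ν, z ∉ ({x} : Set X) →
      (indicatorConstLp 1 (measurableSet_singleton x) (sing_ne_top ν x) c : Lp E 1 ν) z = 0 := by
    intro x c
    filter_upwards [indicatorConstLp_coeFn (p := 1) (hs := measurableSet_singleton x)
      (hμs := sing_ne_top ν x) (c := c)] with z hz hzx
    rw [hz, Set.indicator_of_notMem hzx]
  have hC : ∀ (x : X) (c : E),
      ‖T (indicatorConstLp 1 (measurableSet_singleton x) (sing_ne_top ν x) c)‖ ≤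
      1 / 2 * ‖T‖ * ‖indicatorConstLp 1 (measurableSet_singleton x) (sing_ne_top ν x) c‖ := by
    intro x c
    by_cases h0 : (indicatorConstLp 1 (measurableSet_singleton x) (sing_ne_top ν x) c : Lp E 1 ν) = 0
    · rw [h0]; simp
    · exact (hcon _ h0 ⟨x, hsupp x c⟩).le
  have hb := T.opNorm_le_bound (by positivity) (bound T _ hC)
  have hT : ‖T‖ = 0 := by
    have := norm_nonneg T
    linarith
  -- a point of positive measure
  obtain ⟨x, hx⟩ : ∃ x, ν {x} ≠ 0 := by
    by_contra h
    push Not at h
    apply hν
    rw [← Measure.measure_univ_eq_zero]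
    rw [← Set.biUnion_of_singleton (Set.univ : Set X)]
    exact (measure_biUnion_null_iff (Set.to_countable _)).2 fun x _ => h x
  obtain ⟨c, hc⟩ := exists_ne (0 : E)
  have hne : (indicatorConstLp 1 (measurableSet_singleton x) (sing_ne_top ν x) c : Lp E 1 ν) ≠ 0 := by
    rw [← norm_ne_zero_iff, norm_indicatorConstLp (by simp) (by simp)]
    have h1 : ν.real {x} ≠ 0 := (ENNReal.toReal_ne_zero).2 ⟨hx, sing_ne_top ν x⟩
    simp [h1, hc]
  have := hcon _ hne ⟨x, hsupp x c⟩
  rw [hT] at this
  simp only [mul_zero, zero_mul] at this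
  exact absurd this (not_lt.2 (norm_nonneg _))

end Pool.Agent.T6.H58.OnlOne
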