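import Mathlib

/-!
# Counting polynomials with a given value (for MP_be1fae_nt, RandomPolynomials)
-/

set_option autoImplicit false

namespace Pool.Agent.T6.H58.RP

open Finset

theorem card_class (H m : ℕ) (hm : 0 < m) (a : ℤ) :
    #{x ∈ Icc (-(H : ℤ)) H | (m : ℤ) ∣ a - x} ≤ 2 * H / m + 1 := by
  have hm' : (0 : ℤ) < m := by exact_mod_cast hm
  have h : #{x ∈ Icc (-(H : ℤ)) H | (m : ℤ) ∣ a - x} ≤ (range (2 * H / m + 1)).card := by
    apply card_le_card_of_injOn (fun x : ℤ => ((x + (H : ℤ)) / (m : ℤ)).toNat)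
    · intro x hx
      have hx' := (mem_filter.1 (mem_coe.1 hx)).1
      rw [mem_Icc] at hx'
      rw [mem_coe, mem_range, Nat.lt_succ_iff]
      have h1 : (x + (H : ℤ)) / (m : ℤ) ≤ (2 * (H : ℤ)) / (m : ℤ) :=
        Int.ediv_le_ediv hm' (by linarith)
      have h2 : ((2 * H / m : ℕ) : ℤ) = (2 * (H : ℤ)) / (m : ℤ) := by push_cast; rfl
      rw [← h2] at h1
      show ((x + (H : ℤ)) / (m : ℤ)).toNat ≤ 2 * H / m
      exact Int.toNat_le.2 h1
    · intro x hx y hy hxy
      have hx' := mem_filter.1 (mem_coe.1 hx)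
      have hy' := mem_filter.1 (mem_coe.1 hy)
      have hx1 := mem_Icc.1 hx'.1
      have hy1 := mem_Icc.1 hy'.1
      have h0x : 0 ≤ (x + H) / (m : ℤ) := Int.ediv_nonneg (by linarith) hm'.le
      have h0y : 0 ≤ (y + H) / (m : ℤ) := Int.ediv_nonneg (by linarith) hm'.le
      have hq : (x + H) / (m : ℤ) = (y + H) / (m : ℤ) := by
        have hxy' : ((x + H) / (m : ℤ)).toNat = ((y + H) / (m : ℤ)).toNat := hxy
        omega
      have hd : (m : ℤ) ∣ (x + H) - (y + H) := by
        have := dvd_sub hy'.2 hx'.2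
        have e : a - y - (a - x) = (x + H) - (y + H) := by ring
        rwa [e] at this
      have hr : (x + H) % (m : ℤ) = (y + H) % (m : ℤ) := by
        rw [Int.emod_eq_emod_iff_emod_sub_eq_zero]
        exact Int.emod_eq_zero_of_dvd hd
      have e1 := Int.emod_add_mul_ediv (x + H) (m : ℤ)
      have e2 := Int.emod_add_mul_ediv (y + H) (m : ℤ)
      rw [hq, hr] at e1
      linarith
  simpa using h

/-- the box of coefficient vectors -/
noncomputable def cbox (κ : Type*) [Fintype κ] [DecidableEq κ] (H : ℕ) : Finset (κ → ℤ) :=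
  Fintype.piFinset fun _ : κ => Icc (-(H : ℤ)) H

theorem mem_cbox {κ : Type*} [Fintype κ] [DecidableEq κ] {H : ℕ} {c : κ → ℤ} :
    c ∈ cbox κ H ↔ ∀ k, -(H : ℤ) ≤ c k ∧ c k ≤ H := by
  simp [cbox, Fintype.mem_piFinset]

theorem card_Icc (H : ℕ) : #(Icc (-(H : ℤ)) H) = 2 * H + 1 := by
  rw [Int.card_Icc]; omega

theorem card_cbox (κ : Type*) [Fintype κ] [DecidableEq κ] (H : ℕ) :
    #(cbox κ H) = (2 * H + 1) ^ Fintype.card κ := by
  unfold cbox
  rw [Fintype.card_piFinset]
  simp only [card_Icc, prod_const, card_univ]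

theorem card_poly (H : ℕ) (T : ℤ) (hT : T ≠ 0) (d : ℕ) : ∀ A : ℤ,
    #{v ∈ cbox (Fin (d + 1)) H | ∑ j : Fin (d + 1), v j * T ^ (j : ℕ) = A} ≤ (2 * H / T.natAbs + 1) ^ d := by
  induction d with
  | zero =>
    intro A
    rw [pow_zero, card_le_one]
    intro v hv w hw
    have h1 := (mem_filter.1 hv).2
    have h2 := (mem_filter.1 hw).2
    simp at h1 h2
    funext j
    have hj : j = 0 := Fin.ext (by omega)
    rw [hj, h1, h2]
  | succ d ih =>
    intro A
    have hTn : 0 < T.natAbs := Int.natAbs_pos.2 hT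
    set S := {v ∈ cbox (Fin (d + 1 + 1)) H | ∑ j : Fin (d + 1 + 1), v j * T ^ (j : ℕ) = A} with hS
    have hsum : ∀ v : Fin (d + 1 + 1) → ℤ, ∑ j : Fin (d + 1 + 1), v j * T ^ (j : ℕ) =
        v 0 + T * ∑ j : Fin (d + 1), v j.succ * T ^ (j : ℕ) := by
      intro v
      rw [Fin.sum_univ_succ, mul_sum]
      simp only [Fin.val_zero, pow_zero, mul_one, Fin.val_succ]
      congr 1
      apply sum_congr rfl
      intro j _
      ring
    have himg : S.image (fun v => v 0) ⊆ {x ∈ Icc (-(H : ℤ)) H | (T.natAbs : ℤ) ∣ A - x} := by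
      intro x hx
      obtain ⟨v, hv, rfl⟩ := mem_image.1 hx
      have h1 := mem_filter.1 hv
      rw [mem_filter, mem_Icc]
      refine ⟨mem_cbox.1 h1.1 0, ?_⟩
      rw [Int.natAbs_dvd]
      refine ⟨∑ j : Fin (d + 1), v j.succ * T ^ (j : ℕ), ?_⟩
      rw [← h1.2, hsum v]
      ring
    have hfib : ∀ x ∈ S.image (fun v => v 0), #{v ∈ S | v 0 = x} ≤
        (2 * H / T.natAbs + 1) ^ d := by
      intro x hx
      refine le_trans ?_ (ih ((A - x) / T))
      apply card_le_card_of_injOn (fun v => fun j : Fin (d + 1) => v j.succ)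
      · intro v hv
        have h1 := mem_filter.1 (mem_coe.1 hv)
        have h2 := mem_filter.1 h1.1
        rw [mem_coe, mem_filter, mem_cbox]
        refine ⟨fun k => mem_cbox.1 h2.1 k.succ, ?_⟩
        have h3 := h2.2
        rw [hsum v, h1.2] at h3
        have h4 : A - x = T * ∑ j : Fin (d + 1), v j.succ * T ^ (j : ℕ) := by rw [← h3]; ring
        rw [h4, Int.mul_ediv_cancel_left _ hT]
      · intro v hv w hw hvw
        have h1 := mem_filter.1 (mem_coe.1 hv)
        have h2 := mem_filter.1 (mem_coe.1 hw)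
        funext j
        refine Fin.cases ?_ (fun k => ?_) j
        · rw [h1.2, h2.2]
        · exact congrFun hvw k
    calc #S ≤ (2 * H / T.natAbs + 1) ^ d * #(S.image (fun v => v 0)) :=
          card_le_mul_card_image _ _ hfib
      _ ≤ (2 * H / T.natAbs + 1) ^ d * (2 * H / T.natAbs + 1) :=
          Nat.mul_le_mul_left _ ((card_le_card himg).trans (card_class H _ hTn A))
      _ = (2 * H / T.natAbs + 1) ^ (d + 1) := (pow_succ _ _).symm

theorem card_gen {κ : Type*} [Fintype κ] [DecidableEq κ] (H : ℕ) (w : κ → ℤ) (d : ℕ)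
    (e : Fin (d + 1) → κ) (he : Function.Injective e) (T : ℤ) (hT : T ≠ 0)
    (hw : ∀ j, w (e j) = T ^ (j : ℕ)) (A : ℤ) :
    #{c ∈ cbox κ H | ∑ k, c k * w k = A} * (2 * H + 1) ^ (d + 1) ≤
      (2 * H / T.natAbs + 1) ^ d * (2 * H + 1) ^ Fintype.card κ := by
  classical
  set S := {c ∈ cbox κ H | ∑ k, c k * w k = A} with hS
  set R : Finset κ := univ.map ⟨e, he⟩ with hR
  set f : (κ → ℤ) → (κ → ℤ) := fun c k => if k ∈ R then 0 else c k with hf
  have hcR : #R = d + 1 := by rw [hR, card_map, card_univ, Fintype.card_fin]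
  have himg : S.image f ⊆ Fintype.piFinset
      (fun k : κ => if k ∈ R then ({0} : Finset ℤ) else Icc (-(H : ℤ)) H) := by
    intro x hx
    obtain ⟨v, hv, rfl⟩ := mem_image.1 hx
    have h1 := mem_cbox.1 (mem_filter.1 hv).1
    rw [Fintype.mem_piFinset]
    intro k
    by_cases hk : k ∈ R
    · simp [hf, hk]
    · simp only [hf, hk, if_false]
      rw [mem_Icc]
      exact h1 k
  have hcard : #(Fintype.piFinset
      (fun k : κ => if k ∈ R then ({0} : Finset ℤ) else Icc (-(H : ℤ)) H)) * (2 * H + 1) ^ (d + 1) =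
      (2 * H + 1) ^ Fintype.card κ := by
    rw [Fintype.card_piFinset]
    have e1 : ∀ k : κ, #(if k ∈ R then ({0} : Finset ℤ) else Icc (-(H : ℤ)) H) =
        if k ∈ R then 1 else (2 * H + 1) := by
      intro k
      by_cases hk : k ∈ R
      · simp [hk]
      · rw [if_neg hk, if_neg hk, card_Icc]
    simp only [e1]
    rw [prod_ite, prod_const_one, one_mul, prod_const, ← pow_add]
    congr 1
    have h3 := card_filter_add_card_filter_not (s := (univ : Finset κ)) (fun k => k ∈ R)
    have h2 : #{k | k ∈ R} = d + 1 := by rw [filter_mem_eq_inter, univ_inter, hcR]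
    rw [card_univ] at h3
    omega
  have hfib : ∀ b ∈ S.image f, #{c ∈ S | f c = b} ≤ (2 * H / T.natAbs + 1) ^ d := by
    intro b _
    refine le_trans ?_ (card_poly H T hT d (A - ∑ k, b k * w k))
    apply card_le_card_of_injOn (fun c => fun j => c (e j))
    · intro c hc
      have h1 := mem_filter.1 (mem_coe.1 hc)
      have h2 := mem_filter.1 h1.1
      rw [mem_coe, mem_filter, mem_cbox]
      refine ⟨fun k => mem_cbox.1 h2.1 (e k), ?_⟩
      have h3 : ∑ k, c k * w k = ∑ j : Fin (d + 1), c (e j) * T ^ (j : ℕ) + ∑ k, b k * w k := by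
        have h4 : ∀ k, c k * w k = (if k ∈ R then c k * w k else 0) + b k * w k := by
          intro k
          rw [← h1.2]
          by_cases hk : k ∈ R <;> simp [hf, hk]
        rw [sum_congr rfl (fun k _ => h4 k), sum_add_distrib]
        congr 1
        rw [← sum_filter, filter_mem_eq_inter, univ_inter, hR, sum_map]
        apply sum_congr rfl
        intro j _
        simp only [Function.Embedding.coeFn_mk, hw]
      rw [← h2.2, h3]
      ring
    · intro c hc c' hc' hcc
      have h1 := (mem_filter.1 (mem_coe.1 hc)).2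
      have h2 := (mem_filter.1 (mem_coe.1 hc')).2
      funext k
      by_cases hk : k ∈ R
      · rw [hR, mem_map] at hk
        obtain ⟨j, -, rfl⟩ := hk
        exact congrFun hcc j
      · have h3 : f c k = f c' k := by rw [h1, h2]
        simpa only [hf, hk, if_false] using h3
  calc #S * (2 * H + 1) ^ (d + 1) ≤
        ((2 * H / T.natAbs + 1) ^ d * #(S.image f)) * (2 * H + 1) ^ (d + 1) :=
        Nat.mul_le_mul_right _ (card_le_mul_card_image _ _ hfib)
    _ ≤ ((2 * H / T.natAbs + 1) ^ d * #(Fintype.piFinset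
      (fun k : κ => if k ∈ R then ({0} : Finset ℤ) else Icc (-(H : ℤ)) H))) *
        (2 * H + 1) ^ (d + 1) :=
        Nat.mul_le_mul_right _ (Nat.mul_le_mul_left _ (card_le_card himg))
    _ = (2 * H / T.natAbs + 1) ^ d * (2 * H + 1) ^ Fintype.card κ := by rw [mul_assoc, hcard]

end Pool.Agent.T6.H58.RP
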