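import Pool.Agent.T6.H58.RP1

/-!
# Counting polynomials with a given value, II (for MP_be1fae_nt, RandomPolynomials)
-/

set_option autoImplicit false

namespace Pool.Agent.T6.H58.RP

open Finset

/-- the largest absolute value of a coordinate -/
def nrm {r : ℕ} (t : Fin r → ℤ) : ℕ := univ.sup fun i => (t i).natAbs

theorem mem_tbox {r M : ℕ} {t : Fin r → ℤ} : t ∈ cbox (Fin r) M ↔ nrm t ≤ M := by
  rw [mem_cbox, nrm, Finset.sup_le_iff]
  constructor
  · intro h i _
    have := h i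
    omega
  · intro h i
    have := h i (mem_univ i)
    omega

theorem nrm_attained {r : ℕ} {t : Fin r → ℤ} (h : nrm t ≠ 0) : ∃ i, (t i).natAbs = nrm t := by
  have hne : (univ : Finset (Fin r)).Nonempty := by
    by_contra hc
    rw [not_nonempty_iff_eq_empty] at hc
    apply h
    unfold nrm
    rw [hc]
    rfl
  obtain ⟨i, -, hi⟩ := exists_mem_eq_sup univ hne (fun i => (t i).natAbs)
  exact ⟨i, hi.symm⟩

theorem card_le_sum {r : ℕ} (x : ℝ) (hx : 1 ≤ x) :
    (#(cbox (Fin r) ⌊x⌋₊) : ℝ) ≤ 3 ^ r * x ^ r := by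
  rw [card_cbox, Fintype.card_fin]
  push_cast
  rw [← mul_pow]
  apply pow_le_pow_left₀ (by positivity)
  have := Nat.floor_le (show 0 ≤ x by linarith)
  linarith

theorem scale (r : ℕ) (θ s c η : ℝ) (hθ : 0 ≤ θ) (hs : 0 ≤ s) (hη : 0 < η)
    (hc : ∀ τ : ℝ, 0 ≤ τ → τ ≤ θ → τ * r - s * min τ 1 ≤ c) :
    ∃ C : ℝ, 0 < C ∧ ∀ H : ℕ, 2 ≤ H → ∀ M : ℕ, (M : ℝ) ≤ (H : ℝ) ^ θ →
      ∑ t ∈ cbox (Fin r) M, (min (max (nrm t : ℝ) 1) (2 * (H : ℝ) + 1)) ^ (-s) ≤
        C * (H : ℝ) ^ (c + η * r) := by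
  classical
  set J : ℕ := ⌊θ / η⌋₊ with hJ
  refine ⟨((J : ℝ) + 1) * 3 ^ r, by positivity, ?_⟩
  intro H hH M hM
  have hH1 : (1 : ℝ) < H := by exact_mod_cast (by omega : 1 < H)
  have hH0 : (0 : ℝ) < H := by linarith
  have hone : (1 : ℝ) ≤ (H : ℝ) ^ θ := Real.one_le_rpow hH1.le hθ
  have hJθ : (J : ℝ) * η ≤ θ := by
    have := Nat.floor_le (show 0 ≤ θ / η by positivity)
    rw [← hJ, le_div_iff₀ hη] at this
    exact this
  have hjθ : ∀ j ∈ range (J + 1), (j : ℝ) * η ≤ θ := by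
    intro j hj
    have : j ≤ J := by rw [mem_range] at hj; omega
    have : (j : ℝ) ≤ J := by exact_mod_cast this
    nlinarith
  -- the value at the scale j
  set f : ℕ → ℝ := fun j => (H : ℝ) ^ (-s * min ((j : ℝ) * η) 1) with hf
  set B : ℕ → Finset (Fin r → ℤ) := fun j => cbox (Fin r) ⌊(H : ℝ) ^ (((j : ℝ) + 1) * η)⌋₊ with hB
  have hf0 : ∀ j, 0 ≤ f j := fun j => Real.rpow_nonneg hH0.le _
  have key : ∀ t ∈ cbox (Fin r) M, (min (max (nrm t : ℝ) 1) (2 * (H : ℝ) + 1)) ^ (-s) ≤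
      ∑ j ∈ range (J + 1), if t ∈ B j then f j else 0 := by
    intro t ht
    rw [mem_tbox] at ht
    set T : ℝ := max (nrm t : ℝ) 1 with hT
    have hT1 : 1 ≤ T := le_max_right _ _
    have hTθ : T ≤ (H : ℝ) ^ θ := max_le ((by exact_mod_cast ht : (nrm t : ℝ) ≤ M).trans hM) hone
    set x : ℝ := Real.logb H T with hx
    have hxT : (H : ℝ) ^ x = T := Real.rpow_logb hH0 hH1.ne' (by linarith)
    have hx0 : 0 ≤ x := Real.logb_nonneg hH1 hT1
    have hxθ : x ≤ θ := by
      rw [← hxT] at hTθ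
      exact (Real.rpow_le_rpow_left_iff hH1).1 hTθ
    set j : ℕ := ⌊x / η⌋₊ with hj
    have hj1 : (j : ℝ) * η ≤ x := by
      have := Nat.floor_le (show 0 ≤ x / η by positivity)
      rw [← hj, le_div_iff₀ hη] at this
      exact this
    have hj2 : x < ((j : ℝ) + 1) * η := by
      have := Nat.lt_floor_add_one (x / η)
      rw [← hj, div_lt_iff₀ hη] at this
      exact this
    have hjJ : j ∈ range (J + 1) := by
      rw [mem_range, Nat.lt_succ_iff]
      exact Nat.floor_le_floor (div_le_div_of_nonneg_right hxθ hη.le)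
    have htB : t ∈ B j := by
      rw [hB]
      show t ∈ cbox (Fin r) _
      rw [mem_tbox]
      apply Nat.le_floor
      have h1 : (nrm t : ℝ) ≤ T := le_max_left _ _
      rw [← hxT] at h1
      exact h1.trans ((Real.rpow_le_rpow_left_iff hH1).2 hj2.le)
    have hfj : (min T (2 * (H : ℝ) + 1)) ^ (-s) ≤ f j := by
      have h1 : (H : ℝ) ^ (min ((j : ℝ) * η) 1) ≤ min T (2 * (H : ℝ) + 1) := by
        apply le_min
        · rw [← hxT]
          exact (Real.rpow_le_rpow_left_iff hH1).2 ((min_le_left _ _).trans hj1)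
        · calc (H : ℝ) ^ (min ((j : ℝ) * η) 1) ≤ (H : ℝ) ^ (1 : ℝ) :=
                (Real.rpow_le_rpow_left_iff hH1).2 (min_le_right _ _)
            _ = H := Real.rpow_one _
            _ ≤ 2 * (H : ℝ) + 1 := by linarith
      have h2 := Real.rpow_le_rpow_of_nonpos (z := -s)
        (Real.rpow_pos_of_pos hH0 (min ((j : ℝ) * η) 1)) h1 (by linarith)
      refine h2.trans (le_of_eq ?_)
      rw [hf, ← Real.rpow_mul hH0.le]
      congr 1
      ring
    calc (min T (2 * (H : ℝ) + 1)) ^ (-s) ≤ f j := hfj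
      _ = if t ∈ B j then f j else 0 := by rw [if_pos htB]
      _ ≤ ∑ j ∈ range (J + 1), if t ∈ B j then f j else 0 :=
          single_le_sum (f := fun j => if t ∈ B j then f j else 0)
            (fun j _ => by by_cases h : t ∈ B j <;> simp [h, hf0 j]) hjJ
  calc ∑ t ∈ cbox (Fin r) M, (min (max (nrm t : ℝ) 1) (2 * (H : ℝ) + 1)) ^ (-s)
      ≤ ∑ t ∈ cbox (Fin r) M, ∑ j ∈ range (J + 1), (if t ∈ B j then f j else 0) :=
        sum_le_sum key
    _ = ∑ j ∈ range (J + 1), ∑ t ∈ cbox (Fin r) M, (if t ∈ B j then f j else 0) := sum_comm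
    _ ≤ ∑ j ∈ range (J + 1), 3 ^ r * (H : ℝ) ^ (c + η * r) := by
        apply sum_le_sum
        intro j hj
        rw [sum_ite_mem, sum_const, nsmul_eq_mul]
        have h1 : (#(cbox (Fin r) M ∩ B j) : ℝ) ≤ #(B j) := by
          exact_mod_cast card_le_card inter_subset_right
        have hy : (1 : ℝ) ≤ (H : ℝ) ^ (((j : ℝ) + 1) * η) := Real.one_le_rpow hH1.le (by positivity)
        have h2 : (#(B j) : ℝ) ≤ 3 ^ r * ((H : ℝ) ^ (((j : ℝ) + 1) * η)) ^ r := card_le_sum _ hy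
        have h3 : ((H : ℝ) ^ (((j : ℝ) + 1) * η)) ^ r = (H : ℝ) ^ (((j : ℝ) + 1) * η * r) := by
          rw [← Real.rpow_natCast, ← Real.rpow_mul hH0.le]
        calc (#(cbox (Fin r) M ∩ B j) : ℝ) * f j
            ≤ (3 ^ r * (H : ℝ) ^ (((j : ℝ) + 1) * η * r)) * f j := by
              apply mul_le_mul_of_nonneg_right _ (hf0 j)
              rw [← h3]
              exact h1.trans h2
          _ = 3 ^ r * (H : ℝ) ^ (((j : ℝ) + 1) * η * r + -s * min ((j : ℝ) * η) 1) := by
              rw [hf, mul_assoc, ← Real.rpow_add hH0]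
          _ ≤ 3 ^ r * (H : ℝ) ^ (c + η * r) := by
              apply mul_le_mul_of_nonneg_left _ (by positivity)
              rw [Real.rpow_le_rpow_left_iff hH1]
              have h4 := hc ((j : ℝ) * η) (by positivity) (hjθ j hj)
              nlinarith
    _ = ((J : ℝ) + 1) * 3 ^ r * (H : ℝ) ^ (c + η * r) := by
        rw [sum_const, card_range, nsmul_eq_mul]
        push_cast
        ring

/-- the monomial with exponents `k` at the point `t` -/
def mon {r : ℕ} (t : Fin r → ℤ) (k : Fin r →₀ ℕ) : ℤ := k.prod fun i n => t i ^ n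

theorem count_val (r d : ℕ) (K : Finset (Fin r →₀ ℕ)) (h0 : 0 ∈ K)
    (hK : ∀ i, ∀ j ≤ d, Finsupp.single i j ∈ K) (H : ℕ) (t : Fin r → ℤ) (A : ℤ) :
    (#{c ∈ cbox K H | ∑ k : K, c k * mon t k.1 = A} : ℝ) ≤
      (2 * (H : ℝ) + 1) ^ #K * ((2 * (H : ℝ) + 1)⁻¹ *
        (2 / min (max (nrm t : ℝ) 1) (2 * (H : ℝ) + 1)) ^ d) := by
  classical
  set L : ℝ := 2 * (H : ℝ) + 1 with hL
  have hL1 : (1 : ℝ) ≤ L := by have : (0 : ℝ) ≤ H := Nat.cast_nonneg _; linarith
  have hL0 : (0 : ℝ) < L := by linarith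
  rcases Nat.eq_zero_or_pos (nrm t) with hn | hn
  · have h := card_gen (κ := K) H (fun k => mon t k.1) 0 (fun _ => ⟨0, h0⟩)
      (fun i j _ => Fin.ext (by omega)) 1 one_ne_zero (fun j => by simp [mon]) A
    rw [pow_zero, one_mul, zero_add, pow_one, Fintype.card_coe] at h
    have h' : (#{c ∈ cbox K H | ∑ k : K, c k * mon t k.1 = A} : ℝ) * L ≤ L ^ #K := by
      rw [hL]; exact_mod_cast h
    have h2 : (1 : ℝ) ≤ (2 / min (max (nrm t : ℝ) 1) L) ^ d := by
      apply one_le_pow₀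
      rw [hn, Nat.cast_zero, max_eq_right zero_le_one, min_eq_left hL1]
      norm_num
    calc (#{c ∈ cbox K H | ∑ k : K, c k * mon t k.1 = A} : ℝ)
        = ((#{c ∈ cbox K H | ∑ k : K, c k * mon t k.1 = A} : ℝ) * L) * L⁻¹ := by
          rw [mul_assoc, mul_inv_cancel₀ hL0.ne', mul_one]
      _ ≤ L ^ #K * L⁻¹ := mul_le_mul_of_nonneg_right h' (by positivity)
      _ = L ^ #K * (L⁻¹ * 1) := by ring
      _ ≤ _ := by
          apply mul_le_mul_of_nonneg_left _ (by positivity)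
          exact mul_le_mul_of_nonneg_left h2 (by positivity)
  · obtain ⟨i, hi⟩ := nrm_attained hn.ne'
    have hti : t i ≠ 0 := by
      intro h
      rw [h] at hi
      simp at hi
      omega
    have h := card_gen (κ := K) H (fun k => mon t k.1) d
      (fun j => ⟨Finsupp.single i (j : ℕ), hK i j (by omega)⟩)
      (fun j j' hjj => by
        have h1 : Finsupp.single i (j : ℕ) = Finsupp.single i (j' : ℕ) := congrArg Subtype.val hjj
        exact Fin.ext (Finsupp.single_injective i h1)) (t i) hti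
      (fun j => by
        show mon t (Finsupp.single i (j : ℕ)) = _
        unfold mon
        rw [Finsupp.prod_single_index (by simp)]) A
    rw [Fintype.card_coe, hi] at h
    have h' : (#{c ∈ cbox K H | ∑ k : K, c k * mon t k.1 = A} : ℝ) * L ^ (d + 1) ≤
        ((2 * H / nrm t : ℕ) + 1 : ℝ) ^ d * L ^ #K := by
      rw [hL]; exact_mod_cast h
    have hT1 : (1 : ℝ) ≤ nrm t := by exact_mod_cast hn
    have hmax : max (nrm t : ℝ) 1 = nrm t := max_eq_left hT1
    have hq : ((2 * H / nrm t : ℕ) + 1 : ℝ) / L ≤ 2 / min (max (nrm t : ℝ) 1) L := by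
      rw [hmax]
      have h1 : ((2 * H / nrm t : ℕ) : ℝ) ≤ (2 * H : ℕ) / (nrm t : ℝ) := Nat.cast_div_le
      have h2 : ((2 * H : ℕ) : ℝ) / (nrm t : ℝ) ≤ L / (nrm t : ℝ) := by
        apply div_le_div_of_nonneg_right _ (by positivity)
        push_cast
        linarith
      have hmin : 0 < min (nrm t : ℝ) L := lt_min (by linarith) hL0
      have h3 : L / (nrm t : ℝ) / L ≤ 1 / min (nrm t : ℝ) L := by
        rw [div_div, mul_comm, ← div_div, div_self hL0.ne']
        exact one_div_le_one_div_of_le hmin (min_le_left _ _)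
      have h4 : 1 / L ≤ 1 / min (nrm t : ℝ) L := one_div_le_one_div_of_le hmin (min_le_right _ _)
      calc ((2 * H / nrm t : ℕ) + 1 : ℝ) / L ≤ (L / (nrm t : ℝ) + 1) / L := by
            apply div_le_div_of_nonneg_right _ hL0.le
            linarith
        _ = L / (nrm t : ℝ) / L + 1 / L := add_div _ _ _
        _ ≤ 1 / min (nrm t : ℝ) L + 1 / min (nrm t : ℝ) L := add_le_add h3 h4
        _ = 2 / min (nrm t : ℝ) L := by ring
    calc (#{c ∈ cbox K H | ∑ k : K, c k * mon t k.1 = A} : ℝ)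
        = ((#{c ∈ cbox K H | ∑ k : K, c k * mon t k.1 = A} : ℝ) * L ^ (d + 1)) *
            (L ^ (d + 1))⁻¹ := by
          rw [mul_assoc, mul_inv_cancel₀ (by positivity), mul_one]
      _ ≤ (((2 * H / nrm t : ℕ) + 1 : ℝ) ^ d * L ^ #K) * (L ^ (d + 1))⁻¹ :=
          mul_le_mul_of_nonneg_right h' (by positivity)
      _ = L ^ #K * (L⁻¹ * (((2 * H / nrm t : ℕ) + 1 : ℝ) / L) ^ d) := by
          rw [div_pow, pow_succ]
          field_simp
      _ ≤ _ := by
          apply mul_le_mul_of_nonneg_left _ (by positivity)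
          apply mul_le_mul_of_nonneg_left _ (by positivity)
          exact pow_le_pow_left₀ (by positivity) hq d

end Pool.Agent.T6.H58.RP
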