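import Pool.Agent.T6.H58.RP2

/-!
# Counting polynomials with a given value, III: the divisor argument (for MP_be1fae_nt, RandomPolynomials)
-/

set_option autoImplicit false

namespace Pool.Agent.T6.H58.RP

open Finset

section Div

variable {r : ℕ} (K : Finset (Fin r →₀ ℕ)) (i : Fin r) (t' : Fin r → ℤ)

/-- the monomial divided by the variable `i` -/
noncomputable def wd (s : ℤ) (k : Fin r →₀ ℕ) : ℤ := s ^ (k i - 1) * (k.erase i).prod fun j n => t' j ^ n

theorem prod_erase_update (s : ℤ) (k : Fin r →₀ ℕ) :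
    ((k.erase i).prod fun j n => (Function.update t' i s) j ^ n) =
      (k.erase i).prod fun j n => t' j ^ n := by
  unfold Finsupp.prod
  apply prod_congr rfl
  intro j hj
  have hji : j ≠ i := by
    intro h
    rw [h, Finsupp.mem_support_iff, Finsupp.erase_same] at hj
    exact hj rfl
  simp only [Function.update_of_ne hji]

theorem mon_update_pos (s : ℤ) (k : Fin r →₀ ℕ) (hk : k i ≠ 0) :
    mon (Function.update t' i s) k = s * wd i t' s k := by
  unfold mon wd
  rw [← Finsupp.mul_prod_erase k i _ (Finsupp.mem_support_iff.2 hk), prod_erase_update,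
    Function.update_self, ← mul_assoc, ← pow_succ', Nat.sub_add_cancel (Nat.one_le_iff_ne_zero.2 hk)]

theorem mon_update_zero (s s' : ℤ) (k : Fin r →₀ ℕ) (hk : k i = 0) :
    mon (Function.update t' i s) k = mon (Function.update t' i s') k := by
  unfold mon Finsupp.prod
  apply prod_congr rfl
  intro j hj
  have hji : j ≠ i := by
    intro h
    rw [h, Finsupp.mem_support_iff] at hj
    exact hj hk
  simp only [Function.update_of_ne hji]

theorem wd_single (s : ℤ) (j : ℕ) : wd i t' s (Finsupp.single i (j + 1)) = s ^ j := by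
  unfold wd
  simp

/-- the value of the part which does not contain the variable `i` -/
noncomputable def v0 (b : {k : K // k.1 i = 0} → ℤ) : ℤ := ∑ k, b k * mon (Function.update t' i 0) k.1.1

theorem sum_split (c : K → ℤ) (s : ℤ) :
    ∑ k : K, c k * mon (Function.update t' i s) k.1 =
      v0 K i t' (fun k => c k.1) + s * ∑ k : {k : K // ¬ k.1 i = 0}, c k.1 * wd i t' s k.1.1 := by
  rw [← Fintype.sum_subtype_add_sum_subtype (fun k : K => k.1 i = 0)]
  congr 1
  · unfold v0
    apply sum_congr rfl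
    intro k _
    rw [mon_update_zero i t' s 0 k.1.1 k.2]
  · rw [mul_sum]
    apply sum_congr rfl
    intro k _
    rw [mon_update_pos i t' s k.1.1 k.2]
    ring

open Classical in
theorem card_div (d' : ℕ) (hK : ∀ j < d' + 1, Finsupp.single i (j + 1) ∈ K) (H : ℕ) (A : ℤ)
    (T0 : ℕ) (hT0 : 1 ≤ T0) (τ : ℕ)
    (hτ : ∀ c ∈ cbox K H, A - v0 K i t' (fun k => c k.1) ≠ 0 →
      #(A - v0 K i t' (fun k => c k.1)).natAbs.divisors ≤ τ) :
    #{c ∈ cbox K H | (∃ s : ℤ, T0 ≤ s.natAbs ∧
        ∑ k : K, c k * mon (Function.update t' i s) k.1 = A) ∧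
        v0 K i t' (fun k => c k.1) ≠ A} * (2 * H + 1) ^ (d' + 1) ≤
      2 * τ * (2 * H / T0 + 1) ^ d' * (2 * H + 1) ^ #K := by
  set S := {c ∈ cbox K H | (∃ s : ℤ, T0 ≤ s.natAbs ∧
        ∑ k : K, c k * mon (Function.update t' i s) k.1 = A) ∧
        v0 K i t' (fun k => c k.1) ≠ A} with hS
  set Q : ℕ := 2 * τ * (2 * H / T0 + 1) ^ d' *
    (2 * H + 1) ^ Fintype.card {k : K // ¬ k.1 i = 0} with hQ
  set f : (K → ℤ) → ({k : K // k.1 i = 0} → ℤ) := fun c k => c k.1 with hf
  have hcard : Fintype.card {k : K // k.1 i = 0} + Fintype.card {k : K // ¬ k.1 i = 0} = #K := by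
    have h1 := Fintype.card_subtype_compl (fun k : K => k.1 i = 0)
    have h2 := Fintype.card_subtype_le (fun k : K => k.1 i = 0)
    rw [Fintype.card_coe] at h1 h2
    omega
  have himg : S.image f ⊆ cbox {k : K // k.1 i = 0} H := by
    intro b hb
    obtain ⟨c, hc, rfl⟩ := mem_image.1 hb
    rw [mem_cbox]
    exact fun k => mem_cbox.1 (mem_filter.1 hc).1 k.1
  have hfib : ∀ b ∈ S.image f, #{c ∈ S | f c = b} ≤ Q / (2 * H + 1) ^ (d' + 1) := by
    intro b hb
    rw [Nat.le_div_iff_mul_le (by positivity)]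
    obtain ⟨c0, hc0, hc0b⟩ := mem_image.1 hb
    have hc0' := mem_filter.1 hc0
    set n : ℤ := A - v0 K i t' b with hn
    have hn0 : n ≠ 0 := by
      intro h
      apply hc0'.2.2
      rw [← hc0b] at hn
      have : A - v0 K i t' (fun k => c0 k.1) = 0 := by rw [← h, hn]
      linarith
    have hτb : #n.natAbs.divisors ≤ τ := by
      have h1 := hτ c0 hc0'.1
      have h2 : (fun k : {k : K // k.1 i = 0} => c0 k.1) = b := hc0b
      rw [h2] at h1
      exact h1 hn0
    set D : Finset ℤ := (n.natAbs.divisors.image (fun m : ℕ => (m : ℤ)) ∪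
      n.natAbs.divisors.image (fun m : ℕ => -(m : ℤ))).filter (fun s => T0 ≤ s.natAbs) with hD
    have hDc : #D ≤ 2 * τ := by
      calc #D ≤ #(n.natAbs.divisors.image (fun m : ℕ => (m : ℤ)) ∪
            n.natAbs.divisors.image (fun m : ℕ => -(m : ℤ))) := card_filter_le _ _
        _ ≤ #(n.natAbs.divisors.image (fun m : ℕ => (m : ℤ))) +
            #(n.natAbs.divisors.image (fun m : ℕ => -(m : ℤ))) := card_union_le _ _
        _ ≤ τ + τ := Nat.add_le_add (card_image_le.trans hτb) (card_image_le.trans hτb)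
        _ = 2 * τ := by ring
    set U : Finset ({k : K // ¬ k.1 i = 0} → ℤ) := D.biUnion (fun s =>
      {c ∈ cbox {k : K // ¬ k.1 i = 0} H | ∑ k, c k * wd i t' s k.1.1 = n / s}) with hU
    have h1 : #{c ∈ S | f c = b} ≤ #U := by
      apply card_le_card_of_injOn (fun c => fun k => c k.1)
      · intro c hc
        have hc1 := mem_filter.1 (mem_coe.1 hc)
        have hc2 := mem_filter.1 hc1.1
        obtain ⟨s, hs1, hs2⟩ := hc2.2.1
        rw [sum_split] at hs2
        have hb' : (fun k : {k : K // k.1 i = 0} => c k.1) = b := hc1.2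
        rw [hb'] at hs2
        have hs0 : s ≠ 0 := by
          intro h
          rw [h] at hs1
          simp at hs1
          omega
        have hns : n = s * ∑ k : {k : K // ¬ k.1 i = 0}, c k.1 * wd i t' s k.1.1 := by
          rw [hn, ← hs2]; ring
        rw [mem_coe, hU, mem_biUnion]
        refine ⟨s, ?_, ?_⟩
        · rw [hD, mem_filter, mem_union, mem_image, mem_image]
          refine ⟨?_, hs1⟩
          have hdvd : s.natAbs ∈ n.natAbs.divisors := by
            rw [Nat.mem_divisors]
            exact ⟨Int.natAbs_dvd_natAbs.2 ⟨_, hns⟩, Int.natAbs_ne_zero.2 hn0⟩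
          rcases Int.natAbs_eq s with h | h
          · exact Or.inl ⟨s.natAbs, hdvd, h.symm⟩
          · exact Or.inr ⟨s.natAbs, hdvd, h.symm⟩
        · rw [mem_filter, mem_cbox]
          refine ⟨fun k => mem_cbox.1 hc2.1 k.1, ?_⟩
          rw [hns, Int.mul_ediv_cancel_left _ hs0]
      · intro c hc c' hc' hcc
        have hc1 := (mem_filter.1 (mem_coe.1 hc)).2
        have hc1' := (mem_filter.1 (mem_coe.1 hc')).2
        funext k
        by_cases hk : k.1 i = 0
        · have h3 := congrFun (hc1.trans hc1'.symm) (⟨k, hk⟩ : {k : K // k.1 i = 0})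
          exact h3
        · exact congrFun hcc (⟨k, hk⟩ : {k : K // ¬ k.1 i = 0})
    have h2 : #U * (2 * H + 1) ^ (d' + 1) ≤ Q := by
      have h3 : ∀ s ∈ D, #{c ∈ cbox {k : K // ¬ k.1 i = 0} H |
          ∑ k, c k * wd i t' s k.1.1 = n / s} * (2 * H + 1) ^ (d' + 1) ≤
          (2 * H / T0 + 1) ^ d' * (2 * H + 1) ^ Fintype.card {k : K // ¬ k.1 i = 0} := by
        intro s hs
        have hs1 : T0 ≤ s.natAbs := (mem_filter.1 hs).2
        have hs0 : s ≠ 0 := by
          intro h
          rw [h] at hs1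
          simp at hs1
          omega
        refine (card_gen (κ := {k : K // ¬ k.1 i = 0}) H (fun k => wd i t' s k.1.1) d'
          (fun j => ⟨⟨Finsupp.single i ((j : ℕ) + 1), hK j j.2⟩, by simp⟩) ?_ s hs0
          (fun j => wd_single i t' s j) (n / s)).trans ?_
        · intro j j' hjj
          have h4 : Finsupp.single i ((j : ℕ) + 1) = Finsupp.single i ((j' : ℕ) + 1) :=
            congrArg (fun x : {k : K // ¬ k.1 i = 0} => x.1.1) hjj
          have h5 := Finsupp.single_injective i h4
          exact Fin.ext (by omega)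
        · apply Nat.mul_le_mul_right
          apply Nat.pow_le_pow_left
          apply Nat.add_le_add_right
          exact Nat.div_le_div_left hs1 (by omega)
      calc #U * (2 * H + 1) ^ (d' + 1)
          ≤ (∑ s ∈ D, #{c ∈ cbox {k : K // ¬ k.1 i = 0} H |
              ∑ k, c k * wd i t' s k.1.1 = n / s}) * (2 * H + 1) ^ (d' + 1) :=
            Nat.mul_le_mul_right _ card_biUnion_le
        _ = ∑ s ∈ D, #{c ∈ cbox {k : K // ¬ k.1 i = 0} H |
              ∑ k, c k * wd i t' s k.1.1 = n / s} * (2 * H + 1) ^ (d' + 1) := sum_mul _ _ _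
        _ ≤ ∑ s ∈ D, (2 * H / T0 + 1) ^ d' *
              (2 * H + 1) ^ Fintype.card {k : K // ¬ k.1 i = 0} := sum_le_sum h3
        _ = #D * ((2 * H / T0 + 1) ^ d' *
              (2 * H + 1) ^ Fintype.card {k : K // ¬ k.1 i = 0}) := by
            rw [sum_const, smul_eq_mul]
        _ ≤ 2 * τ * ((2 * H / T0 + 1) ^ d' *
              (2 * H + 1) ^ Fintype.card {k : K // ¬ k.1 i = 0}) := Nat.mul_le_mul_right _ hDc
        _ = Q := by rw [hQ]; ring
    exact (Nat.mul_le_mul_right _ h1).trans h2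
  calc #S * (2 * H + 1) ^ (d' + 1)
      ≤ (Q / (2 * H + 1) ^ (d' + 1) * #(S.image f)) * (2 * H + 1) ^ (d' + 1) :=
        Nat.mul_le_mul_right _ (card_le_mul_card_image _ _ hfib)
    _ = (Q / (2 * H + 1) ^ (d' + 1) * (2 * H + 1) ^ (d' + 1)) * #(S.image f) := by ring
    _ ≤ Q * #(S.image f) := Nat.mul_le_mul_right _ (Nat.div_mul_le_self _ _)
    _ ≤ Q * (2 * H + 1) ^ Fintype.card {k : K // k.1 i = 0} := by
        apply Nat.mul_le_mul_left
        rw [← card_cbox]
        exact card_le_card himg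
    _ = 2 * τ * (2 * H / T0 + 1) ^ d' * (2 * H + 1) ^ #K := by
        rw [hQ, ← hcard, pow_add]
        ring

end Div

end Pool.Agent.T6.H58.RP
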